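import Mathlib

/-!
# Arithmetically closed families of sets of natural numbers
-/

namespace Pool.Agent.Lib.MP_f12a7c_lc

open Encodable

/-- An arithmetically closed family of sets of natural numbers (an `ω`-model of arithmetical
comprehension). -/
structure ArithClosed (R : Set (Set ℕ)) : Prop where
  compl : ∀ A ∈ R, Aᶜ ∈ R
  inter : ∀ A ∈ R, ∀ B ∈ R, A ∩ B ∈ R
  comap : ∀ f : ℕ → ℕ, Nat.Primrec f → ∀ A ∈ R, f ⁻¹' A ∈ R
  proj : ∀ A ∈ R, {n | ∃ m, Nat.pair n m ∈ A} ∈ R
  zero : {0} ∈ R

/-- A predicate on a coded type belongs to the family. -/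
def RP (R : Set (Set ℕ)) {α : Type} [Primcodable α] (P : α → Prop) : Prop :=
  {n | ∃ a, decode n = some a ∧ P a} ∈ R

section

variable {R : Set (Set ℕ)} (hR : ArithClosed R) {α β γ : Type} [Primcodable α] [Primcodable β]
  [Primcodable γ]

include hR

lemma ArithClosed.union {A B : Set ℕ} (hA : A ∈ R) (hB : B ∈ R) : A ∪ B ∈ R := by
  have h := hR.compl _ (hR.inter _ (hR.compl _ hA) _ (hR.compl _ hB))
  rwa [Set.compl_inter, compl_compl, compl_compl] at h

lemma ArithClosed.univ : Set.univ ∈ R := by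
  have h := hR.union hR.zero (hR.compl _ hR.zero)
  rwa [Set.union_compl_self] at h

lemma ArithClosed.ne_zero : {n : ℕ | n ≠ 0} ∈ R := by
  have h := hR.compl _ hR.zero
  have heq : ({0} : Set ℕ)ᶜ = {n : ℕ | n ≠ 0} := by ext n; simp
  rwa [heq] at h

/-- numbers that decode to something -/
lemma ArithClosed.isSome (α : Type) [Primcodable α] : {n | ∃ a : α, decode n = some a} ∈ R := by
  have h := hR.comap _ (Primcodable.prim (α := α)) _ hR.ne_zero
  have heq : (fun n => encode (decode (α := α) n)) ⁻¹' {n : ℕ | n ≠ 0} =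
      {n | ∃ a : α, decode n = some a} := by
    ext n
    simp only [Set.mem_preimage, Set.mem_ofPred_eq]
    cases h : (decode n : Option α) with
    | none => simp
    | some a => simp
  rwa [heq] at h

namespace RP

lemma not {P : α → Prop} (h : RP R P) : RP R (fun a => ¬ P a) := by
  unfold RP at *
  have h1 := hR.inter _ (hR.compl _ h) _ (hR.isSome α)
  convert h1 using 1
  ext n
  simp only [Set.mem_ofPred_eq, Set.mem_inter_iff, Set.mem_compl_iff, not_exists, not_and]
  constructor
  · rintro ⟨a, ha, hP⟩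
    refine ⟨fun b hb => ?_, a, ha⟩
    rw [ha] at hb
    cases hb
    exact hP
  · rintro ⟨h1, a, ha⟩
    exact ⟨a, ha, h1 a ha⟩

lemma and {P Q : α → Prop} (hP : RP R P) (hQ : RP R Q) : RP R (fun a => P a ∧ Q a) := by
  unfold RP at *
  convert hR.inter _ hP _ hQ using 1
  ext n
  simp only [Set.mem_ofPred_eq, Set.mem_inter_iff]
  constructor
  · rintro ⟨a, ha, h1, h2⟩
    exact ⟨⟨a, ha, h1⟩, a, ha, h2⟩
  · rintro ⟨⟨a, ha, h1⟩, b, hb, h2⟩
    rw [ha] at hb
    cases hb
    exact ⟨a, ha, h1, h2⟩

lemma or {P Q : α → Prop} (hP : RP R P) (hQ : RP R Q) : RP R (fun a => P a ∨ Q a) := by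
  have h := (RP.and hR (hP.not hR) (hQ.not hR)).not hR
  convert h using 2 with a
  tauto

lemma imp {P Q : α → Prop} (hP : RP R P) (hQ : RP R Q) : RP R (fun a => P a → Q a) := by
  have h := RP.or hR (hP.not hR) hQ
  convert h using 2 with a
  tauto

lemma iff {P Q : α → Prop} (hP : RP R P) (hQ : RP R Q) : RP R (fun a => (P a ↔ Q a)) := by
  have h := RP.and hR (hP.imp hR hQ) (hQ.imp hR hP)
  convert h using 2 with a
  tauto

lemma comp {P : β → Prop} (hP : RP R P) {f : α → β} (hf : Primrec f) :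
    RP R (fun a => P (f a)) := by
  unfold RP at *
  have h1 := hR.comap _ hf _ hR.ne_zero
  have h2 := hR.comap _ (Nat.Primrec.pred.comp hf) _ hP
  convert hR.inter _ h1 _ h2 using 1
  ext n
  simp only [Set.mem_ofPred_eq, Set.mem_inter_iff, Set.mem_preimage]
  cases h : (decode n : Option α) with
  | none => simp
  | some a => simp

lemma ex {P : α × β → Prop} (hP : RP R P) : RP R (fun a => ∃ b, P (a, b)) := by
  unfold RP at *
  convert hR.proj _ hP using 1
  ext n
  simp only [Set.mem_ofPred_eq]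
  constructor
  · rintro ⟨a, ha, b, hab⟩
    refine ⟨encode b, (a, b), ?_, hab⟩
    rw [Encodable.decode_prod_val]
    simp [ha]
  · rintro ⟨m, ⟨a, b⟩, h1, h2⟩
    rw [Encodable.decode_prod_val] at h1
    simp only [Nat.unpair_pair, Option.bind_eq_some_iff, Option.map_eq_some_iff,
      Prod.mk.injEq] at h1
    obtain ⟨a', ha', b', hb', rfl, rfl⟩ := h1
    exact ⟨a', ha', b', h2⟩

lemma all {P : α × β → Prop} (hP : RP R P) : RP R (fun a => ∀ b, P (a, b)) := by
  have h := (RP.ex hR (hP.not hR)).not hR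
  convert h using 2 with a
  simp

lemma of_primrec {P : α → Prop} (hP : PrimrecPred P) : RP R P := by
  classical
  have h0 : RP R (fun b : ℕ => b ≠ 0) := by
    unfold RP
    convert hR.ne_zero using 1
    ext n
    simp
  obtain ⟨_, hP⟩ := hP
  have h1 : Primrec (fun a : α => (decide (P a)).toNat) :=
    (Primrec.dom_bool Bool.toNat).comp hP
  convert RP.comp hR h0 h1 using 2 with a
  by_cases h : P a <;> simp [h]

lemma const (p : Prop) : RP R (fun _ : α => p) := by
  classical
  apply of_primrec hR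
  by_cases h : p
  · exact ⟨fun _ => isTrue h, by simpa [h] using Primrec.const true⟩
  · exact ⟨fun _ => isFalse h, by simpa [h] using Primrec.const false⟩

end RP

end

end Pool.Agent.Lib.MP_f12a7c_lc
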