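import Pool.Agent.Lib.MP_f12a7c_lc.Arith

/-!
# Dependent choice inside an arithmetically closed family (I.4)
-/

namespace Pool.Agent.Lib.MP_f12a7c_lc

open Encodable

variable {R : Set (Set ℕ)}

/-- `s` is the element of least code with `V (h, s)`. -/
def LeastV {S : Type} [Primcodable S] (V : List S × S → Prop) (t : List S × S) : Prop :=
  V t ∧ ∀ b, encode b < encode t.2 → ¬ V (t.1, b)

lemma leastV_unique {S : Type} [Primcodable S] {V : List S × S → Prop} {h : List S} {a b : S}
    (ha : LeastV V (h, a)) (hb : LeastV V (h, b)) : a = b := by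
  rcases lt_trichotomy (encode a) (encode b) with h1 | h1 | h1
  · exact absurd ha.1 (hb.2 a h1)
  · exact encode_injective h1
  · exact absurd hb.1 (ha.2 b h1)

lemma leastV_exists {S : Type} [Primcodable S] {V : List S × S → Prop} {h : List S}
    (hs : ∃ s, V (h, s)) : ∃ s, LeastV V (h, s) := by
  classical
  have hex : ∃ n, ∃ s : S, encode s = n ∧ V (h, s) := by
    obtain ⟨s, hs⟩ := hs
    exact ⟨encode s, s, rfl, hs⟩
  obtain ⟨s, h1, h2⟩ := Nat.find_spec hex
  refine ⟨s, h2, fun b hb hV => ?_⟩
  rw [h1] at hb
  exact Nat.find_min hex hb ⟨b, rfl, hV⟩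

lemma leastV_rp (hR : ArithClosed R) {S : Type} [Primcodable S] {V : List S × S → Prop}
    (hV : RP R V) : RP R (LeastV V) := by
  have h1 : RP R (fun t : (List S × S) × S => encode t.2 < encode t.1.2) :=
    RP.of_primrec hR (Primrec.nat_lt.comp (Primrec.encode.comp Primrec.snd)
      (Primrec.encode.comp (Primrec.snd.comp Primrec.fst)))
  have h2 : RP R (fun t : (List S × S) × S => V (t.1.1, t.2)) :=
    RP.comp hR hV (Primrec.pair (Primrec.fst.comp Primrec.fst) Primrec.snd)
  exact RP.and hR hV (RP.all hR (RP.imp hR h1 (RP.not hR h2)))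

/-- Every initial segment of `L` is continued by the element of least code. -/
def ChainV {S : Type} [Primcodable S] (V : List S × S → Prop) (L : List S) : Prop :=
  ∀ t : List S × S × List S, L = t.1 ++ t.2.1 :: t.2.2 → LeastV V (t.1, t.2.1)

lemma chainV_rp (hR : ArithClosed R) {S : Type} [Primcodable S] {V : List S × S → Prop}
    (hV : RP R V) : RP R (ChainV V) := by
  have hf : Primrec (fun u : List S × (List S × S × List S) => u.2.1 ++ u.2.2.1 :: u.2.2.2) :=
    Primrec.list_append.comp (Primrec.fst.comp Primrec.snd)
      (Primrec.list_cons.comp (Primrec.fst.comp (Primrec.snd.comp Primrec.snd))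
        (Primrec.snd.comp (Primrec.snd.comp Primrec.snd)))
  have h1 : RP R (fun u : List S × (List S × S × List S) =>
      u.1 = u.2.1 ++ u.2.2.1 :: u.2.2.2) :=
    RP.of_primrec hR (Primrec.eq.comp Primrec.fst hf)
  have h2 : RP R (fun u : List S × (List S × S × List S) => LeastV V (u.2.1, u.2.2.1)) :=
    RP.comp hR (leastV_rp hR hV) (Primrec.pair (Primrec.fst.comp Primrec.snd)
      (Primrec.fst.comp (Primrec.snd.comp Primrec.snd)))
  exact RP.all hR (RP.imp hR h1 h2)

theorem exists_seq (hR : ArithClosed R) {S : Type} [Primcodable S] {V : List S × S → Prop}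
    (hV : RP R V) {Good : List S → Prop} (h0 : Good []) (hstep : ∀ h, Good h → ∃ s, V (h, s))
    (hgood : ∀ h s, Good h → V (h, s) → Good (h ++ [s])) :
    ∃ s : ℕ → S, RP R (fun t : ℕ × List S => (List.range t.1).map s = t.2) ∧
      ∀ n, Good ((List.range n).map s) ∧ V ((List.range n).map s, s n) := by
  classical
  obtain ⟨d, -⟩ := hstep [] h0
  have hg : ∀ h, ∃ s, Good h → LeastV V (h, s) := by
    intro h
    by_cases hh : Good h
    · obtain ⟨s, hs⟩ := leastV_exists (hstep h hh)
      exact ⟨s, fun _ => hs⟩
    · exact ⟨d, fun h' => absurd h' hh⟩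
  choose g hg using hg
  let hist : ℕ → List S := fun n => Nat.rec [] (fun _ l => l ++ [g l]) n
  have hist0 : hist 0 = [] := rfl
  have histS : ∀ n, hist (n + 1) = hist n ++ [g (hist n)] := fun n => rfl
  have hmap : ∀ n, (List.range n).map (fun k => g (hist k)) = hist n := by
    intro n
    induction n with
    | zero => simp [hist0]
    | succ n ih => rw [List.range_succ, List.map_append, ih, histS]; rfl
  have hgd : ∀ n, Good (hist n) := by
    intro n
    induction n with
    | zero => exact h0
    | succ n ih =>
      rw [histS]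
      exact hgood _ _ ih (hg _ ih).1
  have hlen : ∀ n, (hist n).length = n := by
    intro n
    rw [← hmap]
    simp
  have hchain : ∀ n, ChainV V (hist n) := by
    intro n
    induction n with
    | zero =>
      rintro ⟨p, x, q⟩ h
      simp [hist0] at h
    | succ n ih =>
      rintro ⟨p, x, q⟩ h
      simp only at h ⊢
      rcases List.eq_nil_or_concat q with rfl | ⟨q', y, rfl⟩
      · rw [histS] at h
        obtain ⟨h1, h2⟩ := List.append_inj' h rfl
        simp only [List.cons.injEq, and_true] at h2
        rw [← h1, ← h2]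
        exact hg _ (hgd n)
      · rw [histS, List.concat_eq_append] at h
        have h' : hist n ++ [g (hist n)] = (p ++ x :: q') ++ [y] := by
          rw [h]; simp
        obtain ⟨h1, -⟩ := List.append_inj' h' rfl
        exact ih (p, x, q') h1
  have huniq : ∀ L : List S, ChainV V L → L = hist L.length := by
    intro L
    induction L using List.reverseRecOn with
    | nil => intro _; rfl
    | append_singleton L x ih =>
      intro hL
      have hL' : ChainV V L := by
        rintro ⟨p, y, q⟩ h
        refine hL (p, y, q ++ [x]) ?_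
        simp only at h ⊢
        rw [h]; simp
      have h1 := ih hL'
      have h2 : LeastV V (L, x) := hL (L, x, []) rfl
      rw [List.length_append, List.length_singleton, histS, ← h1]
      have h3 : LeastV V (L, g L) := by
        apply hg
        rw [h1]
        exact hgd _
      rw [leastV_unique h2 h3]
  refine ⟨fun k => g (hist k), ?_, fun n => ?_⟩
  · have h1 : RP R (fun t : ℕ × List S => t.2.length = t.1) :=
      RP.of_primrec hR (Primrec.eq.comp (Primrec.list_length.comp Primrec.snd) Primrec.fst)
    have h2 : RP R (fun t : ℕ × List S => ChainV V t.2) :=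
      RP.comp hR (chainV_rp hR hV) Primrec.snd
    have h3 := RP.and hR h1 h2
    have h4 : (fun t : ℕ × List S => (List.range t.1).map (fun k => g (hist k)) = t.2) =
        (fun t : ℕ × List S => t.2.length = t.1 ∧ ChainV V t.2) := by
      funext t
      obtain ⟨n, L⟩ := t
      simp only [hmap]
      apply propext
      constructor
      · rintro rfl
        exact ⟨hlen n, hchain n⟩
      · rintro ⟨h5, h6⟩
        rw [huniq L h6, h5]
    rw [h4]
    exact h3
  · rw [hmap]
    exact ⟨hgd n, (hg _ (hgd n)).1⟩

end Pool.Agent.Lib.MP_f12a7c_lc
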