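import Pool.Agent.Lib.MP_f12a7c_lc.Coded

/-!
# Iterated coded maps (I.3)
-/

namespace Pool.Agent.Lib.MP_f12a7c_lc

variable {R : Set (Set ℕ)}

/-- iterated application of the maps of a family along a word -/
def words {α : Type} (T : α → X R → X R) : List α → X R → X R
  | [], x => x
  | a :: w, x => words T w (T a x)

/-- chains of initial segments along a word -/
def wordsChain {α : Type} (Q : List Bool × (α × List Bool) → Prop) : List α → List Bool → List Bool → Prop
  | [], p, q => p = q
  | a :: w, p, q => ∃ r, Q (p, (a, r)) ∧ wordsChain Q w r q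

lemma wordsChain_iff {α : Type} (Q : List Bool × (α × List Bool) → Prop) (w : List α) (p q : List Bool) :
    wordsChain Q w p q ↔ ∃ L : List (List Bool), L.length = w.length + 1 ∧ L[0]? = some p ∧
      L[w.length]? = some q ∧ ∀ (j : ℕ) (u : α × (List Bool × List Bool)),
        (w[j]? = some u.1 ∧ L[j]? = some u.2.1 ∧ L[j + 1]? = some u.2.2) → Q (u.2.1, (u.1, u.2.2)) := by
  induction w generalizing p with
  | nil =>
    constructor
    · rintro rfl
      refine ⟨[p], rfl, rfl, rfl, ?_⟩
      rintro j u ⟨h, -⟩
      simp at h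
    · rintro ⟨L, h1, h2, h3, -⟩
      simp only [List.length_nil] at h3
      rw [h2] at h3
      show p = q
      simpa using h3
  | cons a w ih =>
    constructor
    · rintro ⟨r, hQ, hr⟩
      obtain ⟨L, h1, h2, h3, h4⟩ := (ih r).1 hr
      refine ⟨p :: L, by simp [h1], rfl, by simpa using h3, ?_⟩
      rintro j ⟨b, s, t⟩ ⟨k1, k2, k3⟩
      cases j with
      | zero =>
        simp only [List.getElem?_cons_zero, Option.some.injEq, zero_add, List.getElem?_cons_succ] at k1 k2 k3
        rw [h2] at k3
        simp only [Option.some.injEq] at k3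
        subst k1 k2 k3
        exact hQ
      | succ j =>
        simp only [List.getElem?_cons_succ] at k1 k2 k3
        exact h4 j (b, (s, t)) ⟨k1, k2, k3⟩
    · rintro ⟨L, h1, h2, h3, h4⟩
      cases L with
      | nil => simp at h1
      | cons p' L =>
        simp only [List.getElem?_cons_zero, Option.some.injEq] at h2
        subst h2
        simp only [List.length_cons, Nat.add_right_cancel_iff] at h1
        have hL : 0 < L.length := by omega
        refine ⟨L[0], ?_, (ih _).2 ⟨L, h1, ?_, ?_, ?_⟩⟩
        · exact h4 0 (a, (p', L[0])) ⟨rfl, rfl, by simp [hL]⟩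
        · simp [hL]
        · simpa using h3
        · rintro j ⟨b, s, t⟩ ⟨k1, k2, k3⟩
          exact h4 (j + 1) (b, (s, t)) ⟨by simpa using k1, by simpa using k2, by simpa using k3⟩

theorem CodedMap.words (hR : ArithClosed R) {α : Type} [Primcodable α] {T : α → X R → X R}
    (hT : CodedMap R T) : CodedMap R (words T) := by
  obtain ⟨Q, hQ, -, hQ3⟩ := CodedMap.init hR hT
  apply CodedMap.of_init hR
  refine Coded.mk' hR (fun t : List Bool × (List α × List Bool) => wordsChain Q t.2.1 t.1 t.2.2) ?_ ?_
  · have h1 : RP R (fun t : (List Bool × (List α × List Bool)) × List (List Bool) =>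
        t.2.length = t.1.2.1.length + 1) :=
      RP.of_primrec hR (Primrec.eq.comp (Primrec.list_length.comp Primrec.snd)
        (Primrec.succ.comp (Primrec.list_length.comp (Primrec.fst.comp (Primrec.snd.comp Primrec.fst)))))
    have h2 : RP R (fun t : (List Bool × (List α × List Bool)) × List (List Bool) =>
        t.2[0]? = some t.1.1) :=
      RP.of_primrec hR (Primrec.eq.comp (Primrec.list_getElem?.comp Primrec.snd (Primrec.const 0))
        (Primrec.option_some.comp (Primrec.fst.comp Primrec.fst)))
    have h3 : RP R (fun t : (List Bool × (List α × List Bool)) × List (List Bool) =>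
        t.2[t.1.2.1.length]? = some t.1.2.2) :=
      RP.of_primrec hR (Primrec.eq.comp (Primrec.list_getElem?.comp Primrec.snd
        (Primrec.list_length.comp (Primrec.fst.comp (Primrec.snd.comp Primrec.fst))))
        (Primrec.option_some.comp (Primrec.snd.comp (Primrec.snd.comp Primrec.fst))))
    have h4 : RP R (fun t : (((List Bool × (List α × List Bool)) × List (List Bool)) × ℕ) ×
        (α × (List Bool × List Bool)) =>
        (t.1.1.1.2.1[t.1.2]? = some t.2.1 ∧ t.1.1.2[t.1.2]? = some t.2.2.1 ∧
          t.1.1.2[t.1.2 + 1]? = some t.2.2.2) → Q (t.2.2.1, (t.2.1, t.2.2.2))) := by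
      refine RP.imp hR (RP.and hR ?_ (RP.and hR ?_ ?_)) ?_
      · exact RP.of_primrec hR (Primrec.eq.comp (Primrec.list_getElem?.comp
          (Primrec.fst.comp (Primrec.snd.comp (Primrec.fst.comp (Primrec.fst.comp Primrec.fst))))
          (Primrec.snd.comp Primrec.fst)) (Primrec.option_some.comp (Primrec.fst.comp Primrec.snd)))
      · exact RP.of_primrec hR (Primrec.eq.comp (Primrec.list_getElem?.comp
          (Primrec.snd.comp (Primrec.fst.comp Primrec.fst))
          (Primrec.snd.comp Primrec.fst))
          (Primrec.option_some.comp (Primrec.fst.comp (Primrec.snd.comp Primrec.snd))))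
      · exact RP.of_primrec hR (Primrec.eq.comp (Primrec.list_getElem?.comp
          (Primrec.snd.comp (Primrec.fst.comp Primrec.fst))
          (Primrec.succ.comp (Primrec.snd.comp Primrec.fst)))
          (Primrec.option_some.comp (Primrec.snd.comp (Primrec.snd.comp Primrec.snd))))
      · exact hQ.comp hR (f := fun t : (((List Bool × (List α × List Bool)) × List (List Bool)) × ℕ) ×
          (α × (List Bool × List Bool)) => (t.2.2.1, (t.2.1, t.2.2.2)))
          (Primrec.pair (Primrec.fst.comp (Primrec.snd.comp Primrec.snd))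
            (Primrec.pair (Primrec.fst.comp Primrec.snd) (Primrec.snd.comp (Primrec.snd.comp Primrec.snd))))
    have h5 := RP.all hR (RP.all hR h4)
    have h6 := RP.ex hR (h1.and hR (h2.and hR (h3.and hR h5)))
    convert h6 using 2 with t
    exact wordsChain_iff Q t.2.1 t.1 t.2.2
  · rintro x ⟨w, q⟩
    simp only
    induction w generalizing x with
    | nil =>
      constructor
      · intro h
        exact ⟨q, h, rfl⟩
      · rintro ⟨p, hp, rfl⟩
        exact hp
    | cons a w ih =>
      show Init q (Pool.Agent.Lib.MP_f12a7c_lc.words T w (T a x)).1 ↔ _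
      rw [ih]
      constructor
      · rintro ⟨r, hr, hc⟩
        obtain ⟨p, hp, hQp⟩ := (hQ3 x (a, r)).1 hr
        exact ⟨p, hp, r, hQp, hc⟩
      · rintro ⟨p, hp, r, hQp, hc⟩
        exact ⟨r, (hQ3 x (a, r)).2 ⟨p, hp, hQp⟩, hc⟩

end Pool.Agent.Lib.MP_f12a7c_lc
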