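import Pool.Agent.Lib.MP_f12a7c_lc.AsiStep
import Pool.Agent.Lib.MP_f12a7c_lc.Words
import Pool.Agent.Lib.MP_f12a7c_lc.Seq

/-!
# Lemma 1: a coded set separating a locally finite coded graph into finite pieces
-/

namespace Pool.Agent.Lib.MP_f12a7c_lc

open Encodable

section Projections

variable {α β γ δ ε ζ : Type} [Primcodable α] [Primcodable β] [Primcodable γ] [Primcodable δ]
  [Primcodable ε] [Primcodable ζ]

lemma v0 : Primrec (fun t : α × β => t.2) := Primrec.snd
lemma v1 : Primrec (fun t : (α × β) × γ => t.1.2) := Primrec.snd.comp Primrec.fst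
lemma v2 : Primrec (fun t : ((α × β) × γ) × δ => t.1.1.2) := v1.comp Primrec.fst
lemma v3 : Primrec (fun t : (((α × β) × γ) × δ) × ε => t.1.1.1.2) := v2.comp Primrec.fst
lemma v4 : Primrec (fun t : ((((α × β) × γ) × δ) × ε) × ζ => t.1.1.1.1.2) :=
  v3.comp Primrec.fst
lemma r1 : Primrec (fun t : α × β => t.1) := Primrec.fst
lemma r2 : Primrec (fun t : (α × β) × γ => t.1.1) := r1.comp Primrec.fst
lemma r3 : Primrec (fun t : ((α × β) × γ) × δ => t.1.1.1) := r2.comp Primrec.fst
lemma r4 : Primrec (fun t : (((α × β) × γ) × δ) × ε => t.1.1.1.1) := r3.comp Primrec.fst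

end Projections

section

variable {R : Set (Set ℕ)} (hR : ArithClosed R) {α β γ : Type} [Primcodable α] [Primcodable β]
  [Primcodable γ]

include hR

lemma RP.mem : RP R (fun t : List β × β => t.2 ∈ t.1) := by
  have h1 : RP R (fun t : (List β × β) × ℕ => t.1.1[t.2]? = some t.1.2) :=
    RP.of_primrec hR (Primrec.eq.comp (Primrec.list_getElem?.comp r2 v0)
      (Primrec.option_some.comp v1))
  have h2 := RP.ex hR h1
  convert h2 using 2 with t
  rw [List.mem_iff_getElem?]

lemma Coded.exMem {P : X R → α × β → Prop} (hP : Coded R P) {f : α → List β} (hf : Primrec f) :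
    Coded R (fun x a => ∃ b ∈ f a, P x (a, b)) := by
  have h1 : Coded R (fun (_ : X R) (t : α × β) => t.2 ∈ f t.1) :=
    Coded.of_rp hR ((RP.mem hR).comp hR (f := fun t : α × β => (f t.1, t.2))
      (Primrec.pair (hf.comp Primrec.fst) Primrec.snd))
  exact Coded.ex hR (P := fun x t => t.2 ∈ f t.1 ∧ P x t) (h1.and hR hP)

lemma Coded.allMem {P : X R → α × β → Prop} (hP : Coded R P) {f : α → List β} (hf : Primrec f) :
    Coded R (fun x a => ∀ b ∈ f a, P x (a, b)) := by
  have h := (Coded.exMem hR (hP.not hR) hf).not hR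
  convert h using 3 with x a
  simp

end

section Graph

variable {R : Set (Set ℕ)} {T : ℕ → X R → X R}

/-- `y` is reached from `x` in at most `n` steps -/
def nearT (T : ℕ → X R → X R) (n : ℕ) (x y : X R) : Prop :=
  ∃ u : List ℕ, u.length ≤ n ∧ words T u x = y

lemma words_append (u v : List ℕ) (x : X R) :
    words T (u ++ v) x = words T v (words T u x) := by
  induction u generalizing x with
  | nil => rfl
  | cons a u ih => exact ih _

lemma words_rev (hsymm : ∀ x i, ∃ j, T j (T i x) = x) (u : List ℕ) (x : X R) :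
    ∃ v : List ℕ, v.length = u.length ∧ words T v (words T u x) = x := by
  induction u generalizing x with
  | nil => exact ⟨[], rfl, rfl⟩
  | cons a u ih =>
    obtain ⟨v, hv1, hv2⟩ := ih (T a x)
    obtain ⟨j, hj⟩ := hsymm x a
    refine ⟨v ++ [j], by simp [hv1], ?_⟩
    rw [words_append]
    change words T [j] (words T v (words T u (T a x))) = x
    rw [hv2]
    exact hj

lemma nr_nearT (hsymm : ∀ x i, ∃ j, T j (T i x) = x) : Nr (nearT T) where
  refl := fun n x => ⟨[], by simp, rfl⟩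
  mono := fun m n x y h ⟨u, hu, hxy⟩ => ⟨u, hu.trans h, hxy⟩
  symm := by
    rintro n x y ⟨u, hu, rfl⟩
    obtain ⟨v, hv1, hv2⟩ := words_rev hsymm u x
    exact ⟨v, by omega, hv2⟩
  trans := by
    rintro m n x y z ⟨u, hu, rfl⟩ ⟨v, hv, rfl⟩
    exact ⟨u ++ v, by simp; omega, words_append u v x⟩

lemma near_one (hrefl : ∀ x, ∃ i, T i x = x) {x y : X R} :
    nearT T 1 x y ↔ ∃ i, T i x = y := by
  constructor
  · rintro ⟨u, hu, h⟩
    match u, hu with
    | [], _ =>
      obtain ⟨i, hi⟩ := hrefl x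
      exact ⟨i, hi.trans h⟩
    | [i], _ => exact ⟨i, h⟩
    | _ :: _ :: _, hu => simp at hu
  · rintro ⟨i, h⟩
    exact ⟨[i], by simp, h⟩

lemma ball_finite (hfin : ∀ x, {y | ∃ i, T i x = y}.Finite) (n : ℕ) (x : X R) :
    {y | nearT T n x y}.Finite := by
  induction n generalizing x with
  | zero =>
    apply (Set.finite_singleton x).subset
    rintro y ⟨u, hu, h⟩
    have : u = [] := by simpa using hu
    subst this
    exact h.symm
  | succ n ih =>
    have h1 : (⋃ z ∈ {z | ∃ i, T i x = z}, {y | nearT T n z y}).Finite :=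
      (hfin x).biUnion fun z _ => ih z
    apply ((Set.finite_singleton x).union h1).subset
    rintro y ⟨u, hu, h⟩
    match u, hu with
    | [], _ => exact Or.inl h.symm
    | a :: u, hu =>
      refine Or.inr ?_
      simp only [Set.mem_iUnion]
      exact ⟨T a x, ⟨a, rfl⟩, u, by simpa using hu, h⟩

/-- the finite set of points described by a list of words -/
def inL (T : ℕ → X R → X R) (L : List (List ℕ)) (x y : X R) : Prop := ∃ u ∈ L, words T u x = y

lemma exists_list (hfin : ∀ x, {y | ∃ i, T i x = y}.Finite) {n : ℕ} {x : X R} {S : Set (X R)}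
    (hS : ∀ y ∈ S, nearT T n x y) :
    ∃ L : List (List ℕ), (∀ u ∈ L, u.length ≤ n) ∧ ∀ y, y ∈ S ↔ inL T L x y := by
  have hf : S.Finite := (ball_finite hfin n x).subset hS
  choose! u hu1 hu2 using hS
  refine ⟨hf.toFinset.toList.map u, ?_, ?_⟩
  · intro v hv
    rw [List.mem_map] at hv
    obtain ⟨y, hy, rfl⟩ := hv
    exact hu1 y (by simpa using hy)
  · intro y
    constructor
    · intro hy
      exact ⟨u y, List.mem_map.2 ⟨y, by simpa using hy, rfl⟩, hu2 y hy⟩
    · rintro ⟨v, hv, hvy⟩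
      rw [List.mem_map] at hv
      obtain ⟨z, hz, rfl⟩ := hv
      have hzS : z ∈ S := by simpa using hz
      rw [hu2 z hzS] at hvy
      rwa [← hvy]

/-- A step: a string and two lists of words. -/
abbrev Step : Type := List Bool × (List (List ℕ) × List (List ℕ))

/-- the points coloured 0 by the history `h` -/
def col0 (T : ℕ → X R → X R) (h : List Step) (y : X R) : Prop :=
  ∃ s ∈ h, ∃ x : X R, Init s.1 x.1 ∧ inL T s.2.1 x y

/-- the points coloured 1 by the history `h` -/
def col1 (T : ℕ → X R → X R) (h : List Step) (y : X R) : Prop :=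
  ∃ s ∈ h, ∃ x : X R, Init s.1 x.1 ∧ inL T s.2.2 x y

/-- the coloured points -/
def colD (T : ℕ → X R → X R) (h : List Step) (y : X R) : Prop := col0 T h y ∨ col1 T h y

/-- good histories -/
def GoodH (T : ℕ → X R → X R) (h : List Step) : Prop :=
  (∀ y, ¬ (col0 T h y ∧ col1 T h y)) ∧ Bdd (nearT T) (colD T h)

/-- the points `x` with initial segment `q` are enclosed -/
def EnclH (T : ℕ → X R → X R) (h : List Step) (q : List Bool) : Prop :=
  ∀ x : X R, Init q x.1 → ∃ L : List (List ℕ), inL T L x x ∧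
    ∀ u ∈ L, ∀ w : List ℕ, nearT T 1 (words T u x) (words T w x) → ¬ inL T L x (words T w x) →
      col0 T h (words T u x) ∧ col1 T h (words T w x)

/-- the enumeration of the strings -/
def enumStr (n : ℕ) : List Bool := (decode n).getD []

lemma enumStr_encode (p : List Bool) : enumStr (encode p) = p := by simp [enumStr]

/-- the requirements on the next step -/
def nextH (T : ℕ → X R → X R) (t : List Step × Step) : Prop :=
  enumStr t.1.length <+: t.2.1 ∧ GoodH T (t.1 ++ [t.2]) ∧ EnclH T (t.1 ++ [t.2]) t.2.1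

end Graph

section CodedGraph

variable {R : Set (Set ℕ)} (hR : ArithClosed R) (hc : R.Countable) {T : ℕ → X R → X R}
  (hT : CodedMap R T)

include hR hT

lemma coded_eqW : Coded R (fun x (t : List ℕ × List ℕ) => words T t.1 x = words T t.2 x) :=
  CodedMap.eq hR ((CodedMap.words hR hT).comp_index hR Primrec.fst)
    ((CodedMap.words hR hT).comp_index hR Primrec.snd)

lemma coded_inL : Coded R (fun x (t : List (List ℕ) × List ℕ) =>
    inL T t.1 x (words T t.2 x)) := by
  have h1 : Coded R (fun x (t : (List (List ℕ) × List ℕ) × List ℕ) =>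
      words T t.2 x = words T t.1.2 x) :=
    Coded.comp hR (coded_eqW hR hT)
      (f := fun t : (List (List ℕ) × List ℕ) × List ℕ => (t.2, t.1.2)) (Primrec.pair v0 v1)
  exact Coded.exMem hR h1 Primrec.fst

lemma coded_near : Coded R (fun x (t : (ℕ × List ℕ) × List ℕ) =>
    nearT T t.1.1 (words T t.1.2 x) (words T t.2 x)) := by
  have h1 : Coded R (fun x (t : ((ℕ × List ℕ) × List ℕ) × List ℕ) =>
      words T (t.1.1.2 ++ t.2) x = words T t.1.2 x) :=
    Coded.comp hR (coded_eqW hR hT)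
      (f := fun t : ((ℕ × List ℕ) × List ℕ) × List ℕ => (t.1.1.2 ++ t.2, t.1.2))
      (Primrec.pair (Primrec.list_append.comp v2 v0) v1)
  have h2 : Coded R (fun (_ : X R) (t : ((ℕ × List ℕ) × List ℕ) × List ℕ) =>
      t.2.length ≤ t.1.1.1) :=
    Coded.of_primrec hR (Primrec.nat_le.comp (Primrec.list_length.comp v0) r3)
  have h3 := Coded.ex hR (h2.and hR h1)
  convert h3 using 3 with x t
  unfold nearT
  simp only [words_append]

lemma coded_init_words : Coded R (fun x (t : List ℕ × List Bool) => Init t.2 (words T t.1 x).1) :=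
  (CodedMap.words hR hT).init hR

/-- points reached from a cylinder by a list of words -/
lemma coded_pts (hsymm : ∀ x i, ∃ j, T j (T i x) = x) :
    Coded R (fun y (t : List Bool × List (List ℕ)) =>
      ∃ x : X R, Init t.1 x.1 ∧ inL T t.2 x y) := by
  have h1 : Coded R (fun y (t : ((List Bool × List (List ℕ)) × List ℕ) × List ℕ) =>
      words T (t.1.2 ++ t.2) y = words T [] y) :=
    Coded.comp hR (coded_eqW hR hT)
      (f := fun t : ((List Bool × List (List ℕ)) × List ℕ) × List ℕ => (t.1.2 ++ t.2, []))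
      (Primrec.pair (Primrec.list_append.comp v1 v0) (Primrec.const _))
  have h2 : Coded R (fun y (t : (List Bool × List (List ℕ)) × List ℕ) =>
      ∃ u ∈ t.1.2, words T (t.2 ++ u) y = words T [] y) := Coded.exMem hR h1 v1
  have h3 : Coded R (fun y (t : (List Bool × List (List ℕ)) × List ℕ) =>
      Init t.1.1 (words T t.2 y).1) :=
    Coded.comp hR (coded_init_words hR hT)
      (f := fun t : (List Bool × List (List ℕ)) × List ℕ => (t.2, t.1.1)) (Primrec.pair v0 r2)
  have h4 := Coded.ex hR (h3.and hR h2)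
  convert h4 using 3 with y t
  constructor
  · rintro ⟨x, hx, u, hu, hxy⟩
    obtain ⟨v, _, hv⟩ := words_rev hsymm u x
    rw [hxy] at hv
    refine ⟨v, ?_, u, hu, ?_⟩
    · rw [hv]; exact hx
    · rw [words_append, hv]; exact hxy
  · rintro ⟨v, hv, u, hu, h⟩
    rw [words_append] at h
    exact ⟨words T v y, hv, u, hu, h⟩

lemma coded_col0 (hsymm : ∀ x i, ∃ j, T j (T i x) = x) :
    Coded R (fun y (h : List Step) => col0 T h y) := by
  have h1 : Coded R (fun y (t : List Step × Step) =>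
      ∃ x : X R, Init t.2.1 x.1 ∧ inL T t.2.2.1 x y) :=
    Coded.comp hR (coded_pts hR hT hsymm) (f := fun t : List Step × Step => (t.2.1, t.2.2.1))
      (Primrec.pair (Primrec.fst.comp v0) (Primrec.fst.comp (Primrec.snd.comp v0)))
  exact Coded.exMem hR h1 Primrec.id

lemma coded_col1 (hsymm : ∀ x i, ∃ j, T j (T i x) = x) :
    Coded R (fun y (h : List Step) => col1 T h y) := by
  have h1 : Coded R (fun y (t : List Step × Step) =>
      ∃ x : X R, Init t.2.1 x.1 ∧ inL T t.2.2.2 x y) :=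
    Coded.comp hR (coded_pts hR hT hsymm) (f := fun t : List Step × Step => (t.2.1, t.2.2.2))
      (Primrec.pair (Primrec.fst.comp v0) (Primrec.snd.comp (Primrec.snd.comp v0)))
  exact Coded.exMem hR h1 Primrec.id

lemma coded_colD (hsymm : ∀ x i, ∃ j, T j (T i x) = x) :
    Coded R (fun y (h : List Step) => colD T h y) :=
  (coded_col0 hR hT hsymm).or hR (coded_col1 hR hT hsymm)

include hc

lemma rp_disj (hsymm : ∀ x i, ∃ j, T j (T i x) = x) :
    RP R (fun h : List Step => ∀ y, ¬ (col0 T h y ∧ col1 T h y)) :=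
  Coded.forall_rp hR hc (((coded_col0 hR hT hsymm).and hR (coded_col1 hR hT hsymm)).not hR)

lemma rp_bdd (hsymm : ∀ x i, ∃ j, T j (T i x) = x)
    (hfin : ∀ x, {y | ∃ i, T i x = y}.Finite) :
    RP R (fun h : List Step => Bdd (nearT T) (colD T h)) := by
  -- context: h, d, L, u, w
  have k1 : Coded R (fun y (t : (((List Step × ℕ) × List (List ℕ)) × List ℕ) × List ℕ) =>
      colD T t.1.1.1.1 (words T t.2 y)) :=
    Coded.comp hR (Coded.subst hR (coded_colD hR hT hsymm) (CodedMap.words hR hT))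
      (f := fun t : (((List Step × ℕ) × List (List ℕ)) × List ℕ) × List ℕ => (t.2, t.1.1.1.1))
      (Primrec.pair v0 r4)
  have k2 : Coded R (fun y (t : (((List Step × ℕ) × List (List ℕ)) × List ℕ) × List ℕ) =>
      nearT T 2 (words T t.1.2 y) (words T t.2 y)) :=
    Coded.comp hR (coded_near hR hT)
      (f := fun t : (((List Step × ℕ) × List (List ℕ)) × List ℕ) × List ℕ => ((2, t.1.2), t.2))
      (Primrec.pair (Primrec.pair (Primrec.const _) v1) v0)
  have k3 : Coded R (fun y (t : (((List Step × ℕ) × List (List ℕ)) × List ℕ) × List ℕ) =>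
      inL T t.1.1.2 y (words T t.2 y)) :=
    Coded.comp hR (coded_inL hR hT)
      (f := fun t : (((List Step × ℕ) × List (List ℕ)) × List ℕ) × List ℕ => (t.1.1.2, t.2))
      (Primrec.pair v2 v0)
  have k4 := Coded.all hR (k1.imp hR (k2.imp hR k3))
  have k5 : Coded R (fun (_ : X R) (t : ((List Step × ℕ) × List (List ℕ)) × List ℕ) =>
      t.2.length ≤ t.1.1.2) :=
    Coded.of_primrec hR (Primrec.nat_le.comp (Primrec.list_length.comp v0) v2)
  have k6 := Coded.allMem hR (k5.and hR k4) (f := fun t : (List Step × ℕ) × List (List ℕ) => t.2)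
    v0
  have k7 : Coded R (fun y (t : (List Step × ℕ) × List (List ℕ)) => inL T t.2 y (words T [] y)) :=
    Coded.comp hR (coded_inL hR hT)
      (f := fun t : (List Step × ℕ) × List (List ℕ) => (t.2, []))
      (Primrec.pair v0 (Primrec.const _))
  have k8 := Coded.ex hR (k7.and hR k6)
  have k9 : Coded R (fun y (t : List Step × ℕ) => colD T t.1 y) :=
    Coded.comp hR (coded_colD hR hT hsymm) Primrec.fst
  have k10 := RP.ex hR (Coded.forall_rp hR hc (k9.imp hR k8))
  convert k10 using 2 with h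
  unfold Bdd
  constructor
  · rintro ⟨d, hd⟩
    refine ⟨d, fun y hy => ?_⟩
    obtain ⟨Z, hZ1, hZ2, hZ3⟩ := hd y hy
    obtain ⟨L, hL1, hL2⟩ := exists_list hfin hZ2
    refine ⟨L, (hL2 _).1 hZ1, fun u hu => ⟨hL1 u hu, fun w hw hwn => ?_⟩⟩
    exact (hL2 _).1 (hZ3 _ ((hL2 _).2 ⟨u, hu, rfl⟩) _ hw hwn)
  · rintro ⟨d, hd⟩
    refine ⟨d, fun y hy => ?_⟩
    obtain ⟨L, hL1, hL2⟩ := hd y hy
    refine ⟨{z | inL T L y z}, hL1, ?_, ?_⟩
    · rintro z ⟨u, hu, rfl⟩
      exact ⟨u, (hL2 u hu).1, rfl⟩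
    · rintro z ⟨u, hu, rfl⟩ v hv huv
      obtain ⟨w, hw, rfl⟩ := id huv
      have h1 := (hL2 u hu).2 (u ++ w)
      simp only [words_append] at h1
      exact h1 hv huv

lemma rp_encl (hsymm : ∀ x i, ∃ j, T j (T i x) = x) :
    RP R (fun t : List Step × List Bool => EnclH T t.1 t.2) := by
  -- context: (h,q), L, u, w
  have k1 : Coded R (fun y (t : (((List Step × List Bool) × List (List ℕ)) × List ℕ) × List ℕ) =>
      nearT T 1 (words T t.1.2 y) (words T t.2 y)) :=
    Coded.comp hR (coded_near hR hT)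
      (f := fun t : (((List Step × List Bool) × List (List ℕ)) × List ℕ) × List ℕ =>
        ((1, t.1.2), t.2))
      (Primrec.pair (Primrec.pair (Primrec.const _) v1) v0)
  have k2 : Coded R (fun y (t : (((List Step × List Bool) × List (List ℕ)) × List ℕ) × List ℕ) =>
      inL T t.1.1.2 y (words T t.2 y)) :=
    Coded.comp hR (coded_inL hR hT)
      (f := fun t : (((List Step × List Bool) × List (List ℕ)) × List ℕ) × List ℕ =>
        (t.1.1.2, t.2))
      (Primrec.pair v2 v0)
  have k3 : Coded R (fun y (t : (((List Step × List Bool) × List (List ℕ)) × List ℕ) × List ℕ) =>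
      col0 T t.1.1.1.1 (words T t.1.2 y)) :=
    Coded.comp hR (Coded.subst hR (coded_col0 hR hT hsymm) (CodedMap.words hR hT))
      (f := fun t : (((List Step × List Bool) × List (List ℕ)) × List ℕ) × List ℕ =>
        (t.1.2, t.1.1.1.1))
      (Primrec.pair v1 r4)
  have k4 : Coded R (fun y (t : (((List Step × List Bool) × List (List ℕ)) × List ℕ) × List ℕ) =>
      col1 T t.1.1.1.1 (words T t.2 y)) :=
    Coded.comp hR (Coded.subst hR (coded_col1 hR hT hsymm) (CodedMap.words hR hT))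
      (f := fun t : (((List Step × List Bool) × List (List ℕ)) × List ℕ) × List ℕ =>
        (t.2, t.1.1.1.1))
      (Primrec.pair v0 r4)
  have k5 := Coded.all hR (k1.imp hR ((k2.not hR).imp hR (k3.and hR k4)))
  have k6 := Coded.allMem hR k5
    (f := fun t : (List Step × List Bool) × List (List ℕ) => t.2) v0
  have k7 : Coded R (fun y (t : (List Step × List Bool) × List (List ℕ)) =>
      inL T t.2 y (words T [] y)) :=
    Coded.comp hR (coded_inL hR hT)
      (f := fun t : (List Step × List Bool) × List (List ℕ) => (t.2, []))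
      (Primrec.pair v0 (Primrec.const _))
  have k8 := Coded.ex hR (k7.and hR k6)
  have k9 : Coded R (fun y (t : List Step × List Bool) => Init t.2 (words T [] y).1) :=
    Coded.comp hR (coded_init_words hR hT) (f := fun t : List Step × List Bool => ([], t.2))
      (Primrec.pair (Primrec.const _) v0)
  have k10 := Coded.forall_rp hR hc (k9.imp hR k8)
  exact k10

lemma rp_next (hsymm : ∀ x i, ∃ j, T j (T i x) = x)
    (hfin : ∀ x, {y | ∃ i, T i x = y}.Finite) : RP R (nextH T) := by
  have k1 : RP R (fun t : List Step × Step => enumStr t.1.length <+: t.2.1) := by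
    apply RP.of_primrec hR
    refine primrec_prefix.comp (Primrec.pair ?_ (Primrec.fst.comp v0))
    exact Primrec.option_getD.comp
      (Primrec.decode.comp (Primrec.list_length.comp Primrec.fst)) (Primrec.const _)
  have ha : Primrec (fun t : List Step × Step => t.1 ++ [t.2]) := by
    exact Primrec.list_append.comp Primrec.fst
      (Primrec.list_cons.comp Primrec.snd (Primrec.const _))
  have k2 : RP R (fun t : List Step × Step => GoodH T (t.1 ++ [t.2])) :=
    ((rp_disj hR hc hT hsymm).and hR (rp_bdd hR hc hT hsymm hfin)).comp hR ha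
  have k3 : RP R (fun t : List Step × Step => EnclH T (t.1 ++ [t.2]) t.2.1) :=
    (rp_encl hR hc hT hsymm).comp hR (f := fun t : List Step × Step => (t.1 ++ [t.2], t.2.1))
      (Primrec.pair ha (Primrec.fst.comp v0))
  exact k1.and hR (k2.and hR k3)

omit hR hT hc in
/-- a finite set is separated from a point by an initial segment -/
lemma exists_sep (x0 : X R) {S : Set (X R)} (hS : S.Finite) :
    ∃ q, Init q x0.1 ∧ ∀ y ∈ S, Init q y.1 → y = x0 := by
  have hS' : ((fun y : X R => y.1) '' (S \ {x0})).Finite := (hS.subset Set.sdiff_subset).image _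
  have ho : IsOpen (((fun y : X R => y.1) '' (S \ {x0}))ᶜ) := hS'.isClosed.isOpen_compl
  have hx : x0.1 ∈ ((fun y : X R => y.1) '' (S \ {x0}))ᶜ := by
    rintro ⟨y, hy, hyx⟩
    exact hy.2 (Subtype.ext hyx)
  obtain ⟨q, hq, hqU⟩ := exists_init_mem ho hx
  refine ⟨q, hq, fun y hy hqy => ?_⟩
  by_contra hne
  exact hqU y.1 hqy ⟨y, ⟨hy, hne⟩, rfl⟩

/-- `y` is within `n` steps of the points described by a list -/
def nearL (T : ℕ → X R → X R) (n : ℕ) (L : List (List ℕ)) (x y : X R) : Prop :=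
  ∃ u ∈ L, nearT T n (words T u x) y

omit hc in
lemma coded_nearL : Coded R (fun x (t : (ℕ × List (List ℕ)) × List ℕ) =>
    nearL T t.1.1 t.1.2 x (words T t.2 x)) := by
  have h1 : Coded R (fun x (t : ((ℕ × List (List ℕ)) × List ℕ) × List ℕ) =>
      nearT T t.1.1.1 (words T t.2 x) (words T t.1.2 x)) :=
    Coded.comp hR (coded_near hR hT)
      (f := fun t : ((ℕ × List (List ℕ)) × List ℕ) × List ℕ => ((t.1.1.1, t.2), t.1.2))
      (Primrec.pair (Primrec.pair r3 v0) v1)
  exact Coded.exMem hR h1 v1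

lemma exists_next (hsymm : ∀ x i, ∃ j, T j (T i x) = x)
    (hfin : ∀ x, {y | ∃ i, T i x = y}.Finite) (h : List Step) (hg : GoodH T h) :
    ∃ s, nextH T (h, s) := by
  obtain ⟨hdisj, d, hd⟩ := hg
  obtain ⟨x0, hx0⟩ := exists_gen hc (enumStr h.length)
  have hn : Nr (nearT T) := nr_nearT hsymm
  have hd0 := hd
  choose! Z hZy hZd hZc using hd
  set K0 : Set (X R) := {x0} ∪ {w | ∃ v, colD T h v ∧ nearT T 2 x0 v ∧ w ∈ Z v} with hK0
  have hK0b : ∀ z ∈ K0, nearT T (d + 2) x0 z := by
    rintro z (rfl | ⟨v, hv, hxv, hz⟩)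
    · exact hn.refl _ _
    · exact hn.mono _ _ _ _ (by omega) (hn.trans _ _ _ _ _ hxv (hZd v hv z hz))
  have hK0c : ∀ z ∈ K0, ∀ v, colD T h v → nearT T 2 z v → v ∈ K0 := by
    rintro z (rfl | ⟨u, hu, hxu, hz⟩) v hv hzv
    · exact Or.inr ⟨v, hv, hzv, hZy v hv⟩
    · exact Or.inr ⟨u, hu, hxu, hZc u hu z hz v hv hzv⟩
  obtain ⟨LK, hLK1, hLK2⟩ := exists_list hfin hK0b
  obtain ⟨I, _, hI⟩ := exists_list hfin (n := d + 3) (x := x0)
    (S := {y | y ∈ nbh (nearT T) 1 K0 ∧ y ∉ K0}) (by
      rintro y ⟨⟨z, hz, hzy⟩, _⟩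
      exact hn.mono _ _ _ _ (by omega) (hn.trans _ _ _ _ _ (hK0b z hz) hzy))
  obtain ⟨J, _, hJ⟩ := exists_list hfin (n := d + 4) (x := x0)
    (S := {y | (y ∈ nbh (nearT T) 2 K0 ∧ y ∉ nbh (nearT T) 1 K0) ∨ (y = x0 ∧ ¬ colD T h x0)})
    (by
      rintro y (⟨⟨z, hz, hzy⟩, _⟩ | ⟨rfl, _⟩)
      · exact hn.mono _ _ _ _ (by omega) (hn.trans _ _ _ _ _ (hK0b z hz) hzy)
      · exact hn.refl _ _)
  set ρ := 2 * (d + 2) + 2 * d + 30 with hρ
  obtain ⟨q', hq'1, hq'2⟩ := exists_sep x0 (ball_finite hfin ρ x0)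
  -- the coded pattern
  have hnbh : ∀ n x y, y ∈ nbh (nearT T) n {z | inL T LK x z} ↔ nearL T n LK x y := by
    intro n x y
    constructor
    · rintro ⟨z, ⟨u, hu, rfl⟩, hzy⟩
      exact ⟨u, hu, hzy⟩
    · rintro ⟨u, hu, hy⟩
      exact ⟨_, ⟨u, hu, rfl⟩, hy⟩
  have hK0L : K0 = {z | inL T LK x0 z} := Set.ext hLK2
  have c1 : Coded R (fun x (_ : Unit) => inL T LK x (words T [] x)) :=
    Coded.comp hR (coded_inL hR hT) (f := fun _ : Unit => (LK, [])) (Primrec.const _)
  have cD : Coded R (fun x (t : Unit × List ℕ) => colD T h (words T t.2 x)) :=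
    Coded.comp hR (Coded.subst hR (coded_colD hR hT hsymm) (CodedMap.words hR hT))
      (f := fun t : Unit × List ℕ => (t.2, h)) (Primrec.pair v0 (Primrec.const _))
  have cN : ∀ n, Coded R (fun x (t : Unit × List ℕ) => nearL T n LK x (words T t.2 x)) :=
    fun n => Coded.comp hR (coded_nearL hR hT)
      (f := fun t : Unit × List ℕ => ((n, LK), t.2)) (Primrec.pair (Primrec.const _) v0)
  have cL : ∀ L, Coded R (fun x (t : Unit × List ℕ) => inL T L x (words T t.2 x)) :=
    fun L => Coded.comp hR (coded_inL hR hT)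
      (f := fun t : Unit × List ℕ => (L, t.2)) (Primrec.pair (Primrec.const _) v0)
  have cE : Coded R (fun x (t : Unit × List ℕ) => words T t.2 x = words T [] x) :=
    Coded.comp hR (coded_eqW hR hT)
      (f := fun t : Unit × List ℕ => (t.2, [])) (Primrec.pair v0 (Primrec.const _))
  have cI : Coded R (fun x (t : Unit × List ℕ) => Init q' (words T t.2 x).1) :=
    Coded.comp hR (coded_init_words hR hT)
      (f := fun t : Unit × List ℕ => (t.2, q')) (Primrec.pair v0 (Primrec.const _))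
  have cR : Coded R (fun (_ : X R) (t : Unit × List ℕ) => t.2.length ≤ ρ) :=
    Coded.of_primrec hR (Primrec.nat_le.comp (Primrec.list_length.comp v0) (Primrec.const _))
  have e2 := Coded.all hR (cD.imp hR ((cN 2).imp hR (cL LK)))
  have e3 := Coded.all hR (((cN 1).and hR ((cL LK).not hR)).iff hR (cL I))
  have e4 := Coded.all hR ((((cN 2).and hR ((cN 1).not hR)).or hR
    (cE.and hR (cD.not hR))).iff hR (cL J))
  have e5 := Coded.all hR (cR.imp hR (cI.imp hR cE))
  have hall := c1.and hR (e2.and hR (e3.and hR (e4.and hR e5)))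
  obtain ⟨q1, hq1, hq1'⟩ := hall.isOpen_at (x := x0) (a := ()) (by
    refine ⟨(hLK2 x0).1 (Or.inl rfl), ?_, ?_, ?_, ?_⟩
    · intro w hw hwn
      rw [← hnbh, ← hK0L] at hwn
      obtain ⟨z, hz, hzw⟩ := hwn
      exact (hLK2 _).1 (hK0c z hz _ hw hzw)
    · intro w
      rw [← hI, ← hnbh, ← hK0L, ← hLK2]
      rfl
    · intro w
      rw [← hJ, ← hnbh, ← hnbh, ← hK0L]
      constructor
      · rintro (hw | ⟨hw1, hw2⟩)
        · exact Or.inl hw
        · have hw1 : words T w x0 = x0 := hw1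
          refine Or.inr ⟨hw1, ?_⟩
          rw [hw1] at hw2
          exact hw2
      · rintro (hw | ⟨hw1, hw2⟩)
        · exact Or.inl hw
        · refine Or.inr ⟨hw1, ?_⟩
          rw [hw1]
          exact hw2
    · intro w hw1 hw2
      exact hq'2 _ ⟨w, hw1, rfl⟩ hw2)
  obtain ⟨q2, hq2, h12, h02⟩ := exists_common hq1 hx0
  obtain ⟨q, hq, h2q, h'q⟩ := exists_common hq2 hq'1
  set A : Set (X R) := {x | Init q x.1} with hA
  have hpat : ∀ x ∈ A, inL T LK x x ∧ (∀ w : List ℕ, colD T h (words T w x) →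
      nearL T 2 LK x (words T w x) → inL T LK x (words T w x)) ∧
      (∀ w : List ℕ, (nearL T 1 LK x (words T w x) ∧ ¬ inL T LK x (words T w x)) ↔
        inL T I x (words T w x)) ∧
      (∀ w : List ℕ, ((nearL T 2 LK x (words T w x) ∧ ¬ nearL T 1 LK x (words T w x)) ∨
        (words T w x = x ∧ ¬ colD T h (words T w x))) ↔ inL T J x (words T w x)) ∧
      (∀ w : List ℕ, w.length ≤ ρ → Init q' (words T w x).1 → words T w x = x) :=
    fun x hx => hq1' x (hx.of_prefix (h12.trans h2q))
  have hyp : StepHyp (nearT T) (col0 T h) (col1 T h) A (fun x => {y | inL T LK x y}) (d + 2) ρ := by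
    refine ⟨hdisj, fun x hx => (hpat x hx).1, ?_, ?_, ?_⟩
    · rintro x hx z ⟨u, hu, rfl⟩
      exact ⟨u, hLK1 u hu, rfl⟩
    · rintro x hx z ⟨u, hu, rfl⟩ v hv huv
      obtain ⟨t, ht, rfl⟩ := id huv
      have h1 := (hpat x hx).2.1 (u ++ t)
      simp only [words_append] at h1
      exact h1 hv ⟨u, hu, huv⟩
    · rintro x hx x' hx' ⟨w, hw, rfl⟩
      exact ((hpat x hx).2.2.2.2 w hw (hx'.of_prefix h'q)).symm
  have hcl : ∀ n x y, nearL T n LK x y → ∃ w : List ℕ, words T w x = y := by
    rintro n x y ⟨u, _, t, _, rfl⟩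
    exact ⟨u ++ t, words_append u t x⟩
  have hcL : ∀ L x y, inL T L x y → ∃ w : List ℕ, words T w x = y := by
    rintro L x y ⟨u, _, rfl⟩
    exact ⟨u, rfl⟩
  have hS0 : ∀ x ∈ A, ∀ y, (y ∈ nbh (nearT T) 1 {y | inL T LK x y} ∧ ¬ inL T LK x y) ↔
      inL T I x y := by
    intro x hx y
    rw [hnbh]
    constructor
    · rintro ⟨hy1, hy2⟩
      obtain ⟨w, rfl⟩ := hcl _ _ _ hy1
      exact ((hpat x hx).2.2.1 w).1 ⟨hy1, hy2⟩
    · intro hy
      obtain ⟨w, rfl⟩ := hcL _ _ _ hy
      exact ((hpat x hx).2.2.1 w).2 hy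
  have hS1 : ∀ x ∈ A, ∀ y, ((y ∈ nbh (nearT T) 2 {y | inL T LK x y} ∧
      y ∉ nbh (nearT T) 1 {y | inL T LK x y}) ∨ (y = x ∧ ¬ (col0 T h x ∨ col1 T h x))) ↔
      inL T J x y := by
    intro x hx y
    rw [hnbh, hnbh]
    constructor
    · rintro (⟨hy1, hy2⟩ | ⟨rfl, hy2⟩)
      · obtain ⟨w, rfl⟩ := hcl _ _ _ hy1
        exact ((hpat x hx).2.2.2.1 w).1 (Or.inl ⟨hy1, hy2⟩)
      · exact ((hpat _ hx).2.2.2.1 []).1 (Or.inr ⟨rfl, hy2⟩)
    · intro hy
      obtain ⟨w, rfl⟩ := hcL _ _ _ hy
      rcases ((hpat x hx).2.2.2.1 w).2 hy with h1 | ⟨h1, h2⟩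
      · exact Or.inl h1
      · rw [h1] at h2 ⊢
        exact Or.inr ⟨rfl, h2⟩
  have hcol0 : ∀ y, col0 T (h ++ [(q, I, J)]) y ↔
      new0 (nearT T) (col0 T h) A (fun x => {y | inL T LK x y}) y := by
    intro y
    unfold new0
    constructor
    · rintro ⟨s, hs, x, hx, hy⟩
      rw [List.mem_append, List.mem_singleton] at hs
      rcases hs with hs | rfl
      · exact Or.inl ⟨s, hs, x, hx, hy⟩
      · exact Or.inr ⟨x, hx, (hS0 x hx y).2 hy⟩
    · rintro (⟨s, hs, x, hx, hy⟩ | ⟨x, hx, hy⟩)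
      · exact ⟨s, List.mem_append_left _ hs, x, hx, hy⟩
      · exact ⟨(q, I, J), by simp, x, hx, (hS0 x hx y).1 hy⟩
  have hcol1 : ∀ y, col1 T (h ++ [(q, I, J)]) y ↔
      new1 (nearT T) (col0 T h) (col1 T h) A (fun x => {y | inL T LK x y}) y := by
    intro y
    unfold new1
    constructor
    · rintro ⟨s, hs, x, hx, hy⟩
      rw [List.mem_append, List.mem_singleton] at hs
      rcases hs with hs | rfl
      · exact Or.inl ⟨s, hs, x, hx, hy⟩
      · exact Or.inr ⟨x, hx, (hS1 x hx y).2 hy⟩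
    · rintro (⟨s, hs, x, hx, hy⟩ | ⟨x, hx, hy⟩)
      · exact ⟨s, List.mem_append_left _ hs, x, hx, hy⟩
      · exact ⟨(q, I, J), by simp, x, hx, (hS1 x hx y).1 hy⟩
  refine ⟨(q, I, J), h02.trans h2q, ⟨?_, ?_⟩, ?_⟩
  · intro y
    rw [hcol0, hcol1]
    exact new_disj hn hyp (by omega) y
  · have hb := new_bdd hn hyp hd0 (by omega)
    have heq : colD T (h ++ [(q, I, J)]) = fun y =>
        new0 (nearT T) (col0 T h) A (fun x => {y | inL T LK x y}) y ∨
        new1 (nearT T) (col0 T h) (col1 T h) A (fun x => {y | inL T LK x y}) y := by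
      funext y
      unfold colD
      rw [hcol0, hcol1]
    rw [heq]
    exact hb
  · intro x hx
    have hP : ∀ z ∈ nbh (nearT T) 1 {y | inL T LK x y}, nearT T (d + 3) x z := by
      rintro z ⟨w, ⟨u, hu, rfl⟩, hwz⟩
      exact hn.mono _ _ _ _ (by omega)
        (hn.trans _ _ _ _ _ (⟨u, hLK1 u hu, rfl⟩ : nearT T (d + 2) x _) hwz)
    obtain ⟨L, _, hL⟩ := exists_list hfin hP
    obtain ⟨he1, he2⟩ := new_encl hn hyp x hx
    refine ⟨L, (hL x).1 he1, ?_⟩
    intro u hu w hw1 hw2
    rw [hcol0, hcol1]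
    exact he2 _ ((hL _).2 ⟨u, hu, rfl⟩) _ (fun hw => hw2 ((hL _).1 hw)) hw1

/-- Lemma 1 -/
theorem exists_coded_wall (hrefl : ∀ x, ∃ i, T i x = x) (hsymm : ∀ x i, ∃ j, T j (T i x) = x)
    (hfin : ∀ x, {y | ∃ i, T i x = y}.Finite) :
    ∃ U : X R → Prop, Coded R (fun x (_ : Unit) => U x) ∧
      ∀ x, ∃ P : Set (X R), P.Finite ∧ x ∈ P ∧
        ∀ y ∈ P, ∀ z, z ∉ P → (∃ i, T i y = z) → U y ∧ ¬ U z := by
  obtain ⟨s, hs1, hs2⟩ := exists_seq hR (rp_next hR hc hT hsymm hfin) (Good := GoodH T)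
    ⟨fun y => by rintro ⟨⟨s, hs, _⟩, _⟩; simp at hs,
      0, fun y => by rintro (⟨s, hs, _⟩ | ⟨s, hs, _⟩) <;> simp at hs⟩
    (exists_next hR hc hT hsymm hfin) (fun h s _ hV => hV.2.1)
  set H : ℕ → List Step := fun n => (List.range n).map s with hH
  have hHs : ∀ n, H n ++ [s n] = H (n + 1) := by
    intro n
    simp [hH, List.range_succ]
  have hmono0 : ∀ n m y, n ≤ m → col0 T (H n) y → col0 T (H m) y := by
    intro n m y hnm
    induction hnm with
    | refl => exact fun h => h
    | step _ ih =>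
      intro h
      obtain ⟨t, ht, h'⟩ := ih h
      rw [← hHs]
      exact ⟨t, List.mem_append_left _ ht, h'⟩
  have hmono1 : ∀ n m y, n ≤ m → col1 T (H n) y → col1 T (H m) y := by
    intro n m y hnm
    induction hnm with
    | refl => exact fun h => h
    | step _ ih =>
      intro h
      obtain ⟨t, ht, h'⟩ := ih h
      rw [← hHs]
      exact ⟨t, List.mem_append_left _ ht, h'⟩
  refine ⟨fun y => ∃ n, col0 T (H n) y, ?_, ?_⟩
  · have h1 : Coded R (fun y (t : (Unit × ℕ) × List Step) => col0 T t.2 y) :=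
      Coded.comp hR (coded_col0 hR hT hsymm) v0
    have h2 : Coded R (fun (_ : X R) (t : (Unit × ℕ) × List Step) => H t.1.2 = t.2) :=
      Coded.of_rp hR (hs1.comp hR (f := fun t : (Unit × ℕ) × List Step => (t.1.2, t.2))
        (Primrec.pair v1 v0))
    have h3 := Coded.ex hR (Coded.ex hR (h2.and hR h1))
    convert h3 using 3 with y t
    simp
  · intro x
    -- the union of the cylinders is dense and coded
    obtain ⟨p, hp, n, hnp⟩ := x.2 (fun p => ∃ n, (s n).1 <+: p) (by
      have h1 : RP R (fun t : (List Bool × ℕ) × List Step =>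
          (List.range (t.1.2 + 1)).map s = t.2) :=
        hs1.comp hR (f := fun t : (List Bool × ℕ) × List Step => (t.1.2 + 1, t.2))
          (Primrec.pair (Primrec.succ.comp v1) v0)
      have h2 : RP R (fun t : ((List Bool × ℕ) × List Step) × Step =>
          t.1.2[t.1.1.2]? = some t.2 ∧ t.2.1 <+: t.1.1.1) := by
        apply RP.and hR
        · exact RP.of_primrec hR (Primrec.eq.comp (Primrec.list_getElem?.comp v1 v2)
            (Primrec.option_some.comp v0))
        · exact RP.of_primrec hR (primrec_prefix.comp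
            (Primrec.pair (Primrec.fst.comp v0) r3))
      have h3 := RP.ex hR (RP.ex hR (h1.and hR (RP.ex hR h2)))
      convert h3 using 2 with p
      simp only
      constructor
      · rintro ⟨n, hn⟩
        exact ⟨n, (List.range (n + 1)).map s, rfl, s n, by simp, hn⟩
      · rintro ⟨n, L, hL, t, ht, htp⟩
        rw [← hL] at ht
        simp only [List.getElem?_map] at ht
        rw [List.getElem?_range (by omega)] at ht
        simp only [Option.map_some, Option.some.injEq] at ht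
        exact ⟨n, by rw [ht]; exact htp⟩) (by
      intro p
      have h1 := (hs2 (encode p)).2.1
      simp only [List.length_map, List.length_range, enumStr_encode] at h1
      exact ⟨(s (encode p)).1, h1, _, List.prefix_refl _⟩)
    have hx : Init (s n).1 x.1 := hp.of_prefix hnp
    obtain ⟨L, hL1, hL2⟩ := (hs2 n).2.2.2 x hx
    rw [hHs] at hL2
    refine ⟨{y | inL T L x y}, ?_, hL1, ?_⟩
    · have : {y | inL T L x y} = (fun u => words T u x) '' {u | u ∈ L} := by
        ext y
        constructor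
        · rintro ⟨u, hu, rfl⟩
          exact ⟨u, hu, rfl⟩
        · rintro ⟨u, hu, rfl⟩
          exact ⟨u, hu, rfl⟩
      rw [this]
      exact (List.finite_toSet L).image _
    · rintro y ⟨u, hu, rfl⟩ z hz ⟨i, rfl⟩
      have h1 := hL2 u hu (u ++ [i])
      simp only [words_append] at h1
      obtain ⟨h2, h3⟩ := h1 ((near_one hrefl).2 ⟨i, rfl⟩) hz
      refine ⟨⟨n + 1, h2⟩, ?_⟩
      rintro ⟨m, hm⟩
      have hG := (hs2 (max (n + 1) m)).1
      exact hG.1 _ ⟨hmono0 _ _ _ (le_max_right _ _) hm, hmono1 _ _ _ (le_max_left _ _) h3⟩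

end CodedGraph

end Pool.Agent.Lib.MP_f12a7c_lc
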