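import Mathlib

/-!
# The combinatorial step of Lemma 1
-/

namespace Pool.Agent.Lib.MP_f12a7c_lc

/-- The relations `within n steps` of a reflexive symmetric graph. -/
structure Nr {X : Type*} (near : ℕ → X → X → Prop) : Prop where
  refl : ∀ n x, near n x x
  mono : ∀ m n x y, m ≤ n → near m x y → near n x y
  symm : ∀ n x y, near n x y → near n y x
  trans : ∀ m n x y z, near m x y → near n y z → near (m + n) x z

/-- every point of `D` is contained in a bounded set which is closed in `D` -/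
def Bdd {X : Type*} (near : ℕ → X → X → Prop) (D : X → Prop) : Prop :=
  ∃ d, ∀ y, D y → ∃ Z : Set X, y ∈ Z ∧ (∀ z ∈ Z, near d y z) ∧
    ∀ z ∈ Z, ∀ v, D v → near 2 z v → v ∈ Z

section

variable {X : Type*} {near : ℕ → X → X → Prop} (hn : Nr near)

/-- neighbourhoods of sets -/
def nbh (near : ℕ → X → X → Prop) (n : ℕ) (K : Set X) : Set X := {y | ∃ z ∈ K, near n z y}

include hn

lemma subset_nbh (n : ℕ) (K : Set X) : K ⊆ nbh near n K := fun x hx => ⟨x, hx, hn.refl n x⟩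

lemma nbh_mono {m n : ℕ} (h : m ≤ n) (K : Set X) : nbh near m K ⊆ nbh near n K :=
  fun _ ⟨z, hz, hzy⟩ => ⟨z, hz, hn.mono _ _ _ _ h hzy⟩

variable {c0 c1 : X → Prop} {A : Set X} {K : X → Set X} {m ρ d : ℕ}

/-- new points of colour 0 -/
def new0 (near : ℕ → X → X → Prop) (c0 : X → Prop) (A : Set X) (K : X → Set X) (y : X) : Prop :=
  c0 y ∨ ∃ x ∈ A, y ∈ nbh near 1 (K x) ∧ y ∉ K x

/-- new points of colour 1 -/
def new1 (near : ℕ → X → X → Prop) (c0 c1 : X → Prop) (A : Set X) (K : X → Set X) (y : X) :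
    Prop :=
  c1 y ∨ ∃ x ∈ A, (y ∈ nbh near 2 (K x) ∧ y ∉ nbh near 1 (K x)) ∨ (y = x ∧ ¬ (c0 x ∨ c1 x))

/-- the hypotheses of the step -/
structure StepHyp (near : ℕ → X → X → Prop) (c0 c1 : X → Prop) (A : Set X) (K : X → Set X)
    (m ρ : ℕ) : Prop where
  disj : ∀ y, ¬ (c0 y ∧ c1 y)
  mem : ∀ x ∈ A, x ∈ K x
  bd : ∀ x ∈ A, ∀ z ∈ K x, near m x z
  closed : ∀ x ∈ A, ∀ z ∈ K x, ∀ v, (c0 v ∨ c1 v) → near 2 z v → v ∈ K x
  sparse : ∀ x ∈ A, ∀ x' ∈ A, near ρ x x' → x = x'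

lemma new_disj (h : StepHyp near c0 c1 A K m ρ) (hρ : 2 * m + 10 ≤ ρ) (y : X) :
    ¬ (new0 near c0 A K y ∧ new1 near c0 c1 A K y) := by
  rintro ⟨h0 | ⟨x, hx, hx1, hx2⟩, h1 | ⟨x', hx', h1⟩⟩
  · exact h.disj y ⟨h0, h1⟩
  · rcases h1 with ⟨⟨z, hz, hzy⟩, h1b⟩ | ⟨rfl, hD⟩
    · exact h1b (subset_nbh hn 1 _ (h.closed x' hx' z hz y (Or.inl h0) hzy))
    · exact hD (Or.inl h0)
  · obtain ⟨z, hz, hzy⟩ := hx1
    exact hx2 (h.closed x hx z hz y (Or.inr h1) (hn.mono _ _ _ _ (by norm_num) hzy))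
  · obtain ⟨z, hz, hzy⟩ := id hx1
    have hxy : near (m + 1) x y := hn.trans _ _ _ _ _ (h.bd x hx z hz) hzy
    have hx'y : near (m + 2) x' y := by
      rcases h1 with ⟨⟨z', hz', hzy'⟩, _⟩ | ⟨rfl, _⟩
      · exact hn.trans _ _ _ _ _ (h.bd x' hx' z' hz') hzy'
      · exact hn.refl _ _
    have hxx : x = x' := h.sparse x hx x' hx'
      (hn.mono _ _ _ _ (by omega) (hn.trans _ _ _ _ _ hxy (hn.symm _ _ _ hx'y)))
    subst hxx
    rcases h1 with ⟨_, h1b⟩ | ⟨rfl, _⟩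
    · exact h1b hx1
    · exact hx2 (h.mem _ hx)

lemma new_encl (h : StepHyp near c0 c1 A K m ρ) (x : X) (hx : x ∈ A) :
    x ∈ nbh near 1 (K x) ∧ ∀ y ∈ nbh near 1 (K x), ∀ z, z ∉ nbh near 1 (K x) → near 1 y z →
      new0 near c0 A K y ∧ new1 near c0 c1 A K z := by
  refine ⟨subset_nbh hn 1 _ (h.mem x hx), ?_⟩
  intro y hy z hz hyz
  have hyK : y ∉ K x := fun hyK => hz ⟨y, hyK, hyz⟩
  obtain ⟨w, hw, hwy⟩ := id hy
  have hz2 : z ∈ nbh near 2 (K x) := ⟨w, hw, hn.trans 1 1 _ _ _ hwy hyz⟩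
  exact ⟨Or.inr ⟨x, hx, hy, hyK⟩, Or.inr ⟨x, hx, Or.inl ⟨hz2, hz⟩⟩⟩

lemma new_D (h : StepHyp near c0 c1 A K m ρ) {y : X}
    (hy : new0 near c0 A K y ∨ new1 near c0 c1 A K y) :
    (c0 y ∨ c1 y) ∨ ∃ x ∈ A, y ∈ nbh near 2 (K x) := by
  rcases hy with (hy | ⟨x, hx, hy, _⟩) | (hy | ⟨x, hx, ⟨hy, _⟩ | ⟨rfl, _⟩⟩)
  · exact Or.inl (Or.inl hy)
  · exact Or.inr ⟨x, hx, nbh_mono hn (by norm_num) _ hy⟩
  · exact Or.inl (Or.inr hy)
  · exact Or.inr ⟨x, hx, hy⟩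
  · exact Or.inr ⟨_, hx, subset_nbh hn 2 _ (h.mem _ hx)⟩

lemma new_bdd (h : StepHyp near c0 c1 A K m ρ)
    (hd : ∀ y, (c0 y ∨ c1 y) → ∃ Z : Set X, y ∈ Z ∧ (∀ z ∈ Z, near d y z) ∧
      ∀ z ∈ Z, ∀ v, (c0 v ∨ c1 v) → near 2 z v → v ∈ Z) (hρ : 2 * m + 2 * d + 20 ≤ ρ) :
    Bdd near (fun y => new0 near c0 A K y ∨ new1 near c0 c1 A K y) := by
  choose! Z hZy hZd hZc using hd
  set D : X → Prop := fun y => c0 y ∨ c1 y with hD
  -- the new closed sets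
  set W : X → Set X := fun x => nbh near 2 (K x) ∪
    {w | ∃ v, D v ∧ v ∈ nbh near 2 (nbh near 2 (K x)) ∧ w ∈ Z v} with hW
  have hWd : ∀ x ∈ A, ∀ w ∈ W x, near (m + d + 4) x w := by
    rintro x hx w (⟨z, hz, hzw⟩ | ⟨v, hv, ⟨z, ⟨u, hu, huz⟩, hzv⟩, hw⟩)
    · exact hn.mono _ _ _ _ (by omega) (hn.trans _ _ _ _ _ (h.bd x hx z hz) hzw)
    · have h1 := hn.trans _ _ _ _ _ (h.bd x hx u hu) huz
      have h2 := hn.trans _ _ _ _ _ h1 hzv
      have h3 := hn.trans _ _ _ _ _ h2 (hZd v hv w hw)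
      exact hn.mono _ _ _ _ (by omega) h3
  have hNd : ∀ x ∈ A, ∀ w ∈ nbh near 2 (K x), near (m + 2) x w := by
    rintro x hx w ⟨z, hz, hzw⟩
    exact hn.trans _ _ _ _ _ (h.bd x hx z hz) hzw
  have hWc : ∀ x ∈ A, ∀ z ∈ W x, ∀ v,
      (new0 near c0 A K v ∨ new1 near c0 c1 A K v) → near 2 z v → v ∈ W x := by
    intro x hx z hz v hv hzv
    rcases new_D hn h hv with hv | ⟨x', hx', hv⟩
    · rcases hz with hz | ⟨u, hu, hu2, hzu⟩
      · exact Or.inr ⟨v, hv, ⟨z, hz, hzv⟩, hZy v hv⟩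
      · exact Or.inr ⟨u, hu, hu2, hZc u hu z hzu v hv hzv⟩
    · have h1 := hn.trans _ _ _ _ _ (hWd x hx z hz) hzv
      have h2 := hn.trans _ _ _ _ _ h1 (hn.symm _ _ _ (hNd x' hx' v hv))
      have hxx : x = x' := h.sparse x hx x' hx' (hn.mono _ _ _ _ (by omega) h2)
      subst hxx
      exact Or.inl hv
  refine ⟨2 * m + 2 * d + 20, ?_⟩
  intro y hy
  rcases new_D hn h hy with hy | ⟨x, hx, hy⟩
  · by_cases hex : ∃ x ∈ A, ∃ z ∈ Z y, ∃ v ∈ nbh near 2 (K x), near 2 z v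
    · obtain ⟨x, hx, z, hz, v, hv, hzv⟩ := hex
      have hyx : near (d + 2 + (m + 2)) y x :=
        hn.trans _ _ _ _ _ (hn.trans _ _ _ _ _ (hZd y hy z hz) hzv)
          (hn.symm _ _ _ (hNd x hx v hv))
      refine ⟨Z y ∪ W x, Or.inl (hZy y hy), ?_, ?_⟩
      · rintro w (hw | hw)
        · exact hn.mono _ _ _ _ (by omega) (hZd y hy w hw)
        · exact hn.mono _ _ _ _ (by omega) (hn.trans _ _ _ _ _ hyx (hWd x hx w hw))
      · rintro w (hw | hw) u hu hwu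
        · rcases new_D hn h hu with hu' | ⟨x', hx', hu'⟩
          · exact Or.inl (hZc y hy w hw u hu' hwu)
          · have h1 := hn.trans _ _ _ _ _ (hn.symm _ _ _ hyx) (hZd y hy w hw)
            have h2 := hn.trans _ _ _ _ _ (hn.trans _ _ _ _ _ h1 hwu)
              (hn.symm _ _ _ (hNd x' hx' u hu'))
            have hxx : x = x' := h.sparse x hx x' hx' (hn.mono _ _ _ _ (by omega) h2)
            subst hxx
            exact Or.inr (Or.inl hu')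
        · exact Or.inr (hWc x hx w hw u hu hwu)
    · push Not at hex
      refine ⟨Z y, hZy y hy, fun w hw => hn.mono _ _ _ _ (by omega) (hZd y hy w hw), ?_⟩
      intro z hz v hv hzv
      rcases new_D hn h hv with hv' | ⟨x', hx', hv'⟩
      · exact hZc y hy z hz v hv' hzv
      · exact absurd hzv (hex x' hx' z hz v hv')
  · refine ⟨W x, Or.inl hy, ?_, hWc x hx⟩
    intro w hw
    have h1 := hn.trans _ _ _ _ _ (hn.symm _ _ _ (hNd x hx y hy)) (hWd x hx w hw)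
    exact hn.mono _ _ _ _ (by omega) h1

end

end Pool.Agent.Lib.MP_f12a7c_lc
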