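import Pool.Agent.Lib.MP_f12a7c_lc.Arith

/-!
# Generic reals and coded relations
-/

namespace Pool.Agent.Lib.MP_f12a7c_lc

open Encodable

/-- The first `n` values of `x`. -/
def pre (x : ℕ → Bool) (n : ℕ) : List Bool := (List.range n).map x

/-- `p` is an initial segment of `x`. -/
def Init (p : List Bool) (x : ℕ → Bool) : Prop := pre x p.length = p

@[simp] lemma pre_length (x : ℕ → Bool) (n : ℕ) : (pre x n).length = n := by simp [pre]

lemma init_pre (x : ℕ → Bool) (n : ℕ) : Init (pre x n) x := by simp [Init]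

lemma init_nil (x : ℕ → Bool) : Init [] x := by simp [Init, pre]

lemma init_iff {p : List Bool} {x : ℕ → Bool} : Init p x ↔ ∀ i (h : i < p.length), p[i] = x i := by
  unfold Init pre
  constructor
  · intro h i hi
    have : p[i]? = ((List.range p.length).map x)[i]? := by rw [h]
    simp only [List.getElem?_eq_getElem hi, List.getElem?_map] at this
    rw [List.getElem?_range hi] at this
    simpa using this
  · intro h
    apply List.ext_getElem (by simp)
    intro i h1 h2
    simp [h i h2]

lemma init_iff' {p : List Bool} {x : ℕ → Bool} :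
    Init p x ↔ ∀ i, i < p.length → (x i = true ↔ p[i]? = some true) := by
  rw [init_iff]
  constructor
  · intro h i hi
    rw [List.getElem?_eq_getElem hi, ← h i hi]
    simp
  · intro h i hi
    have := h i hi
    rw [List.getElem?_eq_getElem hi] at this
    simp only [Option.some.injEq] at this
    cases hx : x i <;> cases hp : p[i] <;> simp_all

lemma Init.prefix_of_le {p q : List Bool} {x : ℕ → Bool} (hp : Init p x) (hq : Init q x)
    (h : p.length ≤ q.length) : p <+: q := by
  rw [List.prefix_iff_eq_take]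
  rw [init_iff] at hp hq
  apply List.ext_getElem (by simp [h])
  intro i h1 h2
  rw [List.getElem_take, hp i h1, hq i (by omega)]

lemma Init.comparable {p q : List Bool} {x : ℕ → Bool} (hp : Init p x) (hq : Init q x) :
    p <+: q ∨ q <+: p := by
  rcases le_total p.length q.length with h | h
  · exact Or.inl (hp.prefix_of_le hq h)
  · exact Or.inr (hq.prefix_of_le hp h)

lemma Init.of_prefix {p q : List Bool} {x : ℕ → Bool} (hq : Init q x) (h : p <+: q) :
    Init p x := by
  rw [init_iff] at hq ⊢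
  intro i hi
  have h1 : p.length ≤ q.length := h.length_le
  rw [List.prefix_iff_getElem?] at h
  have h2 := h i hi
  rw [List.getElem?_eq_getElem (by omega)] at h2
  rw [← hq i (by omega)]
  simpa using h2.symm

lemma eq_of_init {x y : ℕ → Bool} (h : ∀ p, Init p x → Init p y) : x = y := by
  funext i
  have h1 := h _ (init_pre x (i + 1))
  rw [init_iff] at h1
  have h2 := h1 i (by simp)
  rw [← h2]
  simp [pre]

/-- the common extension of two initial segments -/
lemma exists_common {p q : List Bool} {x : ℕ → Bool} (hp : Init p x) (hq : Init q x) :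
    ∃ r, Init r x ∧ p <+: r ∧ q <+: r := by
  rcases hp.comparable hq with h | h
  · exact ⟨q, hq, h, List.prefix_refl _⟩
  · exact ⟨p, hp, List.prefix_refl _, h⟩

/-- Cohen generic over the family `R`. -/
def Gen (R : Set (Set ℕ)) (x : ℕ → Bool) : Prop :=
  ∀ D : List Bool → Prop, RP R D → (∀ p, ∃ q, p <+: q ∧ D q) → ∃ p, Init p x ∧ D p

/-- The space of generic reals. -/
abbrev X (R : Set (Set ℕ)) : Type := {x : ℕ → Bool // Gen R x}

lemma isOpen_init (p : List Bool) : IsOpen {x : ℕ → Bool | Init p x} := by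
  have : {x : ℕ → Bool | Init p x} =
      ⋂ i ∈ Finset.range p.length, {x : ℕ → Bool | ∀ h : i < p.length, p[i] = x i} := by
    ext x
    simp only [Set.mem_ofPred_eq, Set.mem_iInter, Finset.mem_range]
    rw [init_iff]
    exact ⟨fun h i _ hi => h i hi, fun h i hi => h i hi hi⟩
  rw [this]
  apply isOpen_biInter_finset
  intro i hi
  rw [Finset.mem_range] at hi
  have h2 : {x : ℕ → Bool | ∀ h : i < p.length, p[i] = x i} =
      (fun x : ℕ → Bool => x i) ⁻¹' {p[i]} := by
    ext x
    simp only [Set.mem_ofPred_eq, Set.mem_preimage, Set.mem_singleton_iff]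
    exact ⟨fun h => (h hi).symm, fun h _ => h.symm⟩
  rw [h2]
  exact (isOpen_discrete _).preimage (continuous_apply i)

lemma exists_init_mem {U : Set (ℕ → Bool)} (hU : IsOpen U) {x : ℕ → Bool} (hx : x ∈ U) :
    ∃ p, Init p x ∧ ∀ y, Init p y → y ∈ U := by
  rw [isOpen_pi_iff] at hU
  obtain ⟨I, u, h1, h2⟩ := hU x hx
  obtain ⟨n, hn⟩ := I.bddAbove
  refine ⟨pre x (n + 1), init_pre _ _, fun y hy => h2 ?_⟩
  intro i hi
  have hin : i ≤ n := hn hi
  rw [init_iff] at hy
  have := hy i (by simp; omega)
  rw [← this]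
  simpa [pre] using (h1 i hi).2

lemma exists_init (p : List Bool) : ∃ x : ℕ → Bool, Init p x := by
  refine ⟨fun i => p.getD i false, ?_⟩
  rw [init_iff]
  intro i hi
  simp [hi]

lemma exists_gen {R : Set (Set ℕ)} (hc : R.Countable) (p : List Bool) :
    ∃ x : X R, Init p x.1 := by
  let S : Set (List Bool → Prop) := {D | RP R D ∧ ∀ p, ∃ q, p <+: q ∧ D q}
  have hinj : Set.InjOn (fun D : List Bool → Prop =>
      {n : ℕ | ∃ a, decode n = some a ∧ D a}) S := by
    intro D _ D' _ h
    funext a
    apply propext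
    have h1 : encode a ∈ {n : ℕ | ∃ a, decode n = some a ∧ D a} ↔
        encode a ∈ {n : ℕ | ∃ a, decode n = some a ∧ D' a} := by
      simp only at h
      rw [h]
    simpa using h1
  have hS : S.Countable := by
    apply Set.MapsTo.countable_of_injOn (t := R) _ hinj hc
    intro D hD
    exact hD.1
  have hdense : Dense (⋂ D ∈ S, {x : ℕ → Bool | ∃ p, Init p x ∧ D p}) := by
    apply dense_biInter_of_isOpen
    · intro D _
      have : {x : ℕ → Bool | ∃ p, Init p x ∧ D p} = ⋃ p ∈ {p | D p}, {x | Init p x} := by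
        ext x
        simp only [Set.mem_ofPred_eq, Set.mem_iUnion, exists_prop]
        exact ⟨fun ⟨p, h1, h2⟩ => ⟨p, h2, h1⟩, fun ⟨p, h1, h2⟩ => ⟨p, h2, h1⟩⟩
      rw [this]
      exact isOpen_biUnion fun p _ => isOpen_init p
    · exact hS
    · intro D hD
      rw [dense_iff_inter_open]
      intro U hU ⟨x, hx⟩
      obtain ⟨p, hp, hpU⟩ := exists_init_mem hU hx
      obtain ⟨q, hpq, hq⟩ := hD.2 p
      obtain ⟨y, hy⟩ := exists_init q
      exact ⟨y, hpU y (hy.of_prefix hpq), q, hy, hq⟩
  rw [dense_iff_inter_open] at hdense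
  obtain ⟨x, hx1, hx2⟩ := hdense _ (isOpen_init p) (exists_init p)
  refine ⟨⟨x, ?_⟩, hx1⟩
  intro D hD hD2
  simp only [Set.mem_iInter] at hx2
  exact hx2 D ⟨hD, hD2⟩

/-- Coded relations. -/
def Coded (R : Set (Set ℕ)) {α : Type} [Primcodable α] (P : X R → α → Prop) : Prop :=
  ∃ C : List Bool × α → Prop, RP R C ∧ (∀ p q a, p <+: q → C (p, a) → C (q, a)) ∧
    ∀ x a, P x a ↔ ∃ p, Init p x.1 ∧ C (p, a)

/-- Coded families of maps. -/
def CodedMap (R : Set (Set ℕ)) {α : Type} [Primcodable α] (T : α → X R → X R) : Prop :=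
  Coded R (fun x (a : α × ℕ) => (T a.1 x).1 a.2 = true)

lemma Coded.isOpen_at {R : Set (Set ℕ)} {α : Type} [Primcodable α] {P : X R → α → Prop}
    (hP : Coded R P) {x : X R} {a : α} (h : P x a) :
    ∃ p, Init p x.1 ∧ ∀ y : X R, Init p y.1 → P y a := by
  obtain ⟨C, _, _, h3⟩ := hP
  obtain ⟨p, hp, hC⟩ := (h3 x a).1 h
  exact ⟨p, hp, fun y hy => (h3 y a).2 ⟨p, hy, hC⟩⟩

lemma primrec_prefix : PrimrecPred (fun pq : List Bool × List Bool => pq.1 <+: pq.2) := by
  have h : PrimrecPred (fun pq : List Bool × List Bool =>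
      pq.1 = pq.2.take pq.1.length) :=
    Primrec.eq.comp Primrec.fst
      (Primrec.list_take.comp (Primrec.list_length.comp Primrec.fst) Primrec.snd)
  exact h.of_eq fun pq => by rw [List.prefix_iff_eq_take]

section

variable {R : Set (Set ℕ)} (hR : ArithClosed R) {α β γ : Type} [Primcodable α] [Primcodable β]
  [Primcodable γ]

include hR

namespace Coded

/-- a code need not be monotone -/
lemma mk' {P : X R → α → Prop} (C : List Bool × α → Prop) (hC : RP R C)
    (h : ∀ x a, P x a ↔ ∃ p, Init p x.1 ∧ C (p, a)) : Coded R P := by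
  refine ⟨fun qa => ∃ p, p <+: qa.1 ∧ C (p, qa.2), ?_, ?_, ?_⟩
  · have h1 : RP R (fun t : (List Bool × α) × List Bool => t.2 <+: t.1.1) :=
      RP.of_primrec hR (primrec_prefix.comp
        (Primrec.pair Primrec.snd (Primrec.fst.comp Primrec.fst)))
    have h2 : RP R (fun t : (List Bool × α) × List Bool => C (t.2, t.1.2)) :=
      hC.comp hR (Primrec.pair Primrec.snd (Primrec.snd.comp Primrec.fst))
    exact RP.ex hR (h1.and hR h2)
  · rintro p q a hpq ⟨r, hr, hC'⟩
    exact ⟨r, hr.trans hpq, hC'⟩
  · intro x a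
    rw [h]
    constructor
    · rintro ⟨p, hp, hC'⟩
      exact ⟨p, hp, p, List.prefix_refl _, hC'⟩
    · rintro ⟨p, hp, q, hq, hC'⟩
      exact ⟨q, hp.of_prefix hq, hC'⟩

lemma not {P : X R → α → Prop} (hP : Coded R P) : Coded R (fun x a => ¬ P x a) := by
  obtain ⟨C, h1, h2, h3⟩ := hP
  have hC' : RP R (fun qa : List Bool × α => ∀ r, qa.1 <+: r → ¬ C (r, qa.2)) := by
    have k1 : RP R (fun t : (List Bool × α) × List Bool => t.1.1 <+: t.2) :=
      RP.of_primrec hR (primrec_prefix.comp
        (Primrec.pair (Primrec.fst.comp Primrec.fst) Primrec.snd))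
    have k2 : RP R (fun t : (List Bool × α) × List Bool => C (t.2, t.1.2)) :=
      h1.comp hR (Primrec.pair Primrec.snd (Primrec.snd.comp Primrec.fst))
    exact RP.all hR (k1.imp hR (k2.not hR))
  refine ⟨fun qa => ∀ r, qa.1 <+: r → ¬ C (r, qa.2), hC', ?_, ?_⟩
  · intro p q a hpq h r hr
    exact h r (hpq.trans hr)
  · intro x a
    constructor
    · intro hn
      have hd := x.2 (fun p => C (p, a) ∨ ∀ r, p <+: r → ¬ C (r, a))
        (RP.or hR (h1.comp hR (Primrec.pair Primrec.id (Primrec.const a)))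
          (hC'.comp hR (f := fun p => (p, a)) (Primrec.pair Primrec.id (Primrec.const a)))) (by
          intro p
          by_cases hp : ∃ r, p <+: r ∧ C (r, a)
          · obtain ⟨r, hr, hC⟩ := hp
            exact ⟨r, hr, Or.inl hC⟩
          · push Not at hp
            exact ⟨p, List.prefix_refl _, Or.inr hp⟩)
      obtain ⟨p, hp, hC | hC⟩ := hd
      · exact absurd ((h3 x a).2 ⟨p, hp, hC⟩) hn
      · exact ⟨p, hp, hC⟩
    · rintro ⟨p, hp, hC⟩ hPx
      obtain ⟨q, hq, hCq⟩ := (h3 x a).1 hPx
      obtain ⟨r, hr, hpr, hqr⟩ := exists_common hp hq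
      exact hC r hpr (h2 q r a hqr hCq)

lemma and {P Q : X R → α → Prop} (hP : Coded R P) (hQ : Coded R Q) :
    Coded R (fun x a => P x a ∧ Q x a) := by
  obtain ⟨C, h1, h2, h3⟩ := hP
  obtain ⟨D, k1, k2, k3⟩ := hQ
  refine ⟨fun qa => C qa ∧ D qa, h1.and hR k1, ?_, ?_⟩
  · rintro p q a hpq ⟨hC, hD⟩
    exact ⟨h2 p q a hpq hC, k2 p q a hpq hD⟩
  · intro x a
    simp only [h3, k3]
    constructor
    · rintro ⟨⟨p, hp, hC⟩, q, hq, hD⟩
      obtain ⟨r, hr, hpr, hqr⟩ := exists_common hp hq
      exact ⟨r, hr, h2 p r a hpr hC, k2 q r a hqr hD⟩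
    · rintro ⟨p, hp, hC, hD⟩
      exact ⟨⟨p, hp, hC⟩, p, hp, hD⟩

lemma or {P Q : X R → α → Prop} (hP : Coded R P) (hQ : Coded R Q) :
    Coded R (fun x a => P x a ∨ Q x a) := by
  have h := (Coded.and hR (hP.not hR) (hQ.not hR)).not hR
  convert h using 3 with x a
  tauto

lemma imp {P Q : X R → α → Prop} (hP : Coded R P) (hQ : Coded R Q) :
    Coded R (fun x a => P x a → Q x a) := by
  have h := Coded.or hR (hP.not hR) hQ
  convert h using 3 with x a
  tauto

lemma iff {P Q : X R → α → Prop} (hP : Coded R P) (hQ : Coded R Q) :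
    Coded R (fun x a => (P x a ↔ Q x a)) := by
  have h := Coded.and hR (hP.imp hR hQ) (hQ.imp hR hP)
  convert h using 3 with x a
  tauto

lemma comp {P : X R → β → Prop} (hP : Coded R P) {f : α → β} (hf : Primrec f) :
    Coded R (fun x a => P x (f a)) := by
  obtain ⟨C, h1, h2, h3⟩ := hP
  exact ⟨fun pa => C (pa.1, f pa.2),
    h1.comp hR (Primrec.pair Primrec.fst (hf.comp Primrec.snd)),
    fun p q a => h2 p q (f a), fun x a => h3 x (f a)⟩

lemma ex {P : X R → α × β → Prop} (hP : Coded R P) :
    Coded R (fun x a => ∃ b, P x (a, b)) := by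
  obtain ⟨C, h1, h2, h3⟩ := hP
  refine ⟨fun pa => ∃ b, C (pa.1, (pa.2, b)), ?_, ?_, ?_⟩
  · refine RP.ex hR (P := fun t : (List Bool × α) × β => C (t.1.1, (t.1.2, t.2))) ?_
    exact h1.comp hR (Primrec.pair (Primrec.fst.comp Primrec.fst)
      (Primrec.pair (Primrec.snd.comp Primrec.fst) Primrec.snd))
  · rintro p q a hpq ⟨b, hb⟩
    exact ⟨b, h2 p q _ hpq hb⟩
  · intro x a
    simp only [h3]
    constructor
    · rintro ⟨b, p, hp, hC⟩
      exact ⟨p, hp, b, hC⟩
    · rintro ⟨p, hp, b, hC⟩
      exact ⟨b, p, hp, hC⟩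

lemma all {P : X R → α × β → Prop} (hP : Coded R P) :
    Coded R (fun x a => ∀ b, P x (a, b)) := by
  have h := (Coded.ex hR (hP.not hR)).not hR
  convert h using 3 with x a
  simp

lemma of_rp {P : α → Prop} (hP : RP R P) : Coded R (fun (_ : X R) a => P a) := by
  refine ⟨fun pa => P pa.2, hP.comp hR Primrec.snd, fun _ _ _ _ h => h, fun x a => ?_⟩
  constructor
  · intro h
    exact ⟨[], init_nil _, h⟩
  · rintro ⟨_, _, h⟩
    exact h

lemma of_primrec {P : α → Prop} (hP : PrimrecPred P) : Coded R (fun (_ : X R) a => P a) :=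
  of_rp hR (RP.of_primrec hR hP)

/-- quantification over all generic points -/
lemma forall_rp (hc : R.Countable) {P : X R → α → Prop} (hP : Coded R P) :
    RP R (fun a => ∀ x, P x a) := by
  obtain ⟨C, h1, h2, h3⟩ := hP.not hR
  have h4 : RP R (fun a => ¬ ∃ p, C (p, a)) :=
    (RP.ex hR (P := fun t : α × List Bool => C (t.2, t.1))
      (h1.comp hR (Primrec.pair Primrec.snd Primrec.fst))).not hR
  convert h4 using 2 with a
  constructor
  · rintro h ⟨p, hp⟩
    obtain ⟨x, hx⟩ := exists_gen hc p
    exact (h3 x a).2 ⟨p, hx, hp⟩ (h x)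
  · intro h x
    by_contra hn
    obtain ⟨p, _, hp⟩ := (h3 x a).1 hn
    exact h ⟨p, hp⟩

lemma forall_rp' (hc : R.Countable) {P : X R → α → Prop} (hP : Coded R P) :
    Coded R (fun _ a => ∀ x, P x a) := of_rp hR (forall_rp hR hc hP)

end Coded

namespace CodedMap

lemma id : CodedMap R (fun (_ : α) (x : X R) => x) := by
  refine Coded.mk' hR (fun t => t.1[t.2.2]? = some true) ?_ ?_
  · apply RP.of_primrec hR
    exact Primrec.eq.comp (Primrec.list_getElem?.comp Primrec.fst
      (Primrec.snd.comp Primrec.snd)) (Primrec.const _)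
  · rintro x ⟨a, n⟩
    constructor
    · intro h
      refine ⟨pre x.1 (n + 1), init_pre _ _, ?_⟩
      simpa [pre] using h
    · rintro ⟨p, hp, h⟩
      have h : p[n]? = some true := h
      have hn : n < p.length := by
        by_contra hn
        rw [List.getElem?_eq_none (by omega)] at h
        simp at h
      rw [init_iff] at hp
      simp only
      rw [List.getElem?_eq_getElem hn, hp n hn] at h
      simpa using h

lemma init {T : α → X R → X R} (hT : CodedMap R T) :
    Coded R (fun x (a : α × List Bool) => Init a.2 (T a.1 x).1) := by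
  have h1 : Coded R (fun (x : X R) (t : (α × List Bool) × ℕ) => (T t.1.1 x).1 t.2 = true) :=
    Coded.comp hR hT (f := fun t : (α × List Bool) × ℕ => (t.1.1, t.2))
      (Primrec.pair (Primrec.fst.comp Primrec.fst) Primrec.snd)
  have h2 : Coded R (fun (_ : X R) (t : (α × List Bool) × ℕ) => t.1.2[t.2]? = some true) :=
    Coded.of_primrec hR (Primrec.eq.comp (Primrec.list_getElem?.comp
      (Primrec.snd.comp Primrec.fst) Primrec.snd) (Primrec.const _))
  have h3 : Coded R (fun (_ : X R) (t : (α × List Bool) × ℕ) => t.2 < t.1.2.length) :=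
    Coded.of_primrec hR (Primrec.nat_lt.comp Primrec.snd
      (Primrec.list_length.comp (Primrec.snd.comp Primrec.fst)))
  have h4 := Coded.all hR (h3.imp hR (h1.iff hR h2))
  convert h4 using 3 with x a
  rw [init_iff']

lemma of_init {T : α → X R → X R}
    (hT : Coded R (fun x (a : α × List Bool) => Init a.2 (T a.1 x).1)) : CodedMap R T := by
  have h1 : Coded R (fun (x : X R) (t : (α × ℕ) × List Bool) => Init t.2 (T t.1.1 x).1) :=
    Coded.comp hR hT (f := fun t : (α × ℕ) × List Bool => (t.1.1, t.2))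
      (Primrec.pair (Primrec.fst.comp Primrec.fst) Primrec.snd)
  have h2 : Coded R (fun (_ : X R) (t : (α × ℕ) × List Bool) => t.2[t.1.2]? = some true) :=
    Coded.of_primrec hR (Primrec.eq.comp (Primrec.list_getElem?.comp
      Primrec.snd (Primrec.snd.comp Primrec.fst)) (Primrec.const _))
  have h3 := Coded.ex hR (h1.and hR h2)
  unfold CodedMap
  convert h3 using 3 with x a
  obtain ⟨a, n⟩ := a
  constructor
  · intro h
    refine ⟨pre (T a x).1 (n + 1), init_pre _ _, ?_⟩
    simpa [pre] using h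
  · rintro ⟨p, hp, h⟩
    have h : p[n]? = some true := h
    have hn : n < p.length := by
      by_contra hn
      rw [List.getElem?_eq_none (by omega)] at h
      simp at h
    rw [init_iff] at hp
    simp only at hp ⊢
    rw [List.getElem?_eq_getElem hn, hp n hn] at h
    simpa using h

lemma comp_index {T : β → X R → X R} (hT : CodedMap R T) {f : α → β} (hf : Primrec f) :
    CodedMap R (fun a => T (f a)) :=
  Coded.comp hR hT (f := fun t : α × ℕ => (f t.1, t.2))
    (Primrec.pair (hf.comp Primrec.fst) Primrec.snd)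

end CodedMap

/-- substitution of a coded map in a coded relation -/
lemma Coded.subst {P : X R → β → Prop} (hP : Coded R P) {T : α → X R → X R}
    (hT : CodedMap R T) : Coded R (fun x (t : α × β) => P (T t.1 x) t.2) := by
  obtain ⟨C, h1, h2, h3⟩ := hP
  have k1 : Coded R (fun x (t : (α × β) × List Bool) => Init t.2 (T t.1.1 x).1) :=
    Coded.comp hR (hT.init hR) (f := fun t : (α × β) × List Bool => (t.1.1, t.2))
      (Primrec.pair (Primrec.fst.comp Primrec.fst) Primrec.snd)
  have k2 : Coded R (fun (_ : X R) (t : (α × β) × List Bool) => C (t.2, t.1.2)) :=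
    Coded.of_rp hR (h1.comp hR (Primrec.pair Primrec.snd (Primrec.snd.comp Primrec.fst)))
  have k3 := Coded.ex hR (k1.and hR k2)
  convert k3 using 3 with x t
  exact h3 _ _

/-- equality of coded maps is coded -/
lemma CodedMap.eq {S T : α → X R → X R} (hS : CodedMap R S) (hT : CodedMap R T) :
    Coded R (fun x (a : α) => S a x = T a x) := by
  have h := Coded.all hR (Coded.iff hR hS hT)
  convert h using 3 with x a
  constructor
  · intro h b
    rw [h]
  · intro h
    apply Subtype.ext
    funext n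
    have := h n
    simp only at this
    cases h1 : (S a x).1 n <;> cases h2 : (T a x).1 n <;> simp_all

/-- composition of coded maps -/
lemma CodedMap.comp {S : β → X R → X R} (hS : CodedMap R S) {T : α → X R → X R}
    (hT : CodedMap R T) : CodedMap R (fun (t : α × β) x => S t.2 (T t.1 x)) := by
  have h := Coded.subst hR hS hT
  exact Coded.comp hR h (f := fun t : (α × β) × ℕ => (t.1.1, (t.1.2, t.2)))
    (Primrec.pair (Primrec.fst.comp Primrec.fst)
      (Primrec.pair (Primrec.snd.comp Primrec.fst) Primrec.snd))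

open Classical in
/-- definition by cases -/
lemma CodedMap.ite {S T : α → X R → X R} (hS : CodedMap R S) (hT : CodedMap R T)
    {P : X R → α → Prop} (hP : Coded R P) :
    CodedMap R (fun a x => if P x a then S a x else T a x) := by
  have hP' : Coded R (fun x (t : α × ℕ) => P x t.1) := Coded.comp hR hP Primrec.fst
  have h := Coded.or hR (hP'.and hR hS) ((hP'.not hR).and hR hT)
  unfold CodedMap
  convert h using 3 with x a
  by_cases hp : P x a.1 <;> simp [hp]

end

end Pool.Agent.Lib.MP_f12a7c_lc
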