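import Pool.Agent.Lib.MP_f12a7c_lc.Defs

/-!
# Index-two extensions of hyperfinite equivalence relations

`E` is a Borel equivalence relation covered by countably many Borel partial maps, `F n` are
increasing finite Borel subequivalence relations of `E`, and among any three `E`-equivalent points
two are related by some `F n`. Then `E` is the increasing union of finite Borel equivalence
relations.
-/

namespace Pool.Agent.Lib.MP_f12a7c_lc

open MeasureTheory Set

theorem hyperfinite_of_two_of_three {X : Type*} [MeasurableSpace X]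
    (E : X → X → Prop) (hE : Equivalence E)
    (T : ℕ → X → X) (hT : ∀ k, Measurable (T k))
    (D : ℕ → Set X) (hD : ∀ k, MeasurableSet (D k))
    (hcov : ∀ x y, E x y ↔ ∃ k, x ∈ D k ∧ T k x = y)
    (F : ℕ → X → X → Prop)
    (hFe : ∀ n, Equivalence (F n))
    (hFm : ∀ n, MeasurableSet {p : X × X | F n p.1 p.2})
    (hFf : ∀ n x, {y | F n x y}.Finite)
    (hFmono : ∀ n x y, F n x y → F (n + 1) x y)
    (hFE : ∀ n x y, F n x y → E x y)
    (h23 : ∀ x y z, E x y → E x z → ∃ n, F n x y ∨ F n x z ∨ F n y z) :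
    Hyperfinite E := by
  classical
  -- monotonicity
  have hmono : ∀ {m n : ℕ}, m ≤ n → ∀ {x y}, F m x y → F n x y := by
    intro m n hmn
    induction hmn with
    | refl => intro x y h; exact h
    | step _ ih => intro x y h; exact hFmono _ _ _ (ih h)
  -- the union
  let U : X → X → Prop := fun x y => ∃ n, F n x y
  have hUe : Equivalence U := by
    refine ⟨fun x => ⟨0, (hFe 0).refl x⟩, ?_, ?_⟩
    · rintro x y ⟨n, h⟩; exact ⟨n, (hFe n).symm h⟩
    · rintro x y z ⟨n, h⟩ ⟨m, h'⟩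
      exact ⟨max n m, (hFe _).trans (hmono (le_max_left _ _) h) (hmono (le_max_right _ _) h')⟩
  have hUE : ∀ {x y}, U x y → E x y := by rintro x y ⟨n, h⟩; exact hFE n _ _ h
  have hU23 : ∀ {x y z}, E x y → E x z → U x y ∨ U x z ∨ U y z := by
    intro x y z h h'
    obtain ⟨n, h1 | h1 | h1⟩ := h23 x y z h h'
    · exact Or.inl ⟨n, h1⟩
    · exact Or.inr (Or.inl ⟨n, h1⟩)
    · exact Or.inr (Or.inr ⟨n, h1⟩)
  have hUm : MeasurableSet {p : X × X | U p.1 p.2} := by
    have : {p : X × X | U p.1 p.2} = ⋃ n, {p : X × X | F n p.1 p.2} := by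
      ext p; simp [U]
    rw [this]
    exact MeasurableSet.iUnion hFm
  -- sets where `T k` switches the class
  let B : ℕ → Set X := fun k => {x | x ∈ D k ∧ ¬ U x (T k x)}
  have hB : ∀ k, MeasurableSet (B k) := by
    intro k
    have h1 : MeasurableSet {x | U x (T k x)} :=
      (measurable_id.prodMk (hT k)) hUm
    exact (hD k).inter h1.compl
  let A : Set X := ⋃ k, B k
  have hA : MeasurableSet A := MeasurableSet.iUnion hB
  have hAiff : ∀ x, x ∈ A ↔ ∃ y, E x y ∧ ¬ U x y := by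
    intro x
    constructor
    · intro h
      obtain ⟨k, hk⟩ := mem_iUnion.1 h
      exact ⟨T k x, (hcov _ _).2 ⟨k, hk.1, rfl⟩, hk.2⟩
    · rintro ⟨y, hy, hn⟩
      obtain ⟨k, hk, rfl⟩ := (hcov _ _).1 hy
      exact mem_iUnion.2 ⟨k, hk, hn⟩
  have hAinv : ∀ {x y}, E x y → (x ∈ A ↔ y ∈ A) := by
    have key : ∀ {x y}, E x y → x ∈ A → y ∈ A := by
      intro x y hxy hx
      obtain ⟨z, hz, hn⟩ := (hAiff x).1 hx
      rw [hAiff]
      by_cases h : U y x
      · refine ⟨z, hE.trans (hE.symm hxy) hz, fun h' => hn (hUe.trans (hUe.symm h) h')⟩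
      · exact ⟨x, hE.symm hxy, h⟩
    intro x y hxy
    exact ⟨key hxy, key (hE.symm hxy)⟩
  -- the switching map
  let f : ℕ → X → X := fun k => match k with
    | 0 => id
    | k + 1 => T k
  let p : ℕ → X → Prop := fun k x => match k with
    | 0 => x ∉ A
    | k + 1 => x ∈ B k
  have hp : ∀ x, ∃ k, p k x := by
    intro x
    by_cases hx : x ∈ A
    · obtain ⟨k, hk⟩ := mem_iUnion.1 hx
      exact ⟨k + 1, hk⟩
    · exact ⟨0, hx⟩
  let g : X → X := fun x => f (Nat.find (hp x)) x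
  have hg : Measurable g := by
    apply Measurable.find (f := f) (p := p) (h := hp)
    · intro n
      cases n with
      | zero => exact measurable_id
      | succ n => exact hT n
    · intro n
      cases n with
      | zero => exact hA.compl
      | succ n => exact hB n
  have hgA : ∀ x, x ∈ A → E x (g x) ∧ ¬ U x (g x) := by
    intro x hx
    have h1 := Nat.find_spec (hp x)
    change E x (f (Nat.find (hp x)) x) ∧ ¬ U x (f (Nat.find (hp x)) x)
    generalize Nat.find (hp x) = k at h1 ⊢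
    cases k with
    | zero => exact absurd hx h1
    | succ k =>
      exact ⟨(hcov _ _).2 ⟨k, h1.1, rfl⟩, h1.2⟩
  -- the new relations
  let G : ℕ → X → X → Prop := fun n x y =>
    (x ∉ A ∧ y ∉ A ∧ F n x y) ∨
    (x ∈ A ∧ y ∈ A ∧ ((F n x y ∧ F n (g x) (g y)) ∨ (F n x (g y) ∧ F n (g x) y)))
  refine ⟨G, ?_, ?_, ?_, ?_, ?_⟩
  · intro n
    refine ⟨?_, ?_, ?_⟩
    · intro x
      by_cases hx : x ∈ A
      · exact Or.inr ⟨hx, hx, Or.inl ⟨(hFe n).refl _, (hFe n).refl _⟩⟩
      · exact Or.inl ⟨hx, hx, (hFe n).refl _⟩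
    · rintro x y (⟨h1, h2, h3⟩ | ⟨h1, h2, ⟨h3, h4⟩ | ⟨h3, h4⟩⟩)
      · exact Or.inl ⟨h2, h1, (hFe n).symm h3⟩
      · exact Or.inr ⟨h2, h1, Or.inl ⟨(hFe n).symm h3, (hFe n).symm h4⟩⟩
      · exact Or.inr ⟨h2, h1, Or.inr ⟨(hFe n).symm h4, (hFe n).symm h3⟩⟩
    · rintro x y z (⟨h1, h2, h3⟩ | ⟨h1, h2, ⟨h3, h4⟩ | ⟨h3, h4⟩⟩)
        (⟨k1, k2, k3⟩ | ⟨k1, k2, ⟨k3, k4⟩ | ⟨k3, k4⟩⟩)
      · exact Or.inl ⟨h1, k2, (hFe n).trans h3 k3⟩
      · exact absurd k1 h2
      · exact absurd k1 h2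
      · exact absurd h2 k1
      · exact Or.inr ⟨h1, k2, Or.inl ⟨(hFe n).trans h3 k3, (hFe n).trans h4 k4⟩⟩
      · exact Or.inr ⟨h1, k2, Or.inr ⟨(hFe n).trans h3 k3, (hFe n).trans h4 k4⟩⟩
      · exact absurd h2 k1
      · exact Or.inr ⟨h1, k2, Or.inr ⟨(hFe n).trans h3 k4, (hFe n).trans h4 k3⟩⟩
      · exact Or.inr ⟨h1, k2, Or.inl ⟨(hFe n).trans h3 k4, (hFe n).trans h4 k3⟩⟩
  swap
  · intro n
    have hA1 : MeasurableSet {p : X × X | p.1 ∈ A} := measurable_fst hA
    have hA2 : MeasurableSet {p : X × X | p.2 ∈ A} := measurable_snd hA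
    have m11 : MeasurableSet {p : X × X | F n p.1 p.2} := hFm n
    have mgg : MeasurableSet {p : X × X | F n (g p.1) (g p.2)} :=
      ((hg.comp measurable_fst).prodMk (hg.comp measurable_snd)) (hFm n)
    have m1g : MeasurableSet {p : X × X | F n p.1 (g p.2)} :=
      (measurable_fst.prodMk (hg.comp measurable_snd)) (hFm n)
    have mg1 : MeasurableSet {p : X × X | F n (g p.1) p.2} :=
      ((hg.comp measurable_fst).prodMk measurable_snd) (hFm n)
    have : {p : X × X | G n p.1 p.2} =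
        ({p : X × X | p.1 ∈ A}ᶜ ∩ ({p : X × X | p.2 ∈ A}ᶜ ∩ {p : X × X | F n p.1 p.2})) ∪
        ({p : X × X | p.1 ∈ A} ∩ ({p : X × X | p.2 ∈ A} ∩
          (({p : X × X | F n p.1 p.2} ∩ {p : X × X | F n (g p.1) (g p.2)}) ∪
           ({p : X × X | F n p.1 (g p.2)} ∩ {p : X × X | F n (g p.1) p.2})))) := by
      ext p
      simp only [G, mem_ofPred_eq, mem_union, mem_inter_iff, mem_compl_iff]
    rw [this]
    exact (hA1.compl.inter (hA2.compl.inter m11)).union
      (hA1.inter (hA2.inter ((m11.inter mgg).union (m1g.inter mg1))))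
  · intro n x
    apply ((hFf n x).union (hFf n (g x))).subset
    rintro y (⟨_, _, h⟩ | ⟨_, _, ⟨h, _⟩ | ⟨_, h⟩⟩)
    · exact Or.inl h
    · exact Or.inl h
    · exact Or.inr h
  · rintro n x y (⟨h1, h2, h3⟩ | ⟨h1, h2, ⟨h3, h4⟩ | ⟨h3, h4⟩⟩)
    · exact Or.inl ⟨h1, h2, hFmono _ _ _ h3⟩
    · exact Or.inr ⟨h1, h2, Or.inl ⟨hFmono _ _ _ h3, hFmono _ _ _ h4⟩⟩
    · exact Or.inr ⟨h1, h2, Or.inr ⟨hFmono _ _ _ h3, hFmono _ _ _ h4⟩⟩
  · intro x y
    constructor
    · intro hxy
      by_cases hx : x ∈ A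
      · have hy : y ∈ A := (hAinv hxy).1 hx
        obtain ⟨ex, nx⟩ := hgA x hx
        obtain ⟨ey, ny⟩ := hgA y hy
        have exgy : E x (g y) := hE.trans hxy ey
        by_cases hu : U x y
        · -- then `g x` and `g y` are related
          have h1 : ¬ U x (g y) := fun h => ny (hUe.trans (hUe.symm hu) h)
          have h2 : U (g x) (g y) := by
            rcases hU23 ex exgy with h | h | h
            · exact absurd h nx
            · exact absurd h h1
            · exact h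
          obtain ⟨n, hn⟩ := hu
          obtain ⟨m, hm⟩ := h2
          exact ⟨max n m, Or.inr ⟨hx, hy, Or.inl ⟨hmono (le_max_left _ _) hn,
            hmono (le_max_right _ _) hm⟩⟩⟩
        · have h1 : U x (g y) := by
            rcases hU23 hxy exgy with h | h | h
            · exact absurd h hu
            · exact h
            · exact absurd h ny
          have h2 : U (g x) y := by
            rcases hU23 ex hxy with h | h | h
            · exact absurd h nx
            · exact absurd h hu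
            · exact h
          obtain ⟨n, hn⟩ := h1
          obtain ⟨m, hm⟩ := h2
          exact ⟨max n m, Or.inr ⟨hx, hy, Or.inr ⟨hmono (le_max_left _ _) hn,
            hmono (le_max_right _ _) hm⟩⟩⟩
      · have hy : y ∉ A := fun h => hx ((hAinv hxy).2 h)
        have hu : U x y := by
          by_contra h
          exact hx ((hAiff x).2 ⟨y, hxy, h⟩)
        obtain ⟨n, hn⟩ := hu
        exact ⟨n, Or.inl ⟨hx, hy, hn⟩⟩
    · rintro ⟨n, (⟨h1, h2, h3⟩ | ⟨h1, h2, ⟨h3, h4⟩ | ⟨h3, h4⟩⟩)⟩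
      · exact hFE n _ _ h3
      · exact hFE n _ _ h3
      · exact hE.trans (hFE n _ _ h3) (hE.symm (hgA y h2).1)

end Pool.Agent.Lib.MP_f12a7c_lc
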