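import Pool.Agent.Lib.MP_f12a7c_lc.Coded

/-!
# From codes at a point to coded maps (I.9)
-/

namespace Pool.Agent.Lib.MP_f12a7c_lc

variable {R : Set (Set ℕ)}

/-- the closure of a code under extension in the first and restriction in the second argument -/
def shD (C : List Bool × List Bool → Prop) (t : List Bool × List Bool) : Prop :=
  ∃ s : List Bool × List Bool, (s.1 <+: t.1 ∧ t.2 <+: s.2) ∧ C s

/-- the finite strings given by the code at the point `z` -/
def shA (D : List Bool × List Bool → Prop) (z : ℕ → Bool) (q : List Bool) : Prop :=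
  ∃ p, Init p z ∧ D (p, q)

/-- the code `D` is total and consistent at `z` and `D'` gives back `z` -/
def shG (D D' : List Bool × List Bool → Prop) (z : ℕ → Bool) : Prop :=
  (∀ n : ℕ, ∃ q : List Bool, q.length = n ∧ shA D z q) ∧
  (∀ t : List Bool × List Bool, (shA D z t.1 ∧ shA D z t.2) → (t.1 <+: t.2 ∨ t.2 <+: t.1)) ∧
  (∀ p, Init p z → ∃ q, shA D z q ∧ D' (q, p))

lemma shD_rp (hR : ArithClosed R) {C : List Bool × List Bool → Prop} (hC : RP R C) :
    RP R (shD C) := by
  have h1 : RP R (fun u : (List Bool × List Bool) × (List Bool × List Bool) =>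
      u.2.1 <+: u.1.1) :=
    RP.of_primrec hR (primrec_prefix.comp (Primrec.pair (Primrec.fst.comp Primrec.snd)
      (Primrec.fst.comp Primrec.fst)))
  have h2 : RP R (fun u : (List Bool × List Bool) × (List Bool × List Bool) =>
      u.1.2 <+: u.2.2) :=
    RP.of_primrec hR (primrec_prefix.comp (Primrec.pair (Primrec.snd.comp Primrec.fst)
      (Primrec.snd.comp Primrec.snd)))
  have h3 : RP R (fun u : (List Bool × List Bool) × (List Bool × List Bool) => C u.2) :=
    hC.comp hR Primrec.snd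
  exact RP.ex hR ((h1.and hR h2).and hR h3)

lemma shD_mono {C : List Bool × List Bool → Prop} {p p' q : List Bool} (h : p <+: p')
    (hD : shD C (p, q)) : shD C (p', q) := by
  obtain ⟨s, ⟨h1, h2⟩, h3⟩ := hD
  exact ⟨s, ⟨h1.trans h, h2⟩, h3⟩

lemma shD_anti {C : List Bool × List Bool → Prop} {p q q' : List Bool} (h : q' <+: q)
    (hD : shD C (p, q)) : shD C (p, q') := by
  obtain ⟨s, ⟨h1, h2⟩, h3⟩ := hD
  exact ⟨s, ⟨h1, h.trans h2⟩, h3⟩

lemma shD_iff {C : List Bool × List Bool → Prop} {x y : ℕ → Bool}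
    (h : ∀ q, Init q y ↔ ∃ p, Init p x ∧ C (p, q)) (q : List Bool) :
    shA (shD C) x q ↔ Init q y := by
  constructor
  · rintro ⟨p, hp, s, ⟨h1, h2⟩, h3⟩
    exact ((h s.2).2 ⟨s.1, hp.of_prefix h1, h3⟩).of_prefix h2
  · intro hq
    obtain ⟨p, hp, hC⟩ := (h q).1 hq
    exact ⟨p, hp, (p, q), ⟨List.prefix_refl _, List.prefix_refl _⟩, hC⟩

lemma shA_anti {C : List Bool × List Bool → Prop} {z : ℕ → Bool} {q q' : List Bool}
    (h : q' <+: q) (hA : shA (shD C) z q) : shA (shD C) z q' := by
  obtain ⟨p, hp, hD⟩ := hA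
  exact ⟨p, hp, shD_anti h hD⟩

lemma shA_coded (hR : ArithClosed R) {D : List Bool × List Bool → Prop} (hD : RP R D) :
    Coded R (fun (z : X R) (q : List Bool) => shA D z.1 q) :=
  Coded.mk' hR D hD (fun _ _ => Iff.rfl)

lemma init_coded (hR : ArithClosed R) :
    Coded R (fun (z : X R) (q : List Bool) => Init q z.1) := by
  have h1 := CodedMap.init hR (CodedMap.id hR (α := Unit))
  exact Coded.comp hR h1 (f := fun q : List Bool => ((), q))
    (Primrec.pair (Primrec.const ()) Primrec.id)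

lemma shG_coded (hR : ArithClosed R) {D D' : List Bool × List Bool → Prop} (hD : RP R D)
    (hD' : RP R D') : Coded R (fun (z : X R) (_ : Unit) => shG D D' z.1) := by
  have hA := shA_coded hR hD
  have h1 : Coded R (fun (z : X R) (_ : Unit) => ∀ n : ℕ, ∃ q : List Bool,
      q.length = n ∧ shA D z.1 q) := by
    have k1 : Coded R (fun (_ : X R) (t : (Unit × ℕ) × List Bool) => t.2.length = t.1.2) :=
      Coded.of_primrec hR (Primrec.eq.comp (Primrec.list_length.comp Primrec.snd)
        (Primrec.snd.comp Primrec.fst))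
    have k2 : Coded R (fun (z : X R) (t : (Unit × ℕ) × List Bool) => shA D z.1 t.2) :=
      Coded.comp hR hA Primrec.snd
    exact Coded.all hR (Coded.ex hR (k1.and hR k2))
  have h2 : Coded R (fun (z : X R) (_ : Unit) => ∀ t : List Bool × List Bool,
      (shA D z.1 t.1 ∧ shA D z.1 t.2) → (t.1 <+: t.2 ∨ t.2 <+: t.1)) := by
    have k1 : Coded R (fun (z : X R) (t : Unit × (List Bool × List Bool)) =>
        shA D z.1 t.2.1) := Coded.comp hR hA (Primrec.fst.comp Primrec.snd)
    have k2 : Coded R (fun (z : X R) (t : Unit × (List Bool × List Bool)) =>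
        shA D z.1 t.2.2) := Coded.comp hR hA (Primrec.snd.comp Primrec.snd)
    have k3 : Coded R (fun (_ : X R) (t : Unit × (List Bool × List Bool)) =>
        t.2.1 <+: t.2.2) := Coded.of_primrec hR (primrec_prefix.comp
          (Primrec.pair (Primrec.fst.comp Primrec.snd) (Primrec.snd.comp Primrec.snd)))
    have k4 : Coded R (fun (_ : X R) (t : Unit × (List Bool × List Bool)) =>
        t.2.2 <+: t.2.1) := Coded.of_primrec hR (primrec_prefix.comp
          (Primrec.pair (Primrec.snd.comp Primrec.snd) (Primrec.fst.comp Primrec.snd)))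
    exact Coded.all hR ((k1.and hR k2).imp hR (k3.or hR k4))
  have h3 : Coded R (fun (z : X R) (_ : Unit) => ∀ p, Init p z.1 → ∃ q, shA D z.1 q ∧
      D' (q, p)) := by
    have k1 : Coded R (fun (z : X R) (t : Unit × List Bool) => Init t.2 z.1) :=
      Coded.comp hR (init_coded hR) Primrec.snd
    have k2 : Coded R (fun (z : X R) (t : (Unit × List Bool) × List Bool) =>
        shA D z.1 t.2) := Coded.comp hR hA Primrec.snd
    have k3 : Coded R (fun (_ : X R) (t : (Unit × List Bool) × List Bool) =>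
        D' (t.2, t.1.2)) := Coded.of_rp hR (hD'.comp hR
          (Primrec.pair Primrec.snd (Primrec.snd.comp Primrec.fst)))
    exact Coded.all hR (k1.imp hR (Coded.ex hR (k2.and hR k3)))
  exact h1.and hR (h2.and hR h3)

/-- the real given by a total consistent code -/
lemma shA_real {C : List Bool × List Bool → Prop} {z : ℕ → Bool}
    (h1 : ∀ n : ℕ, ∃ q : List Bool, q.length = n ∧ shA (shD C) z q)
    (h2 : ∀ t : List Bool × List Bool, (shA (shD C) z t.1 ∧ shA (shD C) z t.2) →
      (t.1 <+: t.2 ∨ t.2 <+: t.1)) :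
    ∃ w : ℕ → Bool, ∀ q, Init q w ↔ shA (shD C) z q := by
  choose f hf1 hf2 using h1
  have hpre : ∀ m n, m ≤ n → f m <+: f n := by
    intro m n hmn
    rcases h2 (f m, f n) ⟨hf2 m, hf2 n⟩ with h | h
    · exact h
    · have hl := h.length_le
      simp only [hf1] at hl
      have : m = n := le_antisymm hmn hl
      rw [this]
  have hw : ∀ n, Init (f n) (fun i => (f (i + 1)).getD i false) := by
    intro n
    rw [init_iff]
    intro i hi
    have hi' : i < n := by rw [hf1] at hi; exact hi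
    have hp := hpre (i + 1) n hi'
    have hil : i < (f (i + 1)).length := by rw [hf1]; omega
    rw [List.prefix_iff_getElem?] at hp
    have h3 := hp i hil
    rw [List.getElem?_eq_getElem hi] at h3
    simp only [Option.some.injEq] at h3
    rw [List.getD_eq_getElem _ _ hil, h3]
  refine ⟨fun i => (f (i + 1)).getD i false, fun q => ⟨fun hq => ?_, fun hq => ?_⟩⟩
  · have h3 := hw q.length
    have h4 : f q.length = q := by
      unfold Init at h3 hq
      rw [← h3, hf1, hq]
    rw [← h4]
    exact hf2 _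
  · have h3 : f q.length = q := by
      rcases h2 (f q.length, q) ⟨hf2 _, hq⟩ with h | h
      · exact h.eq_of_length (hf1 _)
      · exact (h.eq_of_length (hf1 _).symm).symm
    rw [← h3]
    exact hw _

/-- the image of a generic point is generic -/
lemma shA_gen (hR : ArithClosed R) (hc : R.Countable)
    {C C' : List Bool × List Bool → Prop} (hC : RP R C) {p q : List Bool}
    (hG : ∀ z : X R, Init p z.1 → shG (shD C) (shD C') z.1)
    (hA : ∀ z : X R, Init p z.1 → shA (shD C) z.1 q)
    (hG' : ∀ w : X R, Init q w.1 → shG (shD C') (shD C) w.1)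
    (z : X R) (hz : Init p z.1) (w : ℕ → Bool) (hw : ∀ q, Init q w ↔ shA (shD C) z.1 q) :
    Gen R w := by
  intro Dn hDn hdense
  have hE1 : RP R (fun p' : List Bool => ∃ e, Dn e ∧ shD C (p', e)) := by
    have k1 : RP R (fun t : List Bool × List Bool => Dn t.2) := hDn.comp hR Primrec.snd
    exact RP.ex hR (k1.and hR (shD_rp hR hC))
  have hE2 : RP R (fun p' : List Bool => ¬ (p <+: p' ∨ p' <+: p)) := by
    have k1 : RP R (fun p' : List Bool => p <+: p') :=
      RP.of_primrec hR (primrec_prefix.comp (Primrec.pair (Primrec.const p) Primrec.id))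
    have k2 : RP R (fun p' : List Bool => p' <+: p) :=
      RP.of_primrec hR (primrec_prefix.comp (Primrec.pair Primrec.id (Primrec.const p)))
    exact (k1.or hR k2).not hR
  obtain ⟨p', hp', hE⟩ := z.2 _ (hE1.or hR hE2) (by
    intro r
    by_cases hr : p <+: r ∨ r <+: p
    · obtain ⟨r', hrr', hpr'⟩ : ∃ r', r <+: r' ∧ p <+: r' := by
        rcases hr with h | h
        · exact ⟨r, List.prefix_refl _, h⟩
        · exact ⟨p, h, List.prefix_refl _⟩
      obtain ⟨z0, hz0⟩ := exists_gen (R := R) hc r'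
      obtain ⟨_, g2, g3⟩ := hG z0 (hz0.of_prefix hpr')
      obtain ⟨q', hq'A, hq'D⟩ := g3 r' hz0
      have hAq := hA z0 (hz0.of_prefix hpr')
      obtain ⟨q'', hqq'', hD''⟩ : ∃ q'', q <+: q'' ∧ shD C' (q'', r') := by
        rcases g2 (q', q) ⟨hq'A, hAq⟩ with h | h
        · exact ⟨q, List.prefix_refl _, shD_mono h hq'D⟩
        · exact ⟨q', h, hq'D⟩
      obtain ⟨e, hqe, hDe⟩ := hdense q''
      obtain ⟨y0, hy0⟩ := exists_gen (R := R) hc e
      obtain ⟨_, g2', g3'⟩ := hG' y0 (hy0.of_prefix (hqq''.trans hqe))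
      obtain ⟨p'', hp''A, hp''D⟩ := g3' e hy0
      have hAr : shA (shD C') y0.1 r' := ⟨q'', hy0.of_prefix hqe, hD''⟩
      rcases g2' (p'', r') ⟨hp''A, hAr⟩ with h | h
      · exact ⟨r', hrr', Or.inl ⟨e, hDe, shD_mono h hp''D⟩⟩
      · exact ⟨p'', hrr'.trans h, Or.inl ⟨e, hDe, hp''D⟩⟩
    · exact ⟨r, List.prefix_refl _, Or.inr hr⟩)
  rcases hE with ⟨e, hDe, hD⟩ | hn
  · exact ⟨e, (hw e).2 ⟨p', hp', hD⟩, hDe⟩
  · exact absurd (hz.comparable hp') hn

theorem exists_coded_map (hR : ArithClosed R) (hc : R.Countable) {x y : X R}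
    {C C' : List Bool × List Bool → Prop} (hC : RP R C) (hC' : RP R C')
    (h : ∀ q, Init q y.1 ↔ ∃ p, Init p x.1 ∧ C (p, q))
    (h' : ∀ q, Init q x.1 ↔ ∃ p, Init p y.1 ∧ C' (p, q)) :
    ∃ T : X R → X R, CodedMap R (fun _ : Unit => T) ∧ T x = y := by
  classical
  have hx : shG (shD C) (shD C') x.1 := by
    refine ⟨fun n => ⟨pre y.1 n, by simp, (shD_iff h _).2 (init_pre _ _)⟩, ?_, ?_⟩
    · rintro t ⟨h1, h2⟩
      exact ((shD_iff h _).1 h1).comparable ((shD_iff h _).1 h2)
    · intro p hp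
      obtain ⟨q, hq, hD⟩ := (shD_iff h' p).2 hp
      exact ⟨q, (shD_iff h q).2 hq, hD⟩
  have hy : shG (shD C') (shD C) y.1 := by
    refine ⟨fun n => ⟨pre x.1 n, by simp, (shD_iff h' _).2 (init_pre _ _)⟩, ?_, ?_⟩
    · rintro t ⟨h1, h2⟩
      exact ((shD_iff h' _).1 h1).comparable ((shD_iff h' _).1 h2)
    · intro p hp
      obtain ⟨q, hq, hD⟩ := (shD_iff h p).2 hp
      exact ⟨q, (shD_iff h' q).2 hq, hD⟩
  have hcD := shD_rp hR hC
  have hcD' := shD_rp hR hC'
  obtain ⟨q, hq, hGq⟩ := Coded.isOpen_at (a := ()) (shG_coded hR hcD' hcD) hy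
  obtain ⟨p1, hp1, hG1⟩ := Coded.isOpen_at (a := ()) (shG_coded hR hcD hcD') hx
  obtain ⟨p2, hp2, hG2⟩ := Coded.isOpen_at (a := q) (shA_coded hR hcD) ((shD_iff h q).2 hq)
  obtain ⟨p, hp, hpp1, hpp2⟩ := exists_common hp1 hp2
  have hreal : ∀ z : X R, Init p z.1 → ∃ w : X R, ∀ q, Init q w.1 ↔ shA (shD C) z.1 q := by
    intro z hz
    obtain ⟨g1, g2, _⟩ := hG1 z (hz.of_prefix hpp1)
    obtain ⟨w, hw⟩ := shA_real g1 g2
    exact ⟨⟨w, shA_gen hR hc hC (fun z hz => hG1 z (hz.of_prefix hpp1))
      (fun z hz => hG2 z (hz.of_prefix hpp2)) hGq z hz w hw⟩, hw⟩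
  choose F hF using hreal
  refine ⟨fun z => if hz : Init p z.1 then F z hz else z, ?_, ?_⟩
  · apply CodedMap.of_init hR
    have k1 : Coded R (fun (z : X R) (_ : Unit × List Bool) => Init p z.1) :=
      Coded.comp hR (init_coded hR) (Primrec.const p)
    have k2 : Coded R (fun (z : X R) (t : Unit × List Bool) => shA (shD C) z.1 t.2) :=
      Coded.comp hR (shA_coded hR hcD) Primrec.snd
    have k3 : Coded R (fun (z : X R) (t : Unit × List Bool) => Init t.2 z.1) :=
      Coded.comp hR (init_coded hR) Primrec.snd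
    have k4 := Coded.or hR (k1.and hR k2) ((k1.not hR).and hR k3)
    convert k4 using 3 with z t
    by_cases hz : Init p z.1
    · simp only [hz, dif_pos, true_and, not_true, false_and, or_false]
      exact hF z hz t.2
    · simp only [hz, dif_neg, false_and, not_false_iff, true_and, false_or]
  · simp only [hp, dif_pos]
    apply Subtype.ext
    apply eq_of_init
    intro q' hq'
    exact (shD_iff h q').1 ((hF x hp q').1 hq')

end Pool.Agent.Lib.MP_f12a7c_lc
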