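import Pool.Agent.Lib.MP_f12a7c_lc.Key
import Pool.Agent.Lib.MP_f12a7c_lc.IndexTwo
import Pool.Agent.Lib.MP_f12a7c_lc.Shrink

/-!
# The combinatorial theorem
-/

namespace Pool.Agent.Lib.MP_f12a7c_lc

open Encodable Relation

section

variable {R : Set (Set ℕ)}

/-- a coded map -/
def CodedOne (R : Set (Set ℕ)) (T : X R → X R) : Prop := CodedMap R (fun _ : Unit => T)

lemma CodedOne.family {T : X R → X R} (h : CodedOne R T) (hR : ArithClosed R) {α : Type}
    [Primcodable α] : CodedMap R (fun _ : α => T) :=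
  CodedMap.comp_index hR h (f := fun _ : α => ()) (Primrec.const _)

lemma CodedMap.one {T : ℕ → X R → X R} (h : CodedMap R T) (hR : ArithClosed R) (n : ℕ) :
    CodedOne R (T n) :=
  CodedMap.comp_index hR h (f := fun _ : Unit => n) (Primrec.const _)

lemma codedOne_id (hR : ArithClosed R) : CodedOne R (fun x => x) := CodedMap.id hR

lemma CodedOne.comp (hR : ArithClosed R) {S T : X R → X R} (hS : CodedOne R S)
    (hT : CodedOne R T) : CodedOne R (fun x => S (T x)) := by
  have h1 : CodedMap R (fun (t : Unit × Unit) x => S (T x)) := CodedMap.comp hR hS hT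
  exact h1.comp_index hR (f := fun _ : Unit => ((), ())) (Primrec.const _)

lemma mem_code {α : Type} [Primcodable α] (C : α → Prop) (a : α) :
    (∃ b, decode (encode a) = some b ∧ C b) ↔ C a := by simp

/-- there are countably many coded maps -/
lemma countable_codedOne (hc : R.Countable) : {T : X R → X R | CodedOne R T}.Countable := by
  have hex : ∀ T : X R → X R, CodedOne R T → ∃ C : List Bool × (Unit × ℕ) → Prop, RP R C ∧
      ∀ x n, (T x).1 n = true ↔ ∃ p, Init p x.1 ∧ C (p, ((), n)) := by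
    rintro T ⟨C, h1, _, h3⟩
    exact ⟨C, h1, fun x n => h3 x ((), n)⟩
  choose! C hC1 hC2 using hex
  apply Set.MapsTo.countable_of_injOn (t := R)
    (f := fun T => {n | ∃ a, decode n = some a ∧ C T a}) _ _ hc
  · intro T hT
    exact hC1 T hT
  · intro T hT T' hT' h
    have hCC : ∀ a, C T a ↔ C T' a := by
      intro a
      have h1 : encode a ∈ {n | ∃ a, decode n = some a ∧ C T a} ↔
          encode a ∈ {n | ∃ a, decode n = some a ∧ C T' a} := by
        simp only at h
        rw [h]
      exact (mem_code (C T) a).symm.trans (h1.trans (mem_code (C T') a))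
    funext x
    apply Subtype.ext
    funext n
    have h1 := hC2 T hT x n
    have h2 := hC2 T' hT' x n
    simp only [hCC] at h1
    rw [← h2] at h1
    cases h3 : (T x).1 n <;> cases h4 : (T' x).1 n <;> simp_all

/-- the relation `E_R`: each point is the image of the other under a coded map -/
def ER (R : Set (Set ℕ)) (x y : X R) : Prop :=
  (∃ T, CodedOne R T ∧ T x = y) ∧ ∃ T, CodedOne R T ∧ T y = x

lemma equivalence_ER (hR : ArithClosed R) : Equivalence (ER R) where
  refl := fun x => ⟨⟨_, codedOne_id hR, rfl⟩, ⟨_, codedOne_id hR, rfl⟩⟩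
  symm := fun h => ⟨h.2, h.1⟩
  trans := by
    rintro x y z ⟨⟨T1, h1, rfl⟩, ⟨T2, h2, h2'⟩⟩ ⟨⟨T3, h3, rfl⟩, ⟨T4, h4, h4'⟩⟩
    exact ⟨⟨_, CodedOne.comp hR h3 h1, rfl⟩,
      ⟨_, CodedOne.comp hR h2 h4, by rw [h4', h2']⟩⟩

open Classical in
/-- the edges given by a pair of maps -/
noncomputable def edgeT (T T' : X R → X R) (n : ℕ) (x : X R) : X R :=
  if n = 0 ∧ T' (T x) = x then T x else if n = 1 ∧ T (T' x) = x then T' x else x

lemma relT_edgeT {T T' : X R → X R} {x y : X R} :
    relT (edgeT T T') x y ↔ (T x = y ∧ T' y = x) ∨ (T y = x ∧ T' x = y) ∨ x = y := by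
  constructor
  · rintro ⟨n, hn⟩
    unfold edgeT at hn
    split_ifs at hn with h1 h2
    · subst hn
      exact Or.inl ⟨rfl, h1.2⟩
    · subst hn
      exact Or.inr (Or.inl ⟨h2.2, rfl⟩)
    · exact Or.inr (Or.inr hn)
  · rintro (⟨h1, h2⟩ | ⟨h1, h2⟩ | rfl)
    · refine ⟨0, ?_⟩
      subst h1
      simp [edgeT, h2]
    · refine ⟨1, ?_⟩
      subst h2
      simp [edgeT, h1]
    · exact ⟨2, by simp [edgeT]⟩

lemma coded_edgeT (hR : ArithClosed R) {T T' : X R → X R} (hT : CodedOne R T)
    (hT' : CodedOne R T') : CodedMap R (edgeT T T') := by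
  have h1 : Coded R (fun x (n : ℕ) => n = 0 ∧ T' (T x) = x) :=
    (Coded.of_primrec hR (Primrec.eq.comp Primrec.id (Primrec.const 0))).and hR
      (CodedMap.eq hR ((CodedOne.comp hR hT' hT).family hR) (CodedMap.id hR))
  have h2 : Coded R (fun x (n : ℕ) => n = 1 ∧ T (T' x) = x) :=
    (Coded.of_primrec hR (Primrec.eq.comp Primrec.id (Primrec.const 1))).and hR
      (CodedMap.eq hR ((CodedOne.comp hR hT hT').family hR) (CodedMap.id hR))
  have h3 := CodedMap.ite hR (hT.family hR) (CodedMap.ite hR (hT'.family hR)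
    (CodedMap.id hR) h2) h1
  convert h3 using 3 with n x
  unfold edgeT
  by_cases c1 : n = 0 ∧ T' (T x) = x
  · rw [if_pos c1, if_pos c1]
  · rw [if_neg c1, if_neg c1]
    by_cases c2 : n = 1 ∧ T (T' x) = x
    · rw [if_pos c2, if_pos c2]
    · rw [if_neg c2, if_neg c2]

lemma edgeT_finite (T T' : X R → X R) (x : X R) : {y | relT (edgeT T T') x y}.Finite := by
  apply ((Set.finite_singleton x).insert (T x) |>.insert (T' x)).subset
  intro y hy
  rcases relT_edgeT.1 hy with ⟨h, _⟩ | ⟨_, h⟩ | h
  · simp [h]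
  · simp [h]
  · simp [h]

lemma edgeT_ER {T T' : X R → X R} (hR : ArithClosed R) (hT : CodedOne R T)
    (hT' : CodedOne R T') {x y : X R} (h : relT (edgeT T T') x y) : ER R x y := by
  rcases relT_edgeT.1 h with ⟨h1, h2⟩ | ⟨h1, h2⟩ | rfl
  · exact ⟨⟨T, hT, h1⟩, T', hT', h2⟩
  · exact ⟨⟨T', hT', h2⟩, T, hT, h1⟩
  · exact (equivalence_ER hR).refl x

/-! ### measurability -/

lemma measurableSet_init (p : List Bool) : MeasurableSet {x : X R | Init p x.1} :=
  measurable_subtype_coe (isOpen_init p).measurableSet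

lemma Coded.measurableSet {α : Type} [Primcodable α] {P : X R → α → Prop} (hP : Coded R P)
    (a : α) : MeasurableSet {x | P x a} := by
  obtain ⟨C, _, _, h3⟩ := hP
  have : {x | P x a} = ⋃ p : List Bool, ⋃ (_ : C (p, a)), {x : X R | Init p x.1} := by
    ext x
    simp only [Set.mem_ofPred_eq, Set.mem_iUnion, exists_prop]
    rw [h3]
    exact ⟨fun ⟨p, h1, h2⟩ => ⟨p, h2, h1⟩, fun ⟨p, h1, h2⟩ => ⟨p, h2, h1⟩⟩
  rw [this]
  exact MeasurableSet.iUnion fun p => MeasurableSet.iUnion fun _ => measurableSet_init p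

lemma CodedMap.measurable {α : Type} [Primcodable α] {T : α → X R → X R} (hT : CodedMap R T)
    (a : α) : Measurable (T a) := by
  apply Measurable.subtype_mk
  rw [measurable_pi_iff]
  intro n
  apply measurable_to_bool
  exact Coded.measurableSet hT (a, n)

lemma measurableSet_relT {T : ℕ → X R → X R} (hT : CodedMap R T) :
    MeasurableSet {p : X R × X R | relT T p.1 p.2} := by
  have : {p : X R × X R | relT T p.1 p.2} =
      ⋃ i, ⋂ n, {p : X R × X R | (T i p.1).1 n = p.2.1 n} := by
    ext p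
    simp only [Set.mem_ofPred_eq, Set.mem_iUnion, Set.mem_iInter]
    constructor
    · rintro ⟨i, hi⟩
      exact ⟨i, fun n => by rw [hi]⟩
    · rintro ⟨i, hi⟩
      exact ⟨i, Subtype.ext (funext hi)⟩
  rw [this]
  refine MeasurableSet.iUnion fun i => MeasurableSet.iInter fun n => ?_
  have h1 : Measurable (fun p : X R × X R => (T i p.1).1 n) :=
    (measurable_pi_apply n).comp (measurable_subtype_coe.comp
      ((hT.measurable i).comp measurable_fst))
  have h2 : Measurable (fun p : X R × X R => p.2.1 n) :=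
    (measurable_pi_apply n).comp (measurable_subtype_coe.comp measurable_snd)
  exact measurableSet_eq_fun h1 h2

/-- the combinatorial theorem -/
theorem hyperfinite_ER (hR : ArithClosed R) (hc : R.Countable) : Hyperfinite (ER R) := by
  -- enumerate the pairs of coded maps
  have hcount : {T : X R → X R | CodedOne R T}.Countable := countable_codedOne hc
  obtain ⟨Θ, hΘ⟩ := hcount.exists_eq_range ⟨_, codedOne_id hR⟩
  have hΘc : ∀ n, CodedOne R (Θ n) := fun n => by
    have : Θ n ∈ {T : X R → X R | CodedOne R T} := by rw [hΘ]; exact ⟨n, rfl⟩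
    exact this
  have hΘs : ∀ T, CodedOne R T → ∃ n, Θ n = T := fun T hT => by
    have : T ∈ Set.range Θ := by rw [← hΘ]; exact hT
    exact this
  have hE := equivalence_ER hR
  -- the base graphs
  let e : ℕ → ℕ → X R → X R := fun k => edgeT (Θ k.unpair.1) (Θ k.unpair.2)
  let B : ℕ → ℕ → X R → X R := fun n => Nat.rec (e 0) (fun k b => joinT b (e (k + 1))) n
  have hB0 : B 0 = e 0 := rfl
  have hBs : ∀ n, B (n + 1) = joinT (B n) (e (n + 1)) := fun _ => rfl
  have heB : ∀ n k, k ≤ n → ∀ x y, relT (e k) x y → relT (B n) x y := by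
    intro n
    induction n with
    | zero =>
      intro k hk x y h
      have : k = 0 := by omega
      subst this
      exact h
    | succ n ih =>
      intro k hk x y h
      rw [hBs, relT_joinT]
      rcases Nat.lt_or_ge k (n + 1) with hk' | hk'
      · exact Or.inl (ih k (by omega) x y h)
      · have : k = n + 1 := by omega
        subst this
        exact Or.inr h
  have hBc : ∀ n, CodedMap R (B n) := by
    intro n
    induction n with
    | zero => exact coded_edgeT hR (hΘc _) (hΘc _)
    | succ n ih =>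
      rw [hBs]
      exact coded_joinT hR ih (coded_edgeT hR (hΘc _) (hΘc _))
  have hBsymm : ∀ n x y, relT (B n) x y → relT (B n) y x := by
    intro n
    induction n with
    | zero =>
      intro x y h
      have h1 := relT_edgeT.1 h
      exact relT_edgeT.2 (by tauto)
    | succ n ih =>
      intro x y h
      rw [hBs, relT_joinT] at h ⊢
      rcases h with h | h
      · exact Or.inl (ih _ _ h)
      · have h1 := relT_edgeT.1 h
        exact Or.inr (relT_edgeT.2 (by tauto))
  have hBfin : ∀ n x, {y | relT (B n) x y}.Finite := by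
    intro n
    induction n with
    | zero => intro x; exact edgeT_finite _ _ x
    | succ n ih =>
      intro x
      apply ((ih x).union (edgeT_finite (Θ (n + 1).unpair.1) (Θ (n + 1).unpair.2) x)).subset
      intro y hy
      have hy' : relT (B (n + 1)) x y := hy
      rw [hBs, relT_joinT] at hy'
      exact hy'
  have hBE : ∀ n x y, relT (B n) x y → ER R x y := by
    intro n
    induction n with
    | zero => intro x y h; exact edgeT_ER hR (hΘc _) (hΘc _) h
    | succ n ih =>
      intro x y h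
      rw [hBs, relT_joinT] at h
      rcases h with h | h
      · exact ih _ _ h
      · exact edgeT_ER hR (hΘc _) (hΘc _) h
  -- the finite relations
  let St : Type := {F : ℕ → X R → X R // CodedMap R F ∧ Equivalence (relT F) ∧
    (∀ x, {y | relT F x y}.Finite) ∧ ∀ x y, relT F x y → ER R x y}
  have hstep : ∀ (n : ℕ) (F : St), ∃ F' : St, (∀ x y, relT F.1 x y → relT F'.1 x y) ∧
      ∀ x y z, relT (B n) x y → relT (B n) x z → relT (B n) y z →
        relT F'.1 x y ∨ relT F'.1 x z ∨ relT F'.1 y z := by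
    rintro n ⟨F, hF1, hF2, hF3, hF4⟩
    obtain ⟨F', h1, h2, h3, h4, h5, h6⟩ := exists_next_rel hR hc (G := joinT F (B n)) (F := F)
      (coded_joinT hR hF1 (hBc n)) hF1 (fun x => relT_joinT.2 (Or.inl (hF2.refl x)))
      (by
        intro x y h
        rw [relT_joinT] at h ⊢
        exact h.imp (fun h => hF2.symm h) (fun h => hBsymm n _ _ h))
      (by
        intro x
        apply ((hF3 x).union (hBfin n x)).subset
        intro y hy
        exact relT_joinT.1 hy)
      hF2 (fun x y h => relT_joinT.2 (Or.inl h))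
    refine ⟨⟨F', h1, h2, h3, ?_⟩, h4, ?_⟩
    · intro x y h
      have h' := h5 x y h
      clear h
      induction h' with
      | refl => exact hE.refl x
      | tail _ hbc ih =>
        rcases relT_joinT.1 hbc with h | h
        · exact hE.trans ih (hF4 _ _ h)
        · exact hE.trans ih (hBE n _ _ h)
    · intro x y z hxy hxz hyz
      exact h6 x y z (relT_joinT.2 (Or.inr hxy)) (relT_joinT.2 (Or.inr hxz))
        (relT_joinT.2 (Or.inr hyz))
  choose next hnext1 hnext2 using hstep
  have hF0 : ∃ F : St, True := by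
    refine ⟨⟨fun _ x => x, CodedMap.id hR, ?_, ?_, ?_⟩, trivial⟩
    · exact ⟨fun x => ⟨0, rfl⟩, fun ⟨_, h⟩ => ⟨0, h.symm⟩,
        fun ⟨_, h⟩ ⟨_, h'⟩ => ⟨0, h.trans h'⟩⟩
    · intro x
      apply (Set.finite_singleton x).subset
      rintro y ⟨_, h⟩
      exact h.symm
    · rintro x y ⟨_, rfl⟩
      exact hE.refl x
  obtain ⟨F0, -⟩ := hF0
  let F : ℕ → St := fun n => Nat.rec F0 (fun k F => next k F) n
  have hFs : ∀ n, F (n + 1) = next n (F n) := fun _ => rfl
  apply hyperfinite_of_two_of_three (ER R) hE (fun k => Θ k.unpair.1)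
    (fun k => CodedMap.measurable (hΘc _) ()) (fun k => {x | Θ k.unpair.2 (Θ k.unpair.1 x) = x})
    (fun k => (CodedMap.eq hR (CodedOne.comp hR (hΘc k.unpair.2) (hΘc k.unpair.1))
      (codedOne_id hR)).measurableSet ()) _ (fun n => relT (F n).1)
    (fun n => (F n).2.2.1) (fun n => measurableSet_relT (F n).2.1) (fun n => (F n).2.2.2.1)
    (fun n x y h => hnext1 n (F n) x y h) (fun n x y h => (F n).2.2.2.2 x y h)
  · intro x y z hxy hxz
    have hedge : ∀ x y, ER R x y → ∃ k, relT (e k) x y := by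
      rintro x y ⟨⟨T, hT, h1⟩, T', hT', h2⟩
      obtain ⟨i, rfl⟩ := hΘs T hT
      obtain ⟨j, rfl⟩ := hΘs T' hT'
      refine ⟨Nat.pair i j, relT_edgeT.2 (Or.inl ?_)⟩
      simp [h1, h2]
    obtain ⟨a, ha⟩ := hedge x y hxy
    obtain ⟨b, hb⟩ := hedge x z hxz
    obtain ⟨c, hc'⟩ := hedge y z (hE.trans (hE.symm hxy) hxz)
    set n := max a (max b c) with hn
    exact ⟨n + 1, hnext2 n (F n) x y z (heB n a (by omega) _ _ ha) (heB n b (by omega) _ _ hb)
      (heB n c (by omega) _ _ hc')⟩
  · intro x y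
    constructor
    · rintro ⟨⟨T, hT, h1⟩, T', hT', h2⟩
      obtain ⟨i, rfl⟩ := hΘs T hT
      obtain ⟨j, rfl⟩ := hΘs T' hT'
      refine ⟨Nat.pair i j, ?_, ?_⟩
      · simp [h1, h2]
      · simp [h1]
    · rintro ⟨k, h1, h2⟩
      have h1 : Θ k.unpair.2 (Θ k.unpair.1 x) = x := h1
      have h2 : Θ k.unpair.1 x = y := h2
      rw [h2] at h1
      exact ⟨⟨_, hΘc _, h2⟩, _, hΘc _, h1⟩

end

end Pool.Agent.Lib.MP_f12a7c_lc
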