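import Mathlib

/-!
# Equality of Cohen generic extensions: the definitions used in the statement

Sets are elements of `ZFSet.{0}`, the type of (small) sets of Mathlib; a countable standard model
is a countable transitive class `M : Set ZFSet` satisfying the axioms of ZFC.
-/

namespace Pool.Agent.Lib.MP_f12a7c_lc

/-! ## First-order formulas of set theory and satisfaction -/

/-- Terms: variables `v₀, v₁, …` or parameters from `A`. -/
inductive Tm (A : Type*) where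
  | var : ℕ → Tm A
  | cst : A → Tm A

/-- First-order formulas in the language `{∈}` with parameters from `A` (de Bruijn indices: the
quantifier `all φ` binds the variable `0` of `φ` and shifts the others). -/
inductive Fml (A : Type*) where
  | mem : Tm A → Tm A → Fml A
  | eq : Tm A → Tm A → Fml A
  | neg : Fml A → Fml A
  | and : Fml A → Fml A → Fml A
  | all : Fml A → Fml A

/-- The value of a term under an assignment. -/
def Tm.val {A : Type*} (v : ℕ → A) : Tm A → A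
  | .var n => v n
  | .cst a => a

/-- The assignment giving the value `a` to the variable `0` and `v n` to the variable `n + 1`. -/
def scons {A : Type*} (a : A) (v : ℕ → A) : ℕ → A
  | 0 => a
  | n + 1 => v n

/-- Tarski's satisfaction relation of the structure `(M, ∈)`. -/
def Sat (M : Set ZFSet.{0}) : Fml M → (ℕ → M) → Prop
  | .mem s t, v => (s.val v).1 ∈ (t.val v).1
  | .eq s t, v => s.val v = t.val v
  | .neg φ, v => ¬ Sat M φ v
  | .and φ ψ, v => Sat M φ v ∧ Sat M ψ v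
  | .all φ, v => ∀ a : M, Sat M φ (scons a v)

/-- `M` is a transitive model of ZFC: `M` is transitive and every axiom of ZFC is true in
`(M, ∈)`. -/
structure IsTransitiveModel (M : Set ZFSet.{0}) : Prop where
  /-- `M` is transitive -/
  transitive : ∀ x ∈ M, ∀ y ∈ x, y ∈ M
  /-- extensionality -/
  extensionality : ∀ a b : M, (∀ z : M, z.1 ∈ a.1 ↔ z.1 ∈ b.1) → a = b
  /-- foundation -/
  foundation : ∀ a : M, (∃ z : M, z.1 ∈ a.1) →
    ∃ z : M, z.1 ∈ a.1 ∧ ∀ w : M, w.1 ∈ z.1 → ¬ w.1 ∈ a.1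
  /-- pairing -/
  pairing : ∀ a b : M, ∃ c : M, ∀ z : M, z.1 ∈ c.1 ↔ z = a ∨ z = b
  /-- union -/
  union : ∀ a : M, ∃ u : M, ∀ z : M, z.1 ∈ u.1 ↔ ∃ y : M, y.1 ∈ a.1 ∧ z.1 ∈ y.1
  /-- power set -/
  powerset : ∀ a : M, ∃ p : M, ∀ z : M, z.1 ∈ p.1 ↔ ∀ w : M, w.1 ∈ z.1 → w.1 ∈ a.1
  /-- infinity: there is an inductive set -/
  infinity : ∃ a : M, (∃ e : M, (∀ z : M, ¬ z.1 ∈ e.1) ∧ e.1 ∈ a.1) ∧
    ∀ x : M, x.1 ∈ a.1 → ∃ y : M, y.1 ∈ a.1 ∧ ∀ z : M, z.1 ∈ y.1 ↔ z.1 ∈ x.1 ∨ z = x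
  /-- the schema of separation (all formulas, with parameters) -/
  separation : ∀ (φ : Fml M) (v : ℕ → M) (a : M),
    ∃ b : M, ∀ z : M, z.1 ∈ b.1 ↔ z.1 ∈ a.1 ∧ Sat M φ (scons z v)
  /-- the schema of replacement (all formulas, with parameters) -/
  replacement : ∀ (φ : Fml M) (v : ℕ → M) (a : M),
    (∀ x : M, x.1 ∈ a.1 → ∃! y : M, Sat M φ (scons y (scons x v))) →
    ∃ b : M, ∀ y : M, y.1 ∈ b.1 ↔ ∃ x : M, x.1 ∈ a.1 ∧ Sat M φ (scons y (scons x v))
  /-- choice: a set of pairwise disjoint nonempty sets has a transversal -/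
  choice : ∀ a : M, (∀ x : M, x.1 ∈ a.1 → ∃ z : M, z.1 ∈ x.1) →
    (∀ x y : M, x.1 ∈ a.1 → y.1 ∈ a.1 → x ≠ y → ∀ z : M, ¬ (z.1 ∈ x.1 ∧ z.1 ∈ y.1)) →
    ∃ c : M, ∀ x : M, x.1 ∈ a.1 → ∃! z : M, z.1 ∈ x.1 ∧ z.1 ∈ c.1

/-! ## Cohen forcing -/

/-- The von Neumann numeral of `n`. -/
noncomputable def natZ : ℕ → ZFSet.{0}
  | 0 => ∅
  | n + 1 => insert (natZ n) (natZ n)

/-- The sets `0 = ∅` and `1 = {∅}`. -/
noncomputable def bitZ : Bool → ZFSet.{0}
  | false => natZ 0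
  | true => natZ 1

/-- The restriction of `x` to `{0, …, n-1}`, as a set of ordered pairs. -/
noncomputable def strZ (x : ℕ → Bool) : ℕ → ZFSet.{0}
  | 0 => ∅
  | n + 1 => insert (ZFSet.pair (natZ n) (bitZ (x n))) (strZ x n)

/-- Cohen forcing `2^{<ω}`: the finite binary strings. -/
def CohenP : Set ZFSet.{0} := {p | ∃ (x : ℕ → Bool) (n : ℕ), p = strZ x n}

/-- The filter of the initial segments of `x`. -/
def filt (x : ℕ → Bool) : Set ZFSet.{0} := {p | ∃ n : ℕ, p = strZ x n}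

/-- `x` is Cohen generic over `M`: it meets every dense subset of `2^{<ω}` that belongs to `M`. -/
def CohenGeneric (M : Set ZFSet.{0}) (x : ℕ → Bool) : Prop :=
  ∀ D ∈ M, (∀ p ∈ D, p ∈ CohenP) → (∀ p ∈ CohenP, ∃ q ∈ D, p ⊆ q) → ∃ p ∈ D, p ∈ filt x

/-- The names for Cohen forcing: sets of pairs `(σ, p)` with `σ` a name and `p` a condition. -/
inductive IsName : ZFSet.{0} → Prop
  | mk (τ : ZFSet.{0}) (h₁ : ∀ z ∈ τ, ∃ σ, ∃ p ∈ CohenP, z = ZFSet.pair σ p)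
      (h₂ : ∀ σ p, ZFSet.pair σ p ∈ τ → IsName σ) : IsName τ

lemma rank_fst_lt {σ p τ : ZFSet.{0}} (h : ZFSet.pair σ p ∈ τ) : σ.rank < τ.rank := by
  have h1 := ZFSet.rank_lt_of_mem h
  have h2 : ({σ} : ZFSet.{0}) ∈ ZFSet.pair σ p := by
    rw [ZFSet.pair]; simp
  have h3 := ZFSet.rank_lt_of_mem h2
  have h4 : σ ∈ ({σ} : ZFSet.{0}) := by simp
  exact (ZFSet.rank_lt_of_mem h4).trans (h3.trans h1)

instance small_dom (G : Set ZFSet.{0}) (τ : ZFSet.{0}) :
    Small.{0} {σ : ZFSet.{0} // ∃ p ∈ G, ZFSet.pair σ p ∈ τ} := by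
  have hsub : ∀ σ : {σ : ZFSet.{0} // ∃ p ∈ G, ZFSet.pair σ p ∈ τ},
      σ.1 ∈ ZFSet.sUnion (ZFSet.sUnion τ) := by
    rintro ⟨σ, p, _, h⟩
    have h2 : ({σ} : ZFSet.{0}) ∈ ZFSet.pair σ p := by
      rw [ZFSet.pair]; simp
    have h3 : ({σ} : ZFSet.{0}) ∈ ZFSet.sUnion τ := ZFSet.mem_sUnion_of_mem h2 h
    have h4 : σ ∈ ({σ} : ZFSet.{0}) := by simp
    exact ZFSet.mem_sUnion_of_mem h4 h3
  exact small_of_injective
    (f := fun σ => (⟨σ.1, hsub σ⟩ : (ZFSet.sUnion (ZFSet.sUnion τ) : ZFSet.{0})))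
    (fun a b h => Subtype.ext (by simpa using h))

/-- The evaluation of a name: `val G τ = {val G σ : ∃ p ∈ G, (σ, p) ∈ τ}`. -/
noncomputable def val (G : Set ZFSet.{0}) (τ : ZFSet.{0}) : ZFSet.{0} :=
  ZFSet.range (fun i : {σ : ZFSet.{0} // ∃ p ∈ G, ZFSet.pair σ p ∈ τ} => val G i.1)
termination_by τ.rank
decreasing_by
  obtain ⟨σ, p, hp, h⟩ := i
  exact rank_fst_lt h

lemma mem_val {G : Set ZFSet.{0}} {τ y : ZFSet.{0}} :
    y ∈ val G τ ↔ ∃ σ p, p ∈ G ∧ ZFSet.pair σ p ∈ τ ∧ val G σ = y := by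
  rw [val]
  simp only [ZFSet.mem_range, Subtype.exists]
  constructor
  · rintro ⟨σ, ⟨p, hp, h⟩, hy⟩
    exact ⟨σ, p, hp, h, hy⟩
  · rintro ⟨σ, p, hp, h, hy⟩
    exact ⟨σ, ⟨p, hp, h⟩, hy⟩

/-- The generic extension `M[x]`: the evaluations of the names in `M`. -/
def genExt (M : Set ZFSet.{0}) (x : ℕ → Bool) : Set ZFSet.{0} :=
  {y | ∃ τ ∈ M, IsName τ ∧ y = val (filt x) τ}

/-- The space `X_M` of the Cohen generic reals over `M`. -/
abbrev GenericReals (M : Set ZFSet.{0}) : Type := {x : ℕ → Bool // CohenGeneric M x}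

/-- The relation `E_M` on `X_M`: equality of the generic extensions. -/
def EM (M : Set ZFSet.{0}) (x y : GenericReals M) : Prop := genExt M x.1 = genExt M y.1

/-- Hyperfiniteness: `E` is the union of an increasing sequence of Borel equivalence relations all
of whose classes are finite. -/
def Hyperfinite {X : Type*} [MeasurableSpace X] (E : X → X → Prop) : Prop :=
  ∃ F : ℕ → X → X → Prop, (∀ n, Equivalence (F n)) ∧ (∀ n x, {y | F n x y}.Finite) ∧
    (∀ n, MeasurableSet {p : X × X | F n p.1 p.2}) ∧ (∀ n x y, F n x y → F (n + 1) x y) ∧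
    ∀ x y, E x y ↔ ∃ n, F n x y

end Pool.Agent.Lib.MP_f12a7c_lc
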