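import Pool.Agent.Lib.MP_f12a7c_lc.Defs

/-!
# Definability calculus for a transitive model

A context `Γ` is an iterated product `((PUnit × M) × M) × ...`; a predicate on a context is
`Dfn M P` if it is given by a first-order formula with parameters from `M`, and a function from a
context to `M` is `DF f` if its graph is definable.
-/

namespace Pool.Agent.Lib.MP_f12a7c_lc

set_option linter.unusedSectionVars false

section Subst

variable {A : Type*}

/-- Substitution of terms for variables. -/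
def Tm.subst (σ : ℕ → Tm A) : Tm A → Tm A
  | .var n => σ n
  | .cst a => .cst a

/-- Shift of the variables of a term. -/
def Tm.shift : Tm A → Tm A
  | .var n => .var (n + 1)
  | .cst a => .cst a

/-- Lifting a substitution below a quantifier. -/
def liftS (σ : ℕ → Tm A) : ℕ → Tm A
  | 0 => .var 0
  | n + 1 => (σ n).shift

/-- Substitution in formulas. -/
def Fml.subst : Fml A → (ℕ → Tm A) → Fml A
  | .mem s t, σ => .mem (s.subst σ) (t.subst σ)
  | .eq s t, σ => .eq (s.subst σ) (t.subst σ)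
  | .neg φ, σ => .neg (φ.subst σ)
  | .and φ ψ, σ => .and (φ.subst σ) (ψ.subst σ)
  | .all φ, σ => .all (φ.subst (liftS σ))

lemma Tm.val_subst (t : Tm A) (σ : ℕ → Tm A) (v : ℕ → A) :
    (t.subst σ).val v = t.val (fun i => (σ i).val v) := by
  cases t <;> rfl

lemma Tm.val_shift (t : Tm A) (a : A) (v : ℕ → A) : t.shift.val (scons a v) = t.val v := by
  cases t <;> rfl

lemma val_liftS (σ : ℕ → Tm A) (a : A) (v : ℕ → A) :
    (fun i => (liftS σ i).val (scons a v)) = scons a (fun i => (σ i).val v) := by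
  funext i
  cases i with
  | zero => rfl
  | succ i => exact Tm.val_shift _ _ _

lemma sat_subst {M : Set ZFSet.{0}} (φ : Fml M) : ∀ (σ : ℕ → Tm M) (v : ℕ → M),
    Sat M (φ.subst σ) v ↔ Sat M φ (fun i => (σ i).val v) := by
  induction φ with
  | mem s t => intro σ v; simp only [Fml.subst, Sat, Tm.val_subst]
  | eq s t => intro σ v; simp only [Fml.subst, Sat, Tm.val_subst]
  | neg φ ih => intro σ v; simp only [Fml.subst, Sat, ih]
  | and φ ψ ih1 ih2 => intro σ v; simp only [Fml.subst, Sat, ih1, ih2]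
  | all φ ih => intro σ v; simp only [Fml.subst, Sat, ih, val_liftS]

end Subst

/-- `M` is a transitive model of ZFC (as a class). -/
class Model (M : Set ZFSet.{0}) : Prop where
  out : IsTransitiveModel M

section

variable {M : Set ZFSet.{0}} [hM : Model M]

lemma trans_mem {x y : ZFSet.{0}} (hx : x ∈ M) (hy : y ∈ x) : y ∈ M :=
  hM.out.transitive x hx y hy

/-- Extensionality for elements of `M`. -/
lemma extM {a b : M} (h : ∀ z : M, z.1 ∈ a.1 ↔ z.1 ∈ b.1) : a = b :=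
  hM.out.extensionality a b h

lemma empty_mem : (∅ : ZFSet.{0}) ∈ M := by
  obtain ⟨a, ⟨e, he, _⟩, _⟩ := hM.out.infinity
  have : e.1 = ∅ := by
    rw [ZFSet.eq_empty]
    intro y hy
    exact he ⟨y, trans_mem e.2 hy⟩ hy
  rw [← this]
  exact e.2

/-- The empty set as an element of `M`. -/
def emptyM : M := ⟨∅, empty_mem⟩

/-- Contexts. -/
class Ctx (M : Set ZFSet.{0}) (Γ : Type 1) where
  /-- the assignment given by a point of the context -/
  env : Γ → ℕ → M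

instance Ctx.unit : Ctx M PUnit.{2} := ⟨fun _ _ => emptyM⟩

instance Ctx.prod {Γ : Type 1} [Ctx M Γ] : Ctx M (Γ × M) := ⟨fun γ => scons γ.2 (Ctx.env γ.1)⟩

/-- The empty context. -/
abbrev C0 : Type 1 := PUnit.{2}
/-- The context with one variable. -/
abbrev C1 (M : Set ZFSet.{0}) : Type 1 := C0 × M
/-- The context with two variables. -/
abbrev C2 (M : Set ZFSet.{0}) : Type 1 := C1 M × M
/-- The context with three variables. -/
abbrev C3 (M : Set ZFSet.{0}) : Type 1 := C2 M × M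

variable {Γ Δ : Type 1} [Ctx M Γ] [Ctx M Δ]

/-- Definable predicates (with parameters). -/
def Dfn (M : Set ZFSet.{0}) {Γ : Type 1} [Ctx M Γ] (P : Γ → Prop) : Prop :=
  ∃ φ : Fml M, ∀ γ, Sat M φ (Ctx.env γ) ↔ P γ

/-- Definable functions (with parameters). -/
def DF {M : Set ZFSet.{0}} [Model M] {Γ : Type 1} [Ctx M Γ] (f : Γ → M) : Prop :=
  Dfn M (fun p : Γ × M => p.2 = f p.1)

/-- Maps between contexts given by terms. -/
def IsSub (M : Set ZFSet.{0}) {Γ Δ : Type 1} [Ctx M Γ] [Ctx M Δ] (ρ : Γ → Δ) : Prop :=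
  ∃ σ : ℕ → Tm M, ∀ γ i, Ctx.env (ρ γ) i = (σ i).val (Ctx.env γ : ℕ → M)

namespace IsSub

omit hM in
lemma id : IsSub M (fun γ : Γ => γ) := ⟨fun i => .var i, fun _ _ => rfl⟩

omit hM in
lemma fst : IsSub M (fun p : Γ × M => p.1) := ⟨fun i => .var (i + 1), fun _ _ => rfl⟩

omit hM in
lemma lift {ρ : Γ → Δ} (h : IsSub M ρ) : IsSub M (fun p : Γ × M => (ρ p.1, p.2)) := by
  obtain ⟨σ, hσ⟩ := h
  refine ⟨liftS σ, ?_⟩
  rintro ⟨γ, a⟩ i
  cases i with
  | zero => rfl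
  | succ i =>
    have h1 := hσ γ i
    change Ctx.env (ρ γ) i = ((σ i).shift).val (scons a (Ctx.env γ))
    rw [h1, Tm.val_shift]

lemma unit : IsSub M (fun _ : Γ => (PUnit.unit : C0)) := ⟨fun _ => .cst emptyM, fun _ _ => rfl⟩

/-- add a value given by a constant -/
lemma cst {ρ : Γ → Δ} (h : IsSub M ρ) (a : M) : IsSub M (fun γ : Γ => (ρ γ, a)) := by
  obtain ⟨σ, hσ⟩ := h
  refine ⟨fun i => match i with | 0 => .cst a | n + 1 => σ n, ?_⟩
  rintro γ i
  cases i with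
  | zero => rfl
  | succ i => exact hσ γ i

/-- add a copy of the last variable -/
lemma snd {ρ : Γ × M → Δ} (h : IsSub M ρ) : IsSub M (fun p : Γ × M => (ρ p, p.2)) := by
  obtain ⟨σ, hσ⟩ := h
  refine ⟨fun i => match i with | 0 => .var 0 | n + 1 => σ n, ?_⟩
  rintro γ i
  cases i with
  | zero => rfl
  | succ i => exact hσ γ i

end IsSub

namespace Dfn

omit hM in
lemma reindex {P : Δ → Prop} (h : Dfn M P) {ρ : Γ → Δ} (hρ : IsSub M ρ) :
    Dfn M (fun γ => P (ρ γ)) := by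
  obtain ⟨φ, hφ⟩ := h
  obtain ⟨σ, hσ⟩ := hρ
  refine ⟨φ.subst σ, fun γ => ?_⟩
  have : (fun i => (σ i).val (Ctx.env γ)) = Ctx.env (ρ γ) := funext fun i => (hσ γ i).symm
  rw [sat_subst, this]
  exact hφ _

omit hM in
lemma of_iff {P Q : Γ → Prop} (h : Dfn M P) (hPQ : ∀ γ, Q γ ↔ P γ) : Dfn M Q := by
  obtain ⟨φ, hφ⟩ := h
  exact ⟨φ, fun γ => (hφ γ).trans (hPQ γ).symm⟩

omit hM in
lemma not {P : Γ → Prop} (h : Dfn M P) : Dfn M (fun γ => ¬ P γ) := by
  obtain ⟨φ, hφ⟩ := h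
  exact ⟨.neg φ, fun γ => not_congr (hφ γ)⟩

omit hM in
lemma and {P Q : Γ → Prop} (hP : Dfn M P) (hQ : Dfn M Q) : Dfn M (fun γ => P γ ∧ Q γ) := by
  obtain ⟨φ, hφ⟩ := hP
  obtain ⟨ψ, hψ⟩ := hQ
  exact ⟨.and φ ψ, fun γ => and_congr (hφ γ) (hψ γ)⟩

omit hM in
lemma all {P : Γ → M → Prop} (h : Dfn M (fun p : Γ × M => P p.1 p.2)) :
    Dfn M (fun γ => ∀ a : M, P γ a) := by
  obtain ⟨φ, hφ⟩ := h
  exact ⟨.all φ, fun γ => forall_congr' fun a => hφ (γ, a)⟩

omit hM in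
lemma or {P Q : Γ → Prop} (hP : Dfn M P) (hQ : Dfn M Q) : Dfn M (fun γ => P γ ∨ Q γ) :=
  ((hP.not.and hQ.not).not).of_iff fun γ => by tauto

omit hM in
lemma imp {P Q : Γ → Prop} (hP : Dfn M P) (hQ : Dfn M Q) : Dfn M (fun γ => P γ → Q γ) :=
  (hP.not.or hQ).of_iff fun γ => by tauto

omit hM in
lemma iff {P Q : Γ → Prop} (hP : Dfn M P) (hQ : Dfn M Q) : Dfn M (fun γ => (P γ ↔ Q γ)) :=
  ((hP.imp hQ).and (hQ.imp hP)).of_iff fun γ => by tauto

omit hM in
lemma ex {P : Γ → M → Prop} (h : Dfn M (fun p : Γ × M => P p.1 p.2)) :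
    Dfn M (fun γ => ∃ a : M, P γ a) :=
  (all (P := fun γ a => ¬ P γ a) h.not).not.of_iff fun γ => by simp

omit hM in
lemma wk {P : Γ → Prop} (h : Dfn M P) : Dfn M (fun p : Γ × M => P p.1) := h.reindex IsSub.fst

omit hM in
/-- dropping the last but one variable -/
lemma wk₂ {P : Γ → M → Prop} (h : Dfn M (fun p : Γ × M => P p.1 p.2)) :
    Dfn M (fun q : (Γ × M) × M => P q.1.1 q.2) :=
  h.reindex (P := fun p : Γ × M => P p.1 p.2) (IsSub.fst.lift)

end Dfn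

namespace DF

lemma wk {f : Γ → M} (h : DF f) : DF (fun p : Γ × M => f p.1) :=
  Dfn.wk₂ (P := fun γ a => a = f γ) h

lemma wk₂ {f : Γ → M → M} (h : DF (fun p : Γ × M => f p.1 p.2)) :
    DF (fun q : (Γ × M) × M => f q.1.1 q.2) :=
  Dfn.reindex (P := fun p : (Γ × M) × M => p.2 = f p.1.1 p.1.2) h
    (ρ := fun q : ((Γ × M) × M) × M => ((q.1.1.1, q.1.2), q.2)) (IsSub.fst.lift).lift

end DF

lemma Dfn.eqAux : Dfn M (fun p : (Γ × M) × M => p.2 = p.1.2) :=
  ⟨.eq (.var 0) (.var 1), fun _ => Iff.rfl⟩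

lemma Dfn.memAux : Dfn M (fun p : (Γ × M) × M => p.2.1 ∈ p.1.2.1) :=
  ⟨.mem (.var 0) (.var 1), fun _ => Iff.rfl⟩

/-- substitution of a definable function for the last variable -/
lemma Dfn.comp {P : Γ → M → Prop} (hP : Dfn M (fun p : Γ × M => P p.1 p.2)) {f : Γ → M}
    (hf : DF f) : Dfn M (fun γ => P γ (f γ)) :=
  (Dfn.ex (P := fun γ a => a = f γ ∧ P γ a) (Dfn.and hf hP)).of_iff fun γ => by simp

lemma DF.comp {g : Γ → M → M} (hg : DF (fun p : Γ × M => g p.1 p.2)) {f : Γ → M}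
    (hf : DF f) : DF (fun γ => g γ (f γ)) := by
  have h1 : Dfn M (fun q : (Γ × M) × M => q.1.2 = g q.1.1 q.2) :=
    Dfn.reindex (P := fun q : (Γ × M) × M => q.2 = g q.1.1 q.1.2) hg
      (ρ := fun q : (Γ × M) × M => ((q.1.1, q.2), q.1.2)) (by
        refine ⟨fun i => match i with | 0 => .var 1 | 1 => .var 0 | n + 2 => .var (n + 2), ?_⟩
        rintro γ i
        match i with
        | 0 => rfl
        | 1 => rfl
        | n + 2 => rfl)
  exact Dfn.comp (P := fun (p : Γ × M) a => p.2 = g p.1 a) h1 hf.wk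

lemma DF.snd : DF (fun p : Γ × M => p.2) := Dfn.eqAux

lemma DF.const (a : M) : DF (fun _ : Γ => a) :=
  ⟨.eq (.var 0) (.cst a), fun _ => Iff.rfl⟩

lemma Dfn.mem {f g : Γ → M} (hf : DF f) (hg : DF g) : Dfn M (fun γ => (f γ).1 ∈ (g γ).1) := by
  have h1 : Dfn M (fun p : Γ × M => (f p.1).1 ∈ p.2.1) :=
    Dfn.comp (P := fun (p : Γ × M) a => a.1 ∈ p.2.1) Dfn.memAux hf.wk
  exact Dfn.comp (P := fun γ a => (f γ).1 ∈ a.1) h1 hg

lemma Dfn.eq {f g : Γ → M} (hf : DF f) (hg : DF g) : Dfn M (fun γ => f γ = g γ) := by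
  have h1 : Dfn M (fun p : Γ × M => f p.1 = p.2) :=
    Dfn.comp (P := fun (p : Γ × M) a => a = p.2) Dfn.eqAux hf.wk
  exact Dfn.comp (P := fun γ a => f γ = a) h1 hg

lemma Dfn.allB {P : Γ → M → Prop} {f : Γ → M} (hf : DF f)
    (h : Dfn M (fun p : Γ × M => P p.1 p.2)) :
    Dfn M (fun γ => ∀ a : M, a.1 ∈ (f γ).1 → P γ a) :=
  Dfn.all ((Dfn.mem DF.snd hf.wk).imp h)

lemma Dfn.exB {P : Γ → M → Prop} {f : Γ → M} (hf : DF f)
    (h : Dfn M (fun p : Γ × M => P p.1 p.2)) :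
    Dfn M (fun γ => ∃ a : M, a.1 ∈ (f γ).1 ∧ P γ a) :=
  Dfn.ex ((Dfn.mem DF.snd hf.wk).and h)

omit hM in
lemma Dfn.true : Dfn M (fun _ : Γ => True) :=
  ⟨.all (.eq (.var 0) (.var 0)), fun _ => ⟨fun _ => trivial, fun _ _ => rfl⟩⟩

omit hM in
lemma Dfn.const (p : Prop) : Dfn M (fun _ : Γ => p) := by
  by_cases h : p
  · exact Dfn.true.of_iff fun _ => by simp [h]
  · exact Dfn.true.not.of_iff fun _ => by simp [h]

/-! ### Closed predicates and functions -/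

/-- definable unary predicate -/
def D1 (P : M → Prop) : Prop := Dfn M (fun γ : C1 M => P γ.2)
/-- definable binary predicate -/
def D2 (P : M → M → Prop) : Prop := Dfn M (fun γ : C2 M => P γ.1.2 γ.2)
/-- definable ternary predicate -/
def D3 (P : M → M → M → Prop) : Prop := Dfn M (fun γ : C3 M => P γ.1.1.2 γ.1.2 γ.2)
/-- definable unary function -/
def F1 (g : M → M) : Prop := DF (fun γ : C1 M => g γ.2)
/-- definable binary function -/
def F2 (g : M → M → M) : Prop := DF (fun γ : C2 M => g γ.1.2 γ.2)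
/-- definable ternary function -/
def F3 (g : M → M → M → M) : Prop := DF (fun γ : C3 M => g γ.1.1.2 γ.1.2 γ.2)

lemma D1.app {P : M → Prop} (h : D1 P) {f : Γ → M} (hf : DF f) : Dfn M (fun γ => P (f γ)) := by
  have h1 : Dfn M (fun p : Γ × M => P p.2) :=
    Dfn.reindex (P := fun γ : C1 M => P γ.2) h (ρ := fun p : Γ × M => ((PUnit.unit, p.2) : C1 M))
      IsSub.unit.lift
  exact Dfn.comp (P := fun _ a => P a) h1 hf

lemma D2.app {P : M → M → Prop} (h : D2 P) {f g : Γ → M} (hf : DF f) (hg : DF g) :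
    Dfn M (fun γ => P (f γ) (g γ)) := by
  have h1 : Dfn M (fun p : (Γ × M) × M => P p.1.2 p.2) :=
    Dfn.reindex (P := fun γ : C2 M => P γ.1.2 γ.2) h
      (ρ := fun p : (Γ × M) × M => (((PUnit.unit, p.1.2), p.2) : C2 M))
      IsSub.unit.lift.lift
  have h2 : Dfn M (fun p : Γ × M => P p.2 (g p.1)) :=
    Dfn.comp (P := fun (p : Γ × M) a => P p.2 a) h1 hg.wk
  exact Dfn.comp (P := fun γ a => P a (g γ)) h2 hf

lemma D3.app {P : M → M → M → Prop} (h : D3 P) {f g k : Γ → M} (hf : DF f) (hg : DF g)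
    (hk : DF k) : Dfn M (fun γ => P (f γ) (g γ) (k γ)) := by
  have h1 : Dfn M (fun p : ((Γ × M) × M) × M => P p.1.1.2 p.1.2 p.2) :=
    Dfn.reindex (P := fun γ : C3 M => P γ.1.1.2 γ.1.2 γ.2) h
      (ρ := fun p : ((Γ × M) × M) × M => ((((PUnit.unit, p.1.1.2), p.1.2), p.2) : C3 M))
      IsSub.unit.lift.lift.lift
  have h2 : Dfn M (fun p : (Γ × M) × M => P p.1.2 p.2 (k p.1.1)) :=
    Dfn.comp (P := fun (p : (Γ × M) × M) a => P p.1.2 p.2 a) h1 hk.wk.wk
  have h3 : Dfn M (fun p : Γ × M => P p.2 (g p.1) (k p.1)) :=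
    Dfn.comp (P := fun (p : Γ × M) a => P p.2 a (k p.1)) h2 hg.wk
  exact Dfn.comp (P := fun γ a => P a (g γ) (k γ)) h3 hf

lemma F1.app {u : M → M} (h : F1 u) {f : Γ → M} (hf : DF f) : DF (fun γ => u (f γ)) :=
  D2.app (P := fun a b => b = u a) h hf.wk DF.snd

lemma F2.app {u : M → M → M} (h : F2 u) {f g : Γ → M} (hf : DF f) (hg : DF g) :
    DF (fun γ => u (f γ) (g γ)) :=
  D3.app (P := fun a b c => c = u a b) h hf.wk hg.wk DF.snd

/-! ### Sets defined by predicates -/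

/-- The predicate `Q` defines an element of `M`. -/
def IsSet (Q : M → Prop) : Prop := ∃ b : M, ∀ z : M, z.1 ∈ b.1 ↔ Q z

open Classical in
/-- The element of `M` defined by the predicate `Q` (the empty set if there is none). -/
noncomputable def mkM (Q : M → Prop) : M := if h : IsSet Q then h.choose else emptyM

lemma mem_mkM {Q : M → Prop} (h : IsSet Q) {z : M} : z.1 ∈ (mkM Q).1 ↔ Q z := by
  unfold mkM
  rw [dif_pos h]
  exact h.choose_spec z

/-- membership for arbitrary sets -/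
lemma mem_mkM' {Q : M → Prop} (h : IsSet Q) {z : ZFSet.{0}} :
    z ∈ (mkM Q).1 ↔ ∃ hz : z ∈ M, Q ⟨z, hz⟩ := by
  constructor
  · intro hz
    have hz' : z ∈ M := trans_mem (mkM Q).2 hz
    exact ⟨hz', (mem_mkM h (z := ⟨z, hz'⟩)).1 hz⟩
  · rintro ⟨hz, hQ⟩
    exact (mem_mkM h (z := ⟨z, hz⟩)).2 hQ

lemma eq_mkM {Q : M → Prop} (h : IsSet Q) {b : M} : b = mkM Q ↔ ∀ z : M, z.1 ∈ b.1 ↔ Q z := by
  constructor
  · rintro rfl z
    exact mem_mkM h
  · intro hb
    apply extM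
    intro z
    rw [hb z, mem_mkM h]

lemma DF.mk {P : Γ → M → Prop} (hP : Dfn M (fun p : Γ × M => P p.1 p.2))
    (hs : ∀ γ, IsSet (P γ)) : DF (fun γ => mkM (P γ)) := by
  have h1 : Dfn M (fun p : Γ × M => ∀ z : M, z.1 ∈ p.2.1 ↔ P p.1 z) :=
    Dfn.all (P := fun (p : Γ × M) z => (z.1 ∈ p.2.1 ↔ P p.1 z))
      ((Dfn.mem DF.snd DF.snd.wk).iff hP.wk₂)
  exact h1.of_iff fun p => eq_mkM (hs p.1)

/-- the function with a definable graph -/
lemma DF.of_graph {f : Γ → M} (P : Γ → M → Prop) (hP : Dfn M (fun p : Γ × M => P p.1 p.2))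
    (h : ∀ γ a, a = f γ ↔ P γ a) : DF f := hP.of_iff fun p => h p.1 p.2

lemma isSet_sep {P : Γ → M → Prop} (hP : Dfn M (fun p : Γ × M => P p.1 p.2)) (γ : Γ) (a : M) :
    IsSet (fun z : M => z.1 ∈ a.1 ∧ P γ z) := by
  obtain ⟨φ, hφ⟩ := hP
  obtain ⟨b, hb⟩ := hM.out.separation φ (Ctx.env γ) a
  exact ⟨b, fun z => (hb z).trans (and_congr Iff.rfl (hφ (γ, z)))⟩

/-- a definable class contained in a set is a set -/
lemma isSet_of_subset {P : Γ → M → Prop} (hP : Dfn M (fun p : Γ × M => P p.1 p.2)) (γ : Γ)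
    (a : M) (h : ∀ z, P γ z → z.1 ∈ a.1) : IsSet (P γ) := by
  obtain ⟨b, hb⟩ := isSet_sep hP γ a
  exact ⟨b, fun z => (hb z).trans ⟨fun h => h.2, fun hz => ⟨h z hz, hz⟩⟩⟩

lemma isSet_image {g : Γ → M → M} (hg : DF (fun p : Γ × M => g p.1 p.2)) (γ : Γ) (a : M) :
    IsSet (fun y : M => ∃ x : M, x.1 ∈ a.1 ∧ y = g γ x) := by
  obtain ⟨φ, hφ⟩ := hg
  have hφ' : ∀ x y : M, Sat M φ (scons y (scons x (Ctx.env γ))) ↔ y = g γ x :=
    fun x y => hφ ((γ, x), y)
  obtain ⟨b, hb⟩ := hM.out.replacement φ (Ctx.env γ) a (fun x _ =>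
    ⟨g γ x, (hφ' x _).2 rfl, fun y hy => (hφ' x y).1 hy⟩)
  refine ⟨b, fun y => (hb y).trans ?_⟩
  simp only [hφ']

lemma isSet_pair (a b : M) : IsSet (fun z : M => z = a ∨ z = b) := hM.out.pairing a b

lemma isSet_sUnion (a : M) : IsSet (fun z : M => ∃ y : M, y.1 ∈ a.1 ∧ z.1 ∈ y.1) :=
  hM.out.union a

lemma isSet_powerset (a : M) : IsSet (fun z : M => ∀ w : M, w.1 ∈ z.1 → w.1 ∈ a.1) :=
  hM.out.powerset a

end

end Pool.Agent.Lib.MP_f12a7c_lc
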