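import Pool.Agent.Lib.MP_f12a7c_lc.Strings

/-!
# Forcing `π = ž` and the truth lemma (II.6 b)
-/

namespace Pool.Agent.Lib.MP_f12a7c_lc

set_option linter.unusedSectionVars false

variable {M : Set ZFSet.{0}} [hM : Model M]

/-- one step of the forcing relation -/
def FStep (c0 : M) (e : M → M) (π z q : M) : Prop :=
  (∀ ρ s : M, (opairM ρ s).1 ∈ π.1 → ∀ r : M, r.1 ∈ c0.1 → (q.1 ⊆ r.1 ∧ s.1 ⊆ r.1) →
    ∃ t : M, t.1 ∈ c0.1 ∧ (r.1 ⊆ t.1 ∧ ∃ w : M, w.1 ∈ z.1 ∧ (opairM w t).1 ∈ (e ρ).1)) ∧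
  (∀ w : M, w.1 ∈ z.1 → ∀ r : M, r.1 ∈ c0.1 → q.1 ⊆ r.1 →
    ∃ t : M, t.1 ∈ c0.1 ∧ (r.1 ⊆ t.1 ∧ ∃ ρ s : M, (opairM ρ s).1 ∈ π.1 ∧ (s.1 ⊆ t.1 ∧ (opairM w t).1 ∈ (e ρ).1)))

lemma FStep_Dfn (c0 : M) : Dfn M (fun p : ((((C0 × M) × M) × M) × M) =>
    FStep c0 (appM p.1.1.2) p.1.1.1.2 p.1.2 p.2) := by
  unfold FStep
  refine Dfn.and ?_ ?_
  · refine Dfn.all (P := fun (p : ((((C0 × M) × M) × M) × M)) (ρ : M) =>
      ∀ s : M, (opairM ρ s).1 ∈ p.1.1.1.2.1 → ∀ r : M, r.1 ∈ c0.1 → (p.2.1 ⊆ r.1 ∧ s.1 ⊆ r.1) →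
      ∃ t : M, t.1 ∈ c0.1 ∧ (r.1 ⊆ t.1 ∧ ∃ w : M, w.1 ∈ p.1.2.1 ∧ (opairM w t).1 ∈ (appM p.1.1.2 ρ).1)) ?_
    refine Dfn.all (P := fun (p : (((((C0 × M) × M) × M) × M) × M)) (s : M) =>
      (opairM p.2 s).1 ∈ p.1.1.1.1.2.1 → ∀ r : M, r.1 ∈ c0.1 → (p.1.2.1 ⊆ r.1 ∧ s.1 ⊆ r.1) →
      ∃ t : M, t.1 ∈ c0.1 ∧ (r.1 ⊆ t.1 ∧ ∃ w : M, w.1 ∈ p.1.1.2.1 ∧ (opairM w t).1 ∈ (appM p.1.1.1.2 p.2).1)) ?_
    refine Dfn.imp (Dfn.mem (DF.opair DF.v1 DF.v0) (DF.snd.wk.wk.wk.wk.wk)) ?_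
    refine Dfn.allB (P := fun (p : ((((((C0 × M) × M) × M) × M) × M) × M)) (r : M) =>
      (p.1.1.2.1 ⊆ r.1 ∧ p.2.1 ⊆ r.1) →
      ∃ t : M, t.1 ∈ c0.1 ∧ (r.1 ⊆ t.1 ∧ ∃ w : M, w.1 ∈ p.1.1.1.2.1 ∧ (opairM w t).1 ∈ (appM p.1.1.1.1.2 p.1.2).1))
      (f := fun _ => c0) (DF.const c0) ?_
    refine Dfn.imp (Dfn.and (Dfn.subset DF.v3 DF.v0) (Dfn.subset DF.v1 DF.v0)) ?_
    refine Dfn.exB (P := fun (p : (((((((C0 × M) × M) × M) × M) × M) × M) × M)) (t : M) =>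
      (p.2.1 ⊆ t.1 ∧ ∃ w : M, w.1 ∈ p.1.1.1.1.2.1 ∧ (opairM w t).1 ∈ (appM p.1.1.1.1.1.2 p.1.1.2).1))
      (f := fun _ => c0) (DF.const c0) ?_
    refine Dfn.and (Dfn.subset DF.v1 DF.v0) ?_
    refine Dfn.exB (P := fun (p : ((((((((C0 × M) × M) × M) × M) × M) × M) × M) × M)) (w : M) =>
      (opairM w p.2).1 ∈ (appM p.1.1.1.1.1.1.2 p.1.1.1.2).1)
      (f := fun p => p.1.1.1.1.1.2) (DF.snd.wk.wk.wk.wk.wk) ?_
    exact Dfn.mem (DF.opair DF.v0 DF.v1) (DF.app (DF.snd.wk.wk.wk.wk.wk.wk.wk) DF.v4)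
  · refine Dfn.allB (P := fun (p : ((((C0 × M) × M) × M) × M)) (w : M) =>
      ∀ r : M, r.1 ∈ c0.1 → p.2.1 ⊆ r.1 →
      ∃ t : M, t.1 ∈ c0.1 ∧ (r.1 ⊆ t.1 ∧ ∃ ρ s : M, (opairM ρ s).1 ∈ p.1.1.1.2.1 ∧
        (s.1 ⊆ t.1 ∧ (opairM w t).1 ∈ (appM p.1.1.2 ρ).1))) (f := fun p => p.1.2) DF.v1 ?_
    refine Dfn.allB (P := fun (p : (((((C0 × M) × M) × M) × M) × M)) (r : M) =>
      p.1.2.1 ⊆ r.1 →
      ∃ t : M, t.1 ∈ c0.1 ∧ (r.1 ⊆ t.1 ∧ ∃ ρ s : M, (opairM ρ s).1 ∈ p.1.1.1.1.2.1 ∧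
        (s.1 ⊆ t.1 ∧ (opairM p.2 t).1 ∈ (appM p.1.1.1.2 ρ).1))) (f := fun _ => c0) (DF.const c0) ?_
    refine Dfn.imp (Dfn.subset DF.v2 DF.v0) ?_
    refine Dfn.exB (P := fun (p : ((((((C0 × M) × M) × M) × M) × M) × M)) (t : M) =>
      (p.2.1 ⊆ t.1 ∧ ∃ ρ s : M, (opairM ρ s).1 ∈ p.1.1.1.1.1.2.1 ∧
        (s.1 ⊆ t.1 ∧ (opairM p.1.2 t).1 ∈ (appM p.1.1.1.1.2 ρ).1))) (f := fun _ => c0) (DF.const c0) ?_
    refine Dfn.and (Dfn.subset DF.v1 DF.v0) ?_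
    refine Dfn.ex (P := fun (p : (((((((C0 × M) × M) × M) × M) × M) × M) × M)) (ρ : M) =>
      ∃ s : M, (opairM ρ s).1 ∈ p.1.1.1.1.1.1.2.1 ∧
        (s.1 ⊆ p.2.1 ∧ (opairM p.1.1.2 p.2).1 ∈ (appM p.1.1.1.1.1.2 ρ).1)) ?_
    refine Dfn.ex (P := fun (p : ((((((((C0 × M) × M) × M) × M) × M) × M) × M) × M)) (s : M) =>
      (opairM p.2 s).1 ∈ p.1.1.1.1.1.1.1.2.1 ∧
        (s.1 ⊆ p.1.2.1 ∧ (opairM p.1.1.1.2 p.1.2).1 ∈ (appM p.1.1.1.1.1.1.2 p.2).1)) ?_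
    refine Dfn.and (Dfn.mem (DF.opair DF.v1 DF.v0) (DF.snd.wk.wk.wk.wk.wk.wk.wk.wk)) (Dfn.and ?_ ?_)
    · exact Dfn.subset DF.v0 DF.v2
    · exact Dfn.mem (DF.opair DF.v4 DF.v2) (DF.app (DF.snd.wk.wk.wk.wk.wk.wk.wk) DF.v1)

/-- the recursion step for the forcing relation -/
noncomputable def FG (Z c0 : M) (π f : M) : M :=
  sUnionM (imageM (fun z => imageM (fun q => opairM z q) (sepM (fun q => FStep c0 (appM f) π z q) c0)) Z)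

lemma FG_inner (c0 : M) : DF (fun p : (((C0 × M) × M) × M) =>
    imageM (fun q => opairM p.2 q) (sepM (fun q => FStep c0 (appM p.1.2) p.1.1.2 p.2 q) c0)) := by
  refine DF.image (F := fun (p : (((C0 × M) × M) × M)) (q : M) => opairM p.2 q) (DF.opair DF.v1 DF.v0) ?_
  exact DF.sep (P := fun (p : (((C0 × M) × M) × M)) (q : M) => FStep c0 (appM p.1.2) p.1.1.2 p.2 q)
    (FStep_Dfn c0) (DF.const c0)

lemma FG_DF (Z c0 : M) : DF (fun p : (C0 × M) × M => FG Z c0 p.1.2 p.2) := by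
  unfold FG
  refine DF.sUnion ?_
  exact DF.image (F := fun (p : (C0 × M) × M) (z : M) => imageM (fun q => opairM z q)
    (sepM (fun q => FStep c0 (appM p.2) p.1.2 z q) c0)) (FG_inner c0) (DF.const Z)

lemma mem_FG (Z c0 π f v : M) : v.1 ∈ (FG Z c0 π f).1 ↔
    ∃ z q : M, z.1 ∈ Z.1 ∧ q.1 ∈ c0.1 ∧ FStep c0 (appM f) π z q ∧ v = opairM z q := by
  have h1 : ∀ u : M, u.1 ∈ (imageM (fun z => imageM (fun q => opairM z q)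
      (sepM (fun q => FStep c0 (appM f) π z q) c0)) Z).1 ↔
      ∃ z : M, z.1 ∈ Z.1 ∧ u = imageM (fun q => opairM z q) (sepM (fun q => FStep c0 (appM f) π z q) c0) :=
    fun u => mem_imageM (F := fun (p : (C0 × M) × M) (z : M) => imageM (fun q => opairM z q)
      (sepM (fun q => FStep c0 (appM p.2) p.1.2 z q) c0)) (FG_inner c0) ((PUnit.unit, π), f) Z u
  have h2 : ∀ z u : M, u.1 ∈ (imageM (fun q => opairM z q) (sepM (fun q => FStep c0 (appM f) π z q) c0)).1 ↔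
      ∃ q : M, q.1 ∈ (sepM (fun q => FStep c0 (appM f) π z q) c0).1 ∧ u = opairM z q :=
    fun z u => mem_imageM (F := fun (p : (((C0 × M) × M) × M)) (q : M) => opairM p.2 q) (DF.opair DF.v1 DF.v0)
      (((PUnit.unit, π), f), z) _ u
  have h3 : ∀ z q : M, q.1 ∈ (sepM (fun q => FStep c0 (appM f) π z q) c0).1 ↔
      q.1 ∈ c0.1 ∧ FStep c0 (appM f) π z q :=
    fun z q => mem_sepM (P := fun (p : (((C0 × M) × M) × M)) (q : M) => FStep c0 (appM p.1.2) p.1.1.2 p.2 q)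
      (FStep_Dfn c0) (((PUnit.unit, π), f), z) c0 q
  unfold FG
  rw [mem_sUnionM]
  constructor
  · rintro ⟨y, hy, hv⟩
    obtain ⟨z, hz, rfl⟩ := (h1 y).1 hy
    obtain ⟨q, hq, rfl⟩ := (h2 z v).1 hv
    obtain ⟨hq0, hF⟩ := (h3 z q).1 hq
    exact ⟨z, q, hz, hq0, hF, rfl⟩
  · rintro ⟨z, q, hz, hq, hF, rfl⟩
    exact ⟨_, (h1 _).2 ⟨z, hz, rfl⟩, (h2 z _).2 ⟨q, (h3 z q).2 ⟨hq, hF⟩, rfl⟩⟩

/-- The forcing relation `q ⊩ π = ž` for `z ∈ Z`. -/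
theorem exists_forces (Z c0 : M) : ∃ E : M → M, F1 E ∧ ∀ π z q : M, (opairM z q).1 ∈ (E π).1 ↔
    z.1 ∈ Z.1 ∧ q.1 ∈ c0.1 ∧ FStep c0 E π z q := by
  obtain ⟨F, hFD, hF⟩ := exists_rec_dom (M := M) (Γ := C0) (fun _ π f => FG Z c0 π f) (FG_DF Z c0)
  refine ⟨F PUnit.unit, DF.reindex (f := fun p : C0 × M => F p.1 p.2) hFD (ρ := fun p : C1 M => (p.1, p.2)) IsSub.id, ?_⟩
  intro π z q
  have h1 : F PUnit.unit π = FG Z c0 π (graphM (F PUnit.unit) (domM π)) := hF PUnit.unit π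
  have h2 : ∀ ρ s : M, (opairM ρ s).1 ∈ π.1 → appM (graphM (F PUnit.unit) (domM π)) ρ = F PUnit.unit ρ := by
    intro ρ s hs
    exact appM_graphM hFD PUnit.unit ((mem_domM π ρ).2 ⟨s, hs⟩)
  have h3 : FStep c0 (appM (graphM (F PUnit.unit) (domM π))) π z q ↔ FStep c0 (F PUnit.unit) π z q := by
    unfold FStep
    constructor
    · rintro ⟨hA, hB⟩
      refine ⟨fun ρ s hs r hr hqr => ?_, fun w hw r hr hqr => ?_⟩
      · obtain ⟨t, ht, hrt, w, hw, hwt⟩ := hA ρ s hs r hr hqr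
        rw [h2 ρ s hs] at hwt
        exact ⟨t, ht, hrt, w, hw, hwt⟩
      · obtain ⟨t, ht, hrt, ρ, s, hs, hst, hwt⟩ := hB w hw r hr hqr
        rw [h2 ρ s hs] at hwt
        exact ⟨t, ht, hrt, ρ, s, hs, hst, hwt⟩
    · rintro ⟨hA, hB⟩
      refine ⟨fun ρ s hs r hr hqr => ?_, fun w hw r hr hqr => ?_⟩
      · obtain ⟨t, ht, hrt, w, hw, hwt⟩ := hA ρ s hs r hr hqr
        rw [← h2 ρ s hs] at hwt
        exact ⟨t, ht, hrt, w, hw, hwt⟩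
      · obtain ⟨t, ht, hrt, ρ, s, hs, hst, hwt⟩ := hB w hw r hr hqr
        rw [← h2 ρ s hs] at hwt
        exact ⟨t, ht, hrt, ρ, s, hs, hst, hwt⟩
  rw [h1, mem_FG]
  constructor
  · rintro ⟨z', q', hz, hq, hS, h⟩
    rw [opairM_inj] at h
    obtain ⟨rfl, rfl⟩ := h
    exact ⟨hz, hq, h3.1 hS⟩
  · rintro ⟨hz, hq, hS⟩
    exact ⟨z, q, hz, hq, h3.2 hS, rfl⟩

/-- a generic real meets dense definable sets -/
theorem generic_meets {x : ℕ → Bool} (hx : CohenGeneric M x) {P : M → Prop} (hP : D1 P)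
    (hd : ∀ p : List Bool, ∃ q, p <+: q ∧ P (strM q)) : ∃ q, Init q x ∧ P (strM q) := by
  obtain ⟨c0, hc0⟩ := exists_conds (M := M)
  have h1 : ∀ t : M, t.1 ∈ (sepM P c0).1 ↔ t.1 ∈ c0.1 ∧ P t := fun t =>
    mem_sepM (P := fun (_ : C0) (t : M) => P t) hP PUnit.unit c0 t
  obtain ⟨p, hp, hpx⟩ := hx (sepM P c0).1 (sepM P c0).2 (by
    intro p hp
    have hpM : p ∈ M := trans_mem (Subtype.property _) hp
    obtain ⟨h2, -⟩ := (h1 ⟨p, hpM⟩).1 hp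
    obtain ⟨p', hp'⟩ := (hc0 _).1 h2
    exact mem_CohenP.2 ⟨p', congrArg Subtype.val hp'⟩) (by
    intro p hp
    obtain ⟨p', rfl⟩ := mem_CohenP.1 hp
    obtain ⟨q, hpq, hq⟩ := hd p'
    exact ⟨(strM q : M).1, (h1 _).2 ⟨(hc0 _).2 ⟨q, rfl⟩, hq⟩, strL_subset.2 hpq⟩)
  obtain ⟨q, hq, rfl⟩ := mem_filt.1 hpx
  exact ⟨q, hq, ((h1 (strM q)).1 hp).2⟩

section Truth

variable {x : ℕ → Bool} (hx : CohenGeneric M x) {Z c0 : M} (hc0 : ∀ z : M, z.1 ∈ c0.1 ↔ ∃ p, z = strM p)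
  (hZ : ∀ a ∈ Z.1, ∀ b ∈ a, b ∈ Z.1) {E : M → M} (hE1 : F1 E)
  (hE : ∀ π z q : M, (opairM z q).1 ∈ (E π).1 ↔ z.1 ∈ Z.1 ∧ q.1 ∈ c0.1 ∧ FStep c0 E π z q)

include hE in
lemma forces_mono {π z : M} {q q' : List Bool} (h : (opairM z (strM q)).1 ∈ (E π).1) (hq : q <+: q')
    (hc0 : ∀ z : M, z.1 ∈ c0.1 ↔ ∃ p, z = strM p) : (opairM z (strM q')).1 ∈ (E π).1 := by
  rw [hE] at h ⊢
  obtain ⟨hz, -, hA, hB⟩ := h
  have hqq : (strM q : M).1 ⊆ (strM q' : M).1 := strL_subset.2 hq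
  refine ⟨hz, (hc0 _).2 ⟨q', rfl⟩, fun ρ s hs r hr hqr => hA ρ s hs r hr ⟨hqq.trans hqr.1, hqr.2⟩,
    fun w hw r hr hqr => hB w hw r hr (hqq.trans hqr)⟩

include hx hc0 hZ hE1 hE in
/-- **Truth lemma** -/
theorem truth_lemma (π : ZFSet.{0}) (hπ : IsName π) : ∀ (hπM : π ∈ M) (z : M), z.1 ∈ Z.1 →
    (val (filt x) π = z.1 ↔ ∃ q, Init q x ∧ (opairM z (strM q)).1 ∈ (E ⟨π, hπM⟩).1) := by
  induction hπ with
  | mk π h₁ h₂ ih =>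
    intro hπM z hz
    have hsub : ∀ {a b : List Bool}, (strM a : M).1 ⊆ (strM b : M).1 ↔ a <+: b := strL_subset
    -- members of `π`
    have hmem : ∀ ρ s : M, (opairM ρ s).1 ∈ π → IsName ρ.1 ∧ ∃ s', s = strM s' := by
      intro ρ s hs
      rw [opairM_val] at hs
      refine ⟨h₂ _ _ hs, ?_⟩
      obtain ⟨σ, p, hp, h⟩ := h₁ _ hs
      rw [ZFSet.pair_inj] at h
      obtain ⟨p', hp'⟩ := mem_CohenP.1 hp
      exact ⟨p', Subtype.ext (h.2.trans hp')⟩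
    have ih' : ∀ ρ s w : M, (opairM ρ s).1 ∈ π → w.1 ∈ z.1 →
        (val (filt x) ρ.1 = w.1 ↔ ∃ q, Init q x ∧ (opairM w (strM q)).1 ∈ (E ρ).1) := by
      intro ρ s w hs hw
      have hs' : ZFSet.pair ρ.1 s.1 ∈ π := by rw [← opairM_val]; exact hs
      exact ih _ _ hs' ρ.2 w (hZ _ hz _ hw)
    constructor
    · -- true implies forced
      intro hval
      let P : M → Prop := fun q => (opairM z q).1 ∈ (E ⟨π, hπM⟩).1 ∨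
        ((∃ ρ s : M, (opairM ρ s).1 ∈ π ∧ (s.1 ⊆ q.1 ∧ ∀ t : M, t.1 ∈ c0.1 → q.1 ⊆ t.1 →
          ∀ w : M, w.1 ∈ z.1 → ¬ (opairM w t).1 ∈ (E ρ).1)) ∨
        (∃ w : M, w.1 ∈ z.1 ∧ ∀ t : M, t.1 ∈ c0.1 → q.1 ⊆ t.1 → ∀ ρ s : M, (opairM ρ s).1 ∈ π →
          s.1 ⊆ t.1 → ¬ (opairM w t).1 ∈ (E ρ).1))
      have hP : D1 P := by
        refine Dfn.or ?_ (Dfn.or ?_ ?_)
        · exact Dfn.mem (DF.opair (DF.const z) DF.v0) (DF.const (E ⟨π, hπM⟩))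
        · refine Dfn.ex (P := fun (p : C1 M) (ρ : M) => ∃ s : M, (opairM ρ s).1 ∈ π ∧
            (s.1 ⊆ p.2.1 ∧ ∀ t : M, t.1 ∈ c0.1 → p.2.1 ⊆ t.1 →
            ∀ w : M, w.1 ∈ z.1 → ¬ (opairM w t).1 ∈ (E ρ).1)) ?_
          refine Dfn.ex (P := fun (p : C2 M) (s : M) => (opairM p.2 s).1 ∈ π ∧
            (s.1 ⊆ p.1.2.1 ∧ ∀ t : M, t.1 ∈ c0.1 → p.1.2.1 ⊆ t.1 →
            ∀ w : M, w.1 ∈ z.1 → ¬ (opairM w t).1 ∈ (E p.2).1)) ?_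
          refine Dfn.and (Dfn.mem (DF.opair DF.v1 DF.v0) (DF.const ⟨π, hπM⟩)) (Dfn.and (Dfn.subset DF.v0 DF.v2) ?_)
          refine Dfn.allB (P := fun (p : C3 M) (t : M) => p.1.1.2.1 ⊆ t.1 →
            ∀ w : M, w.1 ∈ z.1 → ¬ (opairM w t).1 ∈ (E p.1.2).1) (f := fun _ => c0) (DF.const c0) ?_
          refine Dfn.imp (Dfn.subset DF.v3 DF.v0) ?_
          refine Dfn.allB (P := fun (p : C3 M × M) (w : M) => ¬ (opairM w p.2).1 ∈ (E p.1.1.2).1)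
            (f := fun _ => z) (DF.const z) ?_
          exact Dfn.not (Dfn.mem (DF.opair DF.v0 DF.v1) (hE1.app DF.v3))
        · refine Dfn.exB (P := fun (p : C1 M) (w : M) => ∀ t : M, t.1 ∈ c0.1 → p.2.1 ⊆ t.1 →
            ∀ ρ s : M, (opairM ρ s).1 ∈ π → s.1 ⊆ t.1 → ¬ (opairM w t).1 ∈ (E ρ).1)
            (f := fun _ => z) (DF.const z) ?_
          refine Dfn.allB (P := fun (p : C2 M) (t : M) => p.1.2.1 ⊆ t.1 →
            ∀ ρ s : M, (opairM ρ s).1 ∈ π → s.1 ⊆ t.1 → ¬ (opairM p.2 t).1 ∈ (E ρ).1)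
            (f := fun _ => c0) (DF.const c0) ?_
          refine Dfn.imp (Dfn.subset DF.v2 DF.v0) ?_
          refine Dfn.all (P := fun (p : C3 M) (ρ : M) => ∀ s : M, (opairM ρ s).1 ∈ π → s.1 ⊆ p.2.1 →
            ¬ (opairM p.1.2 p.2).1 ∈ (E ρ).1) ?_
          refine Dfn.all (P := fun (p : C3 M × M) (s : M) => (opairM p.2 s).1 ∈ π → s.1 ⊆ p.1.2.1 →
            ¬ (opairM p.1.1.2 p.1.2).1 ∈ (E p.2).1) ?_
          refine Dfn.imp (Dfn.mem (DF.opair DF.v1 DF.v0) (DF.const ⟨π, hπM⟩)) (Dfn.imp (Dfn.subset DF.v0 DF.v2) ?_)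
          exact Dfn.not (Dfn.mem (DF.opair DF.v3 DF.v2) (hE1.app DF.v1))
      obtain ⟨q, hq, hPq⟩ := generic_meets hx hP (by
        intro p
        by_cases hfor : (opairM z (strM p)).1 ∈ (E ⟨π, hπM⟩).1
        · exact ⟨p, List.prefix_refl _, Or.inl hfor⟩
        · rw [hE] at hfor
          unfold FStep at hfor
          push Not at hfor
          have hfor' := hfor hz ((hc0 _).2 ⟨p, rfl⟩)
          by_cases hA : (∀ ρ s : M, (opairM ρ s).1 ∈ π → ∀ r : M, r.1 ∈ c0.1 → ((strM p : M).1 ⊆ r.1 ∧ s.1 ⊆ r.1) →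
              ∃ t : M, t.1 ∈ c0.1 ∧ (r.1 ⊆ t.1 ∧ ∃ w : M, w.1 ∈ z.1 ∧ (opairM w t).1 ∈ (E ρ).1))
          · obtain ⟨w, hw, r, hr, hpr, hrB⟩ := hfor' hA
            obtain ⟨r', rfl⟩ := (hc0 r).1 hr
            refine ⟨r', hsub.1 hpr, Or.inr (Or.inr ⟨w, hw, fun t ht hrt ρ s hs hst => ?_⟩)⟩
            exact hrB t ht hrt ρ s hs hst
          · push Not at hA
            obtain ⟨ρ, s, hs, r, hr, hpr, hrA⟩ := hA
            obtain ⟨r', rfl⟩ := (hc0 r).1 hr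
            exact ⟨r', hsub.1 hpr.1, Or.inr (Or.inl ⟨ρ, s, hs, hpr.2, fun t ht hrt w hw => hrA t ht hrt w hw⟩)⟩)
      rcases hPq with h | ⟨ρ, s, hs, hsq, hno⟩ | ⟨w, hw, hno⟩
      · exact ⟨q, hq, h⟩
      · exfalso
        obtain ⟨hρ, s', rfl⟩ := hmem ρ s hs
        have hsx : Init s' x := hq.of_prefix (hsub.1 hsq)
        have h1 : val (filt x) ρ.1 ∈ z.1 := by
          rw [← hval, mem_val]
          exact ⟨ρ.1, (strM s' : M).1, strL_mem_filt.2 hsx, by rw [← opairM_val]; exact hs, rfl⟩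
        have hwM : val (filt x) ρ.1 ∈ M := trans_mem z.2 h1
        obtain ⟨t, ht, hwt⟩ := (ih' ρ _ ⟨_, hwM⟩ hs h1).1 rfl
        obtain ⟨u, hu, hqu, htu⟩ := exists_common hq ht
        exact hno (strM u) ((hc0 _).2 ⟨u, rfl⟩) (hsub.2 hqu) ⟨_, hwM⟩ h1 (forces_mono hE hwt htu hc0)
      · exfalso
        have h1 : w.1 ∈ val (filt x) π := by rw [hval]; exact hw
        rw [mem_val] at h1
        obtain ⟨ρ', s', hs', hρs, hρw⟩ := h1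
        have hpM : ZFSet.pair ρ' s' ∈ M := trans_mem hπM hρs
        obtain ⟨hρM, hsM⟩ := mem_of_pair_mem hpM
        have hs : (opairM (⟨ρ', hρM⟩ : M) ⟨s', hsM⟩).1 ∈ π := by rw [opairM_val]; exact hρs
        obtain ⟨t, ht, hwt⟩ := (ih' ⟨ρ', hρM⟩ _ w hs hw).1 hρw
        obtain ⟨s'', hs'', hss⟩ := mem_filt.1 hs'
        obtain ⟨u, hu, hqu, htu⟩ := exists_common hq ht
        obtain ⟨v, hv, huv, hsv⟩ := exists_common hu hs''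
        refine hno (strM v) ((hc0 _).2 ⟨v, rfl⟩) (hsub.2 (hqu.trans huv)) ⟨ρ', hρM⟩ ⟨s', hsM⟩ hs ?_
          (forces_mono hE hwt (htu.trans huv) hc0)
        show s' ⊆ strL v
        rw [hss]
        exact strL_subset.2 hsv
    · -- forced implies true
      rintro ⟨q, hq, hfor⟩
      rw [hE] at hfor
      obtain ⟨-, -, hA, hB⟩ := hfor
      ext v
      rw [mem_val]
      constructor
      · rintro ⟨ρ', s', hs', hρs, rfl⟩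
        have hpM : ZFSet.pair ρ' s' ∈ M := trans_mem hπM hρs
        obtain ⟨hρM, hsM⟩ := mem_of_pair_mem hpM
        have hs : (opairM (⟨ρ', hρM⟩ : M) ⟨s', hsM⟩).1 ∈ π := by rw [opairM_val]; exact hρs
        obtain ⟨s'', hs'', hss⟩ := mem_filt.1 hs'
        obtain ⟨r0, hr0, hqr0, hsr0⟩ := exists_common hq hs''
        let P : M → Prop := fun t => ((strM r0 : M).1 ⊆ t.1 ∧ ∃ w : M, w.1 ∈ z.1 ∧ (opairM w t).1 ∈ (E ⟨ρ', hρM⟩).1) ∨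
          ¬ ∃ u : M, u.1 ∈ c0.1 ∧ (t.1 ⊆ u.1 ∧ (strM r0 : M).1 ⊆ u.1)
        have hP : D1 P := by
          refine Dfn.or (Dfn.and (Dfn.subset (DF.const _) DF.v0) ?_) (Dfn.not ?_)
          · refine Dfn.exB (P := fun (p : C1 M) (w : M) => (opairM w p.2).1 ∈ (E ⟨ρ', hρM⟩).1)
              (f := fun _ => z) (DF.const z) ?_
            exact Dfn.mem (DF.opair DF.v0 DF.v1) (DF.const _)
          · refine Dfn.exB (P := fun (p : C1 M) (u : M) => (p.2.1 ⊆ u.1 ∧ (strM r0 : M).1 ⊆ u.1))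
              (f := fun _ => c0) (DF.const c0) ?_
            exact Dfn.and (Dfn.subset DF.v1 DF.v0) (Dfn.subset (DF.const _) DF.v0)
        obtain ⟨t, ht, hPt⟩ := generic_meets hx hP (by
          intro p
          by_cases hu : ∃ u : M, u.1 ∈ c0.1 ∧ ((strM p : M).1 ⊆ u.1 ∧ (strM r0 : M).1 ⊆ u.1)
          · obtain ⟨u, hu0, hpu, hru⟩ := hu
            obtain ⟨u', rfl⟩ := (hc0 u).1 hu0
            have hsu : s' ⊆ (strM u' : M).1 := by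
              rw [hss]
              exact strL_subset.2 (hsr0.trans (hsub.1 hru))
            obtain ⟨t, ht0, hut, w, hw, hwt⟩ := hA ⟨ρ', hρM⟩ ⟨s', hsM⟩ hs (strM u') hu0
              ⟨hsub.2 (hqr0.trans (hsub.1 hru)), hsu⟩
            obtain ⟨t', rfl⟩ := (hc0 t).1 ht0
            exact ⟨t', (hsub.1 hpu).trans (hsub.1 hut), Or.inl ⟨hsub.2 ((hsub.1 hru).trans (hsub.1 hut)), w, hw, hwt⟩⟩
          · exact ⟨p, List.prefix_refl _, Or.inr hu⟩)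
        rcases hPt with ⟨-, w, hw, hwt⟩ | hno
        · have h1 := (ih' ⟨ρ', hρM⟩ _ w hs hw).2 ⟨t, ht, hwt⟩
          show val (filt x) ρ' ∈ z.1
          rw [h1]
          exact hw
        · exfalso
          obtain ⟨u, hu, htu, hru⟩ := exists_common ht hr0
          exact hno ⟨strM u, (hc0 _).2 ⟨u, rfl⟩, hsub.2 htu, hsub.2 hru⟩
      · intro hv
        have hvM : v ∈ M := trans_mem z.2 hv
        let P : M → Prop := fun t => (∃ ρ s : M, (opairM ρ s).1 ∈ π ∧ (s.1 ⊆ t.1 ∧ (opairM ⟨v, hvM⟩ t).1 ∈ (E ρ).1)) ∨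
          ¬ ∃ u : M, u.1 ∈ c0.1 ∧ (t.1 ⊆ u.1 ∧ (strM q : M).1 ⊆ u.1)
        have hP : D1 P := by
          refine Dfn.or ?_ (Dfn.not ?_)
          · refine Dfn.ex (P := fun (p : C1 M) (ρ : M) => ∃ s : M, (opairM ρ s).1 ∈ π ∧
              (s.1 ⊆ p.2.1 ∧ (opairM ⟨v, hvM⟩ p.2).1 ∈ (E ρ).1)) ?_
            refine Dfn.ex (P := fun (p : C2 M) (s : M) => (opairM p.2 s).1 ∈ π ∧
              (s.1 ⊆ p.1.2.1 ∧ (opairM ⟨v, hvM⟩ p.1.2).1 ∈ (E p.2).1)) ?_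
            exact Dfn.and (Dfn.mem (DF.opair DF.v1 DF.v0) (DF.const ⟨π, hπM⟩)) (Dfn.and (Dfn.subset DF.v0 DF.v2)
              (Dfn.mem (DF.opair (DF.const _) DF.v2) (hE1.app DF.v1)))
          · refine Dfn.exB (P := fun (p : C1 M) (u : M) => (p.2.1 ⊆ u.1 ∧ (strM q : M).1 ⊆ u.1))
              (f := fun _ => c0) (DF.const c0) ?_
            exact Dfn.and (Dfn.subset DF.v1 DF.v0) (Dfn.subset (DF.const _) DF.v0)
        obtain ⟨t, ht, hPt⟩ := generic_meets hx hP (by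
          intro p
          by_cases hu : ∃ u : M, u.1 ∈ c0.1 ∧ ((strM p : M).1 ⊆ u.1 ∧ (strM q : M).1 ⊆ u.1)
          · obtain ⟨u, hu0, hpu, hqu⟩ := hu
            obtain ⟨u', rfl⟩ := (hc0 u).1 hu0
            obtain ⟨t, ht0, hut, ρ, s, hs, hst, hwt⟩ := hB ⟨v, hvM⟩ hv (strM u') hu0 hqu
            obtain ⟨t', rfl⟩ := (hc0 t).1 ht0
            exact ⟨t', (hsub.1 hpu).trans (hsub.1 hut), Or.inl ⟨ρ, s, hs, hst, hwt⟩⟩
          · exact ⟨p, List.prefix_refl _, Or.inr hu⟩)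
        rcases hPt with ⟨ρ, s, hs, hst, hwt⟩ | hno
        · obtain ⟨hρ, s', rfl⟩ := hmem ρ s hs
          have h1 := (ih' ρ _ ⟨v, hvM⟩ hs hv).2 ⟨t, ht, hwt⟩
          refine ⟨ρ.1, (strM s' : M).1, strL_mem_filt.2 (ht.of_prefix (hsub.1 hst)), ?_, h1⟩
          rw [← opairM_val]
          exact hs
        · exfalso
          obtain ⟨u, hu, htu, hqu⟩ := exists_common ht hq
          exact hno ⟨strM u, (hc0 _).2 ⟨u, rfl⟩, hsub.2 htu, hsub.2 hqu⟩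

end Truth

/-- if the filter given by `y` is in `M[x]`, `x` generic, then `y` is computed from `x` by a code
in `M` -/
theorem code_of_mem_genExt' {x y : ℕ → Bool} (hx : CohenGeneric M x) {F : ZFSet.{0}}
    (hF : ∀ z, z ∈ F ↔ z ∈ filt y) (h : F ∈ genExt M x) :
    ∃ C : List Bool × List Bool → Prop, RP (RM M) C ∧
      ∀ q, Init q y ↔ ∃ p, Init p x ∧ C (p, q) := by
  obtain ⟨τ, hτM, hτ, rfl⟩ := h
  obtain ⟨c0, hc0⟩ := exists_conds (M := M)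
  obtain ⟨Z, hcZ, hZ⟩ := exists_transitive c0
  obtain ⟨E, hE1, hE⟩ := exists_forces Z c0
  refine ⟨fun pq : List Bool × List Bool => ∃ π s : M, (opairM π s).1 ∈ τ ∧ (s.1 ⊆ (strM pq.1 : M).1 ∧
    (opairM (strM pq.2 : M) (strM pq.1)).1 ∈ (E π).1), ?_, ?_⟩
  · rw [rp_iff₂]
    -- the set of codes
    have hQ : Dfn M (fun p : C2 M => ∃ π s : M, (opairM π s).1 ∈ τ ∧ (s.1 ⊆ p.1.2.1 ∧
        (opairM p.2 p.1.2).1 ∈ (E π).1)) := by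
      refine Dfn.ex (P := fun (p : C2 M) (π : M) => ∃ s : M, (opairM π s).1 ∈ τ ∧ (s.1 ⊆ p.1.2.1 ∧
        (opairM p.2 p.1.2).1 ∈ (E π).1)) ?_
      refine Dfn.ex (P := fun (p : C3 M) (s : M) => (opairM p.2 s).1 ∈ τ ∧ (s.1 ⊆ p.1.1.2.1 ∧
        (opairM p.1.2 p.1.1.2).1 ∈ (E p.2).1)) ?_
      exact Dfn.and (Dfn.mem (DF.opair DF.v1 DF.v0) (DF.const ⟨τ, hτM⟩)) (Dfn.and (Dfn.subset DF.v0 DF.v3)
        (Dfn.mem (DF.opair DF.v2 DF.v3) (hE1.app DF.v1)))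
    have h2 : DF (fun p : C1 M => imageM (fun q => opairM p.2 q) (sepM (fun q => ∃ π s : M, (opairM π s).1 ∈ τ ∧
        (s.1 ⊆ p.2.1 ∧ (opairM q p.2).1 ∈ (E π).1)) c0)) := by
      refine DF.image (F := fun (p : C1 M) (q : M) => opairM p.2 q) (DF.opair DF.v1 DF.v0) ?_
      exact DF.sep (P := fun (p : C1 M) (q : M) => ∃ π s : M, (opairM π s).1 ∈ τ ∧
        (s.1 ⊆ p.2.1 ∧ (opairM q p.2).1 ∈ (E π).1)) hQ (DF.const c0)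
    refine ⟨sUnionM (imageM (fun p => imageM (fun q => opairM p q) (sepM (fun q => ∃ π s : M, (opairM π s).1 ∈ τ ∧
        (s.1 ⊆ p.1 ∧ (opairM q p).1 ∈ (E π).1)) c0)) c0), ?_⟩
    intro z
    have k1 : ∀ u : M, u.1 ∈ (imageM (fun p => imageM (fun q => opairM p q) (sepM (fun q => ∃ π s : M,
        (opairM π s).1 ∈ τ ∧ (s.1 ⊆ p.1 ∧ (opairM q p).1 ∈ (E π).1)) c0)) c0).1 ↔
        ∃ p : M, p.1 ∈ c0.1 ∧ u = imageM (fun q => opairM p q) (sepM (fun q => ∃ π s : M,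
        (opairM π s).1 ∈ τ ∧ (s.1 ⊆ p.1 ∧ (opairM q p).1 ∈ (E π).1)) c0) := fun u =>
      mem_imageM (F := fun (_ : C0) (p : M) => imageM (fun q => opairM p q) (sepM (fun q => ∃ π s : M,
        (opairM π s).1 ∈ τ ∧ (s.1 ⊆ p.1 ∧ (opairM q p).1 ∈ (E π).1)) c0)) h2 PUnit.unit c0 u
    have k2 : ∀ p u : M, u.1 ∈ (imageM (fun q => opairM p q) (sepM (fun q => ∃ π s : M,
        (opairM π s).1 ∈ τ ∧ (s.1 ⊆ p.1 ∧ (opairM q p).1 ∈ (E π).1)) c0)).1 ↔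
        ∃ q : M, q.1 ∈ (sepM (fun q => ∃ π s : M,
        (opairM π s).1 ∈ τ ∧ (s.1 ⊆ p.1 ∧ (opairM q p).1 ∈ (E π).1)) c0).1 ∧ u = opairM p q := fun p u =>
      mem_imageM (F := fun (p : C1 M) (q : M) => opairM p.2 q) (DF.opair DF.v1 DF.v0)
        (PUnit.unit, p) _ u
    have k3 : ∀ p q : M, q.1 ∈ (sepM (fun q => ∃ π s : M,
        (opairM π s).1 ∈ τ ∧ (s.1 ⊆ p.1 ∧ (opairM q p).1 ∈ (E π).1)) c0).1 ↔ q.1 ∈ c0.1 ∧ ∃ π s : M,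
        (opairM π s).1 ∈ τ ∧ (s.1 ⊆ p.1 ∧ (opairM q p).1 ∈ (E π).1) := fun p q =>
      mem_sepM (P := fun (p : C1 M) (q : M) => ∃ π s : M, (opairM π s).1 ∈ τ ∧
        (s.1 ⊆ p.2.1 ∧ (opairM q p.2).1 ∈ (E π).1)) hQ (PUnit.unit, p) c0 q
    rw [mem_sUnionM]
    constructor
    · rintro ⟨u, hu, hz⟩
      obtain ⟨p, hp, rfl⟩ := (k1 u).1 hu
      obtain ⟨q, hq, rfl⟩ := (k2 p z).1 hz
      obtain ⟨hq0, hqq⟩ := (k3 p q).1 hq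
      obtain ⟨p', rfl⟩ := (hc0 p).1 hp
      obtain ⟨q', rfl⟩ := (hc0 q).1 hq0
      exact ⟨p', q', hqq, rfl⟩
    · rintro ⟨p, q, hpq, rfl⟩
      exact ⟨_, (k1 _).2 ⟨strM p, (hc0 _).2 ⟨p, rfl⟩, rfl⟩, (k2 _ _).2 ⟨strM q,
        (k3 _ _).2 ⟨(hc0 _).2 ⟨q, rfl⟩, hpq⟩, rfl⟩⟩
  · intro q
    have hmem : ∀ ρ s : M, (opairM ρ s).1 ∈ τ → IsName ρ.1 ∧ ∃ s', s = strM s' := by
      intro ρ s hs
      rw [opairM_val] at hs
      cases hτ with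
      | mk _ h₁ h₂ =>
        refine ⟨h₂ _ _ hs, ?_⟩
        obtain ⟨σ, p, hp, h⟩ := h₁ _ hs
        rw [ZFSet.pair_inj] at h
        obtain ⟨p', hp'⟩ := mem_CohenP.1 hp
        exact ⟨p', Subtype.ext (h.2.trans hp')⟩
    have hqZ : (strM q : M).1 ∈ Z.1 := hcZ ((hc0 _).2 ⟨q, rfl⟩)
    rw [← strL_mem_filt, ← hF, mem_val]
    constructor
    · rintro ⟨ρ', s', hs', hρs, hval⟩
      have hpM : ZFSet.pair ρ' s' ∈ M := trans_mem hτM hρs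
      obtain ⟨hρM, hsM⟩ := mem_of_pair_mem hpM
      have hs : (opairM (⟨ρ', hρM⟩ : M) ⟨s', hsM⟩).1 ∈ τ := by rw [opairM_val]; exact hρs
      obtain ⟨hρ, s₁, hs₁⟩ := hmem _ _ hs
      obtain ⟨t, ht, hfor⟩ := (truth_lemma hx hc0 hZ hE1 hE ρ' hρ hρM (strM q) hqZ).1 hval
      obtain ⟨s'', hs'', hss⟩ := mem_filt.1 hs'
      obtain ⟨u, hu, htu, hsu⟩ := exists_common ht hs''
      refine ⟨u, hu, ⟨ρ', hρM⟩, ⟨s', hsM⟩, hs, ?_, forces_mono hE hfor htu hc0⟩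
      show s' ⊆ strL u
      rw [hss]
      exact strL_subset.2 hsu
    · rintro ⟨p, hp, π, s, hs, hsp, hfor⟩
      obtain ⟨hρ, s', rfl⟩ := hmem π s hs
      refine ⟨π.1, (strM s' : M).1, strL_mem_filt.2 (hp.of_prefix (strL_subset.1 hsp)), ?_, ?_⟩
      · rw [← opairM_val]; exact hs
      · exact (truth_lemma hx hc0 hZ hE1 hE π.1 hρ π.2 (strM q) hqZ).2 ⟨p, hp, hfor⟩

end Pool.Agent.Lib.MP_f12a7c_lc
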