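import Pool.Agent.Lib.MP_f12a7c_lc.ForcingA
import Pool.Agent.Lib.MP_f12a7c_lc.ForcingB

/-!
# Forcing `π = ž` and the truth lemma (II.6)
-/

namespace Pool.Agent.Lib.MP_f12a7c_lc

variable {M : Set ZFSet.{0}} [hM : Model M]

/-- the filter given by `y` belongs to `M[y]` -/
theorem filt_mem_genExt (y : ℕ → Bool) : ∃ F ∈ genExt M y, ∀ z, z ∈ F ↔ z ∈ filt y :=
  filt_mem_genExt' y

/-- if the filter given by `y` is in `M[x]`, `x` generic, then `y` is computed from `x` by a code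
in `M` -/
theorem code_of_mem_genExt {x y : ℕ → Bool} (hx : CohenGeneric M x) {F : ZFSet.{0}}
    (hF : ∀ z, z ∈ F ↔ z ∈ filt y) (h : F ∈ genExt M x) :
    ∃ C : List Bool × List Bool → Prop, RP (RM M) C ∧
      ∀ q, Init q y ↔ ∃ p, Init p x ∧ C (p, q) :=
  code_of_mem_genExt' hx hF h

end Pool.Agent.Lib.MP_f12a7c_lc
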