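import Pool.Agent.Lib.MP_f12a7c_lc.Strings

/-!
# Transformation of names (II.7)
-/

namespace Pool.Agent.Lib.MP_f12a7c_lc

variable {M : Set ZFSet.{0}} [hM : Model M]

/-- the recursion step of the transformation of names -/
noncomputable def nameStep (c c0 : M) (t f : M) : M :=
  sUnionM (imageM (fun σ => imageM (fun p => opairM (appM f σ) p)
    (sepM (fun p => ∃ q : M, (opairM σ q).1 ∈ t.1 ∧ (opairM p q).1 ∈ c.1) c0)) (domM t))

lemma nameTrans_inner (c : M) : Dfn M (fun p : ((((C0 × M) × M) × M) × M) =>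
    ∃ q : M, (opairM p.1.2 q).1 ∈ p.1.1.1.2.1 ∧ (opairM p.2 q).1 ∈ c.1) := by
  refine Dfn.ex (P := fun (p : ((((C0 × M) × M) × M) × M)) (q : M) =>
    (opairM p.1.2 q).1 ∈ p.1.1.1.2.1 ∧ (opairM p.2 q).1 ∈ c.1) ?_
  refine Dfn.and ?_ ?_
  · exact Dfn.mem (F2_opairM.app DF.snd.wk.wk DF.snd) DF.snd.wk.wk.wk.wk
  · exact Dfn.mem (F2_opairM.app DF.snd.wk DF.snd) (DF.const c)

lemma nameTrans_DF (c c0 : M) :
    DF (fun p : (C0 × M) × M => nameStep c c0 p.1.2 p.2) := by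
  unfold nameStep
  refine F1_sUnionM.app ?_
  refine DF.image (F := fun (p : (C0 × M) × M) (σ : M) => imageM (fun s => opairM (appM p.2 σ) s)
    (sepM (fun s => ∃ q : M, (opairM σ q).1 ∈ p.1.2.1 ∧ (opairM s q).1 ∈ c.1) c0)) ?_
    (F1_domM.app DF.snd.wk)
  refine DF.image (F := fun (p : ((C0 × M) × M) × M) (s : M) => opairM (appM p.1.2 p.2) s) ?_ ?_
  · exact F2_opairM.app (F2_appM.app DF.snd.wk.wk DF.snd.wk) DF.snd
  · exact DF.sep (P := fun (p : ((C0 × M) × M) × M) (s : M) =>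
      ∃ q : M, (opairM p.2 q).1 ∈ p.1.1.2.1 ∧ (opairM s q).1 ∈ c.1) (nameTrans_inner c) (DF.const c0)

lemma mem_nameStep (c c0 t f z : M) : z.1 ∈ (nameStep c c0 t f).1 ↔
    ∃ σ p q : M, p.1 ∈ c0.1 ∧ (opairM σ q).1 ∈ t.1 ∧ (opairM p q).1 ∈ c.1 ∧ z = opairM (appM f σ) p := by
  have h1 : ∀ y : M, y.1 ∈ (imageM (fun σ => imageM (fun p => opairM (appM f σ) p)
      (sepM (fun p => ∃ q : M, (opairM σ q).1 ∈ t.1 ∧ (opairM p q).1 ∈ c.1) c0)) (domM t)).1 ↔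
      ∃ σ : M, σ.1 ∈ (domM t).1 ∧ y = imageM (fun p => opairM (appM f σ) p)
      (sepM (fun p => ∃ q : M, (opairM σ q).1 ∈ t.1 ∧ (opairM p q).1 ∈ c.1) c0) := by
    intro y
    refine mem_imageM (F := fun (p : (C0 × M) × M) (σ : M) => imageM (fun s => opairM (appM p.2 σ) s)
      (sepM (fun s => ∃ q : M, (opairM σ q).1 ∈ p.1.2.1 ∧ (opairM s q).1 ∈ c.1) c0)) ?_
      ((PUnit.unit, t), f) (domM t) y
    refine DF.image (F := fun (p : ((C0 × M) × M) × M) (s : M) => opairM (appM p.1.2 p.2) s) ?_ ?_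
    · exact F2_opairM.app (F2_appM.app DF.snd.wk.wk DF.snd.wk) DF.snd
    · exact DF.sep (P := fun (p : ((C0 × M) × M) × M) (s : M) =>
        ∃ q : M, (opairM p.2 q).1 ∈ p.1.1.2.1 ∧ (opairM s q).1 ∈ c.1) (nameTrans_inner c) (DF.const c0)
  have h2 : ∀ σ z : M, z.1 ∈ (imageM (fun p => opairM (appM f σ) p)
      (sepM (fun p => ∃ q : M, (opairM σ q).1 ∈ t.1 ∧ (opairM p q).1 ∈ c.1) c0)).1 ↔
      ∃ p : M, p.1 ∈ (sepM (fun p => ∃ q : M, (opairM σ q).1 ∈ t.1 ∧ (opairM p q).1 ∈ c.1) c0).1 ∧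
        z = opairM (appM f σ) p := by
    intro σ z
    exact mem_imageM (F := fun (p : ((C0 × M) × M) × M) (s : M) => opairM (appM p.1.2 p.2) s)
      (F2_opairM.app (F2_appM.app DF.snd.wk.wk DF.snd.wk) DF.snd) (((PUnit.unit, t), f), σ) _ z
  have h3 : ∀ σ p : M, p.1 ∈ (sepM (fun p => ∃ q : M, (opairM σ q).1 ∈ t.1 ∧ (opairM p q).1 ∈ c.1) c0).1 ↔
      p.1 ∈ c0.1 ∧ ∃ q : M, (opairM σ q).1 ∈ t.1 ∧ (opairM p q).1 ∈ c.1 := by
    intro σ p
    exact mem_sepM (P := fun (p : ((C0 × M) × M) × M) (s : M) =>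
        ∃ q : M, (opairM p.2 q).1 ∈ p.1.1.2.1 ∧ (opairM s q).1 ∈ c.1) (nameTrans_inner c)
        (((PUnit.unit, t), f), σ) c0 p
  unfold nameStep
  rw [sUnionM_val, ZFSet.mem_sUnion]
  constructor
  · rintro ⟨y, hy, hz⟩
    have hyM : y ∈ M := trans_mem (Subtype.property _) hy
    obtain ⟨σ, hσ, hy'⟩ := (h1 ⟨y, hyM⟩).1 hy
    have hz' : z.1 ∈ (⟨y, hyM⟩ : M).1 := hz
    rw [hy', h2] at hz'
    obtain ⟨p, hp, rfl⟩ := hz'
    obtain ⟨hp0, q, hq1, hq2⟩ := (h3 σ p).1 hp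
    exact ⟨σ, p, q, hp0, hq1, hq2, rfl⟩
  · rintro ⟨σ, p, q, hp0, hq1, hq2, rfl⟩
    refine ⟨(imageM (fun p => opairM (appM f σ) p)
      (sepM (fun p => ∃ q : M, (opairM σ q).1 ∈ t.1 ∧ (opairM p q).1 ∈ c.1) c0)).1, ?_, ?_⟩
    · rw [h1]
      exact ⟨σ, (mem_domM t σ).2 ⟨q, hq1⟩, rfl⟩
    · rw [h2]
      exact ⟨p, (h3 σ p).2 ⟨hp0, q, hq1, hq2⟩, rfl⟩

/-- if `y` is computed from `x` by a code in `M` then `M[y] ⊆ M[x]` -/
theorem genExt_subset {x y : ℕ → Bool} {C : List Bool × List Bool → Prop} (hC : RP (RM M) C)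
    (h : ∀ q, Init q y ↔ ∃ p, Init p x ∧ C (p, q)) : genExt M y ⊆ genExt M x := by
  obtain ⟨c, hc⟩ := rp_iff₂.1 hC
  obtain ⟨c0, hc0⟩ := exists_conds (M := M)
  obtain ⟨F, hFD, hF⟩ := exists_rec_dom (M := M) (Γ := C0) (fun _ t f => nameStep c c0 t f)
    (nameTrans_DF c c0)
  let i : M → M := F PUnit.unit
  have hDF : ∀ t σ : M, σ.1 ∈ (domM t).1 → appM (graphM (F PUnit.unit) (domM t)) σ = i σ := by
    intro t σ hσ
    exact appM_graphM hFD PUnit.unit hσ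
  have hi : ∀ t z : M, z.1 ∈ (i t).1 ↔
      ∃ σ : M, ∃ p q : List Bool, (opairM σ (strM q)).1 ∈ t.1 ∧ C (p, q) ∧ z = opairM (i σ) (strM p) := by
    intro t z
    have h1 : i t = nameStep c c0 t (graphM (F PUnit.unit) (domM t)) := hF PUnit.unit t
    rw [h1, mem_nameStep]
    constructor
    · rintro ⟨σ, p, q, hp, h2, h3, rfl⟩
      rw [hc] at h3
      obtain ⟨p', q', hpq, h4⟩ := h3
      rw [opairM_inj] at h4
      obtain ⟨rfl, rfl⟩ := h4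
      exact ⟨σ, p', q', h2, hpq, by rw [hDF t σ ((mem_domM t σ).2 ⟨_, h2⟩)]⟩
    · rintro ⟨σ, p, q, h2, h3, rfl⟩
      refine ⟨σ, strM p, strM q, (hc0 _).2 ⟨p, rfl⟩, h2, (hc _).2 ⟨p, q, h3, rfl⟩, ?_⟩
      rw [hDF t σ ((mem_domM t σ).2 ⟨_, h2⟩)]
  -- ranks
  have hrank : ∀ t σ q : M, (opairM σ q).1 ∈ t.1 → σ.1.rank < t.1.rank := by
    intro t σ q hq
    rw [opairM_val] at hq
    exact rank_fst_lt hq
  -- `i t` is a name
  have hname : ∀ (o : Ordinal) (t : M), t.1.rank = o → IsName (i t).1 := by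
    intro o
    induction o using WellFoundedLT.induction with
    | ind o ih =>
      intro t ht
      constructor
      · intro z hz
        have hzM : z ∈ M := trans_mem (i t).2 hz
        obtain ⟨σ, p, q, h2, h3, h4⟩ := (hi t ⟨z, hzM⟩).1 hz
        refine ⟨(i σ).1, (strM p : M).1, mem_CohenP.2 ⟨p, rfl⟩, ?_⟩
        rw [← opairM_val, ← h4]
      · intro σ' p' hz
        have hzM : ZFSet.pair σ' p' ∈ M := trans_mem (i t).2 hz
        obtain ⟨σ, p, q, h2, h3, h4⟩ := (hi t ⟨_, hzM⟩).1 hz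
        have h5 := congrArg Subtype.val h4
        rw [opairM_val, ZFSet.pair_inj] at h5
        rw [h5.1]
        exact ih _ (ht ▸ hrank t σ _ h2) σ rfl
  -- values
  have hval : ∀ (o : Ordinal) (t : M), t.1.rank = o → val (filt x) (i t).1 = val (filt y) t.1 := by
    intro o
    induction o using WellFoundedLT.induction with
    | ind o ih =>
      intro t ht
      ext z
      rw [mem_val, mem_val]
      constructor
      · rintro ⟨σ', p', hp', hz, rfl⟩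
        have hzM : ZFSet.pair σ' p' ∈ M := trans_mem (i t).2 hz
        obtain ⟨σ, p, q, h2, h3, h4⟩ := (hi t ⟨_, hzM⟩).1 hz
        have h5 := congrArg Subtype.val h4
        rw [opairM_val, ZFSet.pair_inj] at h5
        obtain ⟨rfl, rfl⟩ := h5
        refine ⟨σ.1, (strM q : M).1, ?_, ?_, ?_⟩
        · exact strL_mem_filt.2 ((h q).2 ⟨p, strL_mem_filt.1 hp', h3⟩)
        · rwa [opairM_val] at h2
        · exact (ih _ (ht ▸ hrank t σ _ h2) σ rfl).symm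
      · rintro ⟨σ', q', hq', hz, rfl⟩
        obtain ⟨q, hq, rfl⟩ := mem_filt.1 hq'
        have hzM : ZFSet.pair σ' (strL q) ∈ M := trans_mem t.2 hz
        have hσM : σ' ∈ M := (mem_of_pair_mem hzM).1
        obtain ⟨p, hp, hpq⟩ := (h q).1 hq
        have h2 : (opairM (⟨σ', hσM⟩ : M) (strM q)).1 ∈ t.1 := by
          rw [opairM_val]; exact hz
        refine ⟨(i ⟨σ', hσM⟩).1, (strM p : M).1, strL_mem_filt.2 hp, ?_, ?_⟩
        · rw [← opairM_val]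
          exact (hi t _).2 ⟨⟨σ', hσM⟩, p, q, h2, hpq, rfl⟩
        · exact ih _ (ht ▸ hrank t _ _ h2) ⟨σ', hσM⟩ rfl
  rintro z ⟨τ, hτ, -, rfl⟩
  exact ⟨(i ⟨τ, hτ⟩).1, (i ⟨τ, hτ⟩).2, hname _ ⟨τ, hτ⟩ rfl, (hval _ ⟨τ, hτ⟩ rfl).symm⟩

end Pool.Agent.Lib.MP_f12a7c_lc
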