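import Pool.Agent.Lib.MP_f12a7c_lc.Comb
import Pool.Agent.Lib.MP_f12a7c_lc.Forcing
import Pool.Agent.Lib.MP_f12a7c_lc.NameTrans

/-!
# Equality of Cohen extensions is hyperfinite
-/

namespace Pool.Agent.Lib.MP_f12a7c_lc

open Encodable

section

variable {M : Set ZFSet.{0}} [hM : Model M]

/-- a coded map gives a code at every point -/
lemma CodedOne.code {R : Set (Set ℕ)} (hR : ArithClosed R) {T : X R → X R} (hT : CodedOne R T) :
    ∃ C : List Bool × List Bool → Prop, RP R C ∧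
      ∀ x q, Init q (T x).1 ↔ ∃ p, Init p x.1 ∧ C (p, q) := by
  obtain ⟨C, h1, _, h3⟩ := CodedMap.init hR hT
  refine ⟨fun t => C (t.1, ((), t.2)), ?_, ?_⟩
  · exact h1.comp hR (f := fun t : List Bool × List Bool => (t.1, ((), t.2)))
      (Primrec.pair Primrec.fst (Primrec.pair (Primrec.const _) Primrec.snd))
  · intro x q
    exact h3 x ((), q)

lemma ER_iff (hc : M.Countable) (x y : X (RM M)) :
    ER (RM M) x y ↔ genExt M x.1 = genExt M y.1 := by
  have hR : ArithClosed (RM M) := arithClosed_RM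
  have hcR : (RM M).Countable := countable_RM hc
  constructor
  · rintro ⟨⟨T, hT, h1⟩, T', hT', h2⟩
    obtain ⟨C, hC, h3⟩ := hT.code hR
    obtain ⟨C', hC', h4⟩ := hT'.code hR
    apply Set.Subset.antisymm
    · exact genExt_subset hC' (fun q => by rw [← h2]; exact h4 y q)
    · exact genExt_subset hC (fun q => by rw [← h1]; exact h3 x q)
  · intro h
    have hx : CohenGeneric M x.1 := gen_iff.1 x.2
    have hy : CohenGeneric M y.1 := gen_iff.1 y.2
    obtain ⟨F, hF1, hF2⟩ := filt_mem_genExt (M := M) y.1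
    obtain ⟨F', hF1', hF2'⟩ := filt_mem_genExt (M := M) x.1
    rw [← h] at hF1
    rw [h] at hF1'
    obtain ⟨C, hC, h3⟩ := code_of_mem_genExt hx hF2 hF1
    obtain ⟨C', hC', h4⟩ := code_of_mem_genExt hy hF2' hF1'
    obtain ⟨T, hT, h5⟩ := exists_coded_map hR hcR hC hC' h3 h4
    obtain ⟨T', hT', h6⟩ := exists_coded_map hR hcR hC' hC h4 h3
    exact ⟨⟨T, hT, h5⟩, T', hT', h6⟩

end

/-- transport along an equality of predicates -/
lemma hyperfinite_congr {P Q : (ℕ → Bool) → Prop} (hPQ : ∀ x, P x ↔ Q x)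
    {E : {x // P x} → {x // P x} → Prop} {E' : {x // Q x} → {x // Q x} → Prop}
    (hE : ∀ (x y : ℕ → Bool) (hx : P x) (hy : P y) (hx' : Q x) (hy' : Q y),
      E ⟨x, hx⟩ ⟨y, hy⟩ ↔ E' ⟨x, hx'⟩ ⟨y, hy'⟩) (h : Hyperfinite E) : Hyperfinite E' := by
  have hPQ' : P = Q := funext fun x => propext (hPQ x)
  subst hPQ'
  have : E = E' := by
    funext x y
    exact propext (hE x.1 y.1 x.2 y.2 x.2 y.2)
  rwa [← this]

theorem hyperfinite_EM (M : Set ZFSet.{0}) (hc : M.Countable) (hM : IsTransitiveModel M) :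
    Hyperfinite (EM M) := by
  have : Model M := ⟨hM⟩
  exact hyperfinite_congr (fun x => gen_iff) (fun x y hx hy _ _ => ER_iff hc ⟨x, hx⟩ ⟨y, hy⟩)
    (hyperfinite_ER arithClosed_RM (countable_RM hc))

theorem standardBorel_genericReals (M : Set ZFSet.{0}) (hc : M.Countable) :
    StandardBorelSpace (GenericReals M) := by
  have hm : MeasurableSet {x : ℕ → Bool | CohenGeneric M x} := by
    have h1 : {x : ℕ → Bool | CohenGeneric M x} = ⋂ D ∈ M, {x : ℕ → Bool |
        (∀ p ∈ D, p ∈ CohenP) → (∀ p ∈ CohenP, ∃ q ∈ D, p ⊆ q) → ∃ p ∈ D, p ∈ filt x} := by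
      ext x
      simp only [Set.mem_ofPred_eq, Set.mem_iInter]
      exact Iff.rfl
    rw [h1]
    apply MeasurableSet.biInter hc
    intro D _
    by_cases h2 : (∀ p ∈ D, p ∈ CohenP) ∧ (∀ p ∈ CohenP, ∃ q ∈ D, p ⊆ q)
    · have h3 : {x : ℕ → Bool | (∀ p ∈ D, p ∈ CohenP) → (∀ p ∈ CohenP, ∃ q ∈ D, p ⊆ q) →
          ∃ p ∈ D, p ∈ filt x} = ⋃ p : List Bool, ⋃ (_ : strL p ∈ D), {x | Init p x} := by
        ext x
        simp only [Set.mem_ofPred_eq, Set.mem_iUnion, exists_prop]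
        constructor
        · intro h
          obtain ⟨p, hp, hpx⟩ := h h2.1 h2.2
          obtain ⟨q, hq, rfl⟩ := mem_filt.1 hpx
          exact ⟨q, hp, hq⟩
        · rintro ⟨p, hp, hpx⟩ _ _
          exact ⟨strL p, hp, mem_filt.2 ⟨p, hpx, rfl⟩⟩
      rw [h3]
      exact MeasurableSet.iUnion fun p => MeasurableSet.iUnion fun _ =>
        (isOpen_init p).measurableSet
    · have h3 : {x : ℕ → Bool | (∀ p ∈ D, p ∈ CohenP) → (∀ p ∈ CohenP, ∃ q ∈ D, p ⊆ q) →
          ∃ p ∈ D, p ∈ filt x} = Set.univ := by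
        ext x
        simp only [Set.mem_ofPred_eq, Set.mem_univ, iff_true]
        intro h4 h5
        exact absurd ⟨h4, h5⟩ h2
      rw [h3]
      exact MeasurableSet.univ
  exact hm.standardBorel

end Pool.Agent.Lib.MP_f12a7c_lc
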