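import Pool.Agent.Lib.MP_f12a7c_lc.Strings

/-!
# Check names and the canonical name of the filter (II.6 a)
-/

namespace Pool.Agent.Lib.MP_f12a7c_lc

set_option linter.unusedSectionVars false

variable {M : Set ZFSet.{0}} [hM : Model M]

/-- check names -/
theorem exists_check : ∃ k : M → M, F1 k ∧
    (∀ x z : M, z.1 ∈ (k x).1 ↔ ∃ w : M, w.1 ∈ x.1 ∧ z = opairM (k w) emptyM) := by
  have hG : DF (fun p : (C0 × M) × M => imageM (fun w => opairM (appM p.2 w) emptyM) p.1.2) :=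
    DF.image (F := fun (p : (C0 × M) × M) (w : M) => opairM (appM p.2 w) emptyM)
      (F2_opairM.app (F2_appM.app DF.snd.wk DF.snd) (DF.const emptyM)) DF.snd.wk
  obtain ⟨F, hFD, hF⟩ := exists_rec_mem (M := M) (Γ := C0)
    (fun _ x f => imageM (fun w => opairM (appM f w) emptyM) x) hG
  refine ⟨F PUnit.unit, ?_, ?_⟩
  · exact DF.reindex (f := fun p : C0 × M => F p.1 p.2) hFD (ρ := fun p : C1 M => (p.1, p.2)) IsSub.id
  · intro x z
    have h1 : F PUnit.unit x = imageM (fun w => opairM (appM (graphM (F PUnit.unit) x) w) emptyM) x :=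
      hF PUnit.unit x
    have h2 : z.1 ∈ (imageM (fun w => opairM (appM (graphM (F PUnit.unit) x) w) emptyM) x).1 ↔
        ∃ w : M, w.1 ∈ x.1 ∧ z = opairM (appM (graphM (F PUnit.unit) x) w) emptyM :=
      mem_imageM (F := fun (p : C1 M) (w : M) => opairM (appM p.2 w) emptyM)
        (F2_opairM.app (F2_appM.app DF.snd.wk DF.snd) (DF.const emptyM))
        ((PUnit.unit, graphM (F PUnit.unit) x) : C1 M) x z
    rw [h1, h2]
    constructor
    · rintro ⟨w, hw, rfl⟩
      exact ⟨w, hw, by rw [appM_graphM hFD PUnit.unit hw]⟩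
    · rintro ⟨w, hw, rfl⟩
      exact ⟨w, hw, by rw [appM_graphM hFD PUnit.unit hw]⟩

lemma empty_mem_filt (y : ℕ → Bool) : (emptyM : M).1 ∈ filt y := ⟨0, rfl⟩

lemma empty_mem_CohenP : (emptyM : M).1 ∈ CohenP := ⟨fun _ => false, 0, rfl⟩

lemma check_isName {k : M → M} (hk : ∀ x z : M, z.1 ∈ (k x).1 ↔ ∃ w : M, w.1 ∈ x.1 ∧ z = opairM (k w) emptyM) :
    ∀ x : M, IsName (k x).1 := by
  have key : ∀ (o : Ordinal) (x : M), x.1.rank = o → IsName (k x).1 := by
    intro o
    induction o using WellFoundedLT.induction with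
    | ind o ih =>
      intro x ho
      constructor
      · intro z hz
        have hzM : z ∈ M := trans_mem (k x).2 hz
        obtain ⟨w, hw, h⟩ := (hk x ⟨z, hzM⟩).1 hz
        refine ⟨(k w).1, (emptyM : M).1, empty_mem_CohenP, ?_⟩
        rw [← opairM_val, ← h]
      · intro σ p hz
        have hzM : ZFSet.pair σ p ∈ M := trans_mem (k x).2 hz
        obtain ⟨w, hw, h⟩ := (hk x ⟨_, hzM⟩).1 hz
        have h5 := congrArg Subtype.val h
        rw [opairM_val, ZFSet.pair_inj] at h5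
        rw [h5.1]
        exact ih _ (ho ▸ ZFSet.rank_lt_of_mem hw) w rfl
  exact fun x => key _ x rfl

lemma check_val {k : M → M} (hk : ∀ x z : M, z.1 ∈ (k x).1 ↔ ∃ w : M, w.1 ∈ x.1 ∧ z = opairM (k w) emptyM)
    (y : ℕ → Bool) : ∀ x : M, val (filt y) (k x).1 = x.1 := by
  have key : ∀ (o : Ordinal) (x : M), x.1.rank = o → val (filt y) (k x).1 = x.1 := by
    intro o
    induction o using WellFoundedLT.induction with
    | ind o ih =>
      intro x ho
      ext z
      rw [mem_val]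
      constructor
      · rintro ⟨σ, p, hp, hz, rfl⟩
        have hzM : ZFSet.pair σ p ∈ M := trans_mem (k x).2 hz
        obtain ⟨w, hw, h⟩ := (hk x ⟨_, hzM⟩).1 hz
        have h5 := congrArg Subtype.val h
        rw [opairM_val, ZFSet.pair_inj] at h5
        rw [h5.1, ih _ (ho ▸ ZFSet.rank_lt_of_mem hw) w rfl]
        exact hw
      · intro hz
        have hzM : z ∈ M := trans_mem x.2 hz
        refine ⟨(k ⟨z, hzM⟩).1, (emptyM : M).1, empty_mem_filt y, ?_, ?_⟩
        · rw [← opairM_val]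
          exact (hk x _).2 ⟨⟨z, hzM⟩, hz, rfl⟩
        · exact ih _ (ho ▸ ZFSet.rank_lt_of_mem (show (⟨z, hzM⟩ : M).1 ∈ x.1 from hz)) ⟨z, hzM⟩ rfl
  exact fun x => key _ x rfl

/-- the filter given by `y` belongs to `M[y]` -/
theorem filt_mem_genExt' (y : ℕ → Bool) : ∃ F ∈ genExt M y, ∀ z, z ∈ F ↔ z ∈ filt y := by
  obtain ⟨k, hkF, hk⟩ := exists_check (M := M)
  obtain ⟨c0, hc0⟩ := exists_conds (M := M)
  let N : M := imageM (fun p => opairM (k p) p) c0
  have hN : ∀ z : M, z.1 ∈ N.1 ↔ ∃ p : M, p.1 ∈ c0.1 ∧ z = opairM (k p) p := fun z =>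
    mem_imageM (F := fun (_ : C0) (p : M) => opairM (k p) p) (F2_opairM.app (hkF.app DF.snd) DF.snd)
      (PUnit.unit : C0) c0 z
  refine ⟨val (filt y) N.1, ⟨N.1, N.2, ?_, rfl⟩, ?_⟩
  · constructor
    · intro z hz
      have hzM : z ∈ M := trans_mem N.2 hz
      obtain ⟨p, hp, h⟩ := (hN ⟨z, hzM⟩).1 hz
      obtain ⟨p', rfl⟩ := (hc0 p).1 hp
      refine ⟨(k (strM p')).1, (strM p' : M).1, mem_CohenP.2 ⟨p', rfl⟩, ?_⟩
      rw [← opairM_val, ← h]
    · intro σ p hz
      have hzM : ZFSet.pair σ p ∈ M := trans_mem N.2 hz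
      obtain ⟨p', hp', h⟩ := (hN ⟨_, hzM⟩).1 hz
      have h5 := congrArg Subtype.val h
      rw [opairM_val, ZFSet.pair_inj] at h5
      rw [h5.1]
      exact check_isName hk p'
  · intro z
    rw [mem_val]
    constructor
    · rintro ⟨σ, p, hp, hz, rfl⟩
      have hzM : ZFSet.pair σ p ∈ M := trans_mem N.2 hz
      obtain ⟨p', hp', h⟩ := (hN ⟨_, hzM⟩).1 hz
      have h5 := congrArg Subtype.val h
      rw [opairM_val, ZFSet.pair_inj] at h5
      rw [h5.1, check_val hk y p', ← h5.2]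
      exact hp
    · intro hz
      obtain ⟨p, hp, rfl⟩ := mem_filt.1 hz
      refine ⟨(k (strM p)).1, (strM p : M).1, hz, ?_, check_val hk y (strM p)⟩
      rw [← opairM_val]
      exact (hN _).2 ⟨strM p, (hc0 _).2 ⟨p, rfl⟩, rfl⟩

end Pool.Agent.Lib.MP_f12a7c_lc
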