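import Pool.Agent.Lib.MP_f12a7c_lc.Asi

/-!
# Lemma 2: the next finite equivalence relation
-/

namespace Pool.Agent.Lib.MP_f12a7c_lc

open Encodable Relation

section

variable {R : Set (Set ℕ)}

/-- the relation given by a family of maps -/
def relT (T : ℕ → X R → X R) (x y : X R) : Prop := ∃ i, T i x = y

/-- the union of two families -/
def joinT (A B : ℕ → X R → X R) (n : ℕ) (x : X R) : X R :=
  if n.unpair.1 = 0 then A n.unpair.2 x else B n.unpair.2 x

lemma relT_joinT {A B : ℕ → X R → X R} {x y : X R} :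
    relT (joinT A B) x y ↔ relT A x y ∨ relT B x y := by
  constructor
  · rintro ⟨n, hn⟩
    unfold joinT at hn
    by_cases h : n.unpair.1 = 0
    · rw [if_pos h] at hn
      exact Or.inl ⟨_, hn⟩
    · rw [if_neg h] at hn
      exact Or.inr ⟨_, hn⟩
  · rintro (⟨n, hn⟩ | ⟨n, hn⟩)
    · exact ⟨Nat.pair 0 n, by simp [joinT, hn]⟩
    · exact ⟨Nat.pair 1 n, by simp [joinT, hn]⟩

lemma coded_joinT (hR : ArithClosed R) {A B : ℕ → X R → X R} (hA : CodedMap R A)
    (hB : CodedMap R B) : CodedMap R (joinT A B) := by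
  have hf : Primrec (fun n : ℕ => n.unpair.2) := Primrec.snd.comp Primrec.unpair
  have h1 := CodedMap.ite hR (hA.comp_index hR hf) (hB.comp_index hR hf)
    (P := fun _ n => n.unpair.1 = 0)
    (Coded.of_primrec hR (Primrec.eq.comp (Primrec.fst.comp Primrec.unpair) (Primrec.const 0)))
  convert h1 using 3 with n x
  unfold joinT
  by_cases h : n.unpair.1 = 0 <;> simp [h]

/-- three steps -/
def cubeT (G : ℕ → X R → X R) (n : ℕ) (x : X R) : X R :=
  G n.unpair.2.unpair.2 (G n.unpair.2.unpair.1 (G n.unpair.1 x))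

lemma relT_cubeT {G : ℕ → X R → X R} {x y : X R} :
    relT (cubeT G) x y ↔ ∃ a b, relT G x a ∧ relT G a b ∧ relT G b y := by
  constructor
  · rintro ⟨n, hn⟩
    exact ⟨_, _, ⟨_, rfl⟩, ⟨_, rfl⟩, _, hn⟩
  · rintro ⟨a, b, ⟨i, rfl⟩, ⟨j, rfl⟩, k, rfl⟩
    exact ⟨Nat.pair i (Nat.pair j k), by simp [cubeT]⟩

lemma coded_cubeT (hR : ArithClosed R) {G : ℕ → X R → X R} (hG : CodedMap R G) :
    CodedMap R (cubeT G) := by
  have h1 : CodedMap R (fun (t : ℕ × ℕ) x => G t.2 (G t.1 x)) := CodedMap.comp hR hG hG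
  have h2 : CodedMap R (fun (t : (ℕ × ℕ) × ℕ) x => G t.2 (G t.1.2 (G t.1.1 x))) :=
    CodedMap.comp hR hG h1
  exact h2.comp_index hR
    (f := fun n : ℕ => ((n.unpair.1, n.unpair.2.unpair.1), n.unpair.2.unpair.2))
    (Primrec.pair (Primrec.pair (Primrec.fst.comp Primrec.unpair)
      (Primrec.fst.comp (Primrec.unpair.comp (Primrec.snd.comp Primrec.unpair))))
      (Primrec.snd.comp (Primrec.unpair.comp (Primrec.snd.comp Primrec.unpair))))

/-- Lemma 2 -/
theorem exists_next_rel (hR : ArithClosed R) (hc : R.Countable) {G F : ℕ → X R → X R}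
    (hG : CodedMap R G) (hF : CodedMap R F) (hGr : ∀ x, relT G x x)
    (hGs : ∀ x y, relT G x y → relT G y x) (hGf : ∀ x, {y | relT G x y}.Finite)
    (hFe : Equivalence (relT F)) (hFG : ∀ x y, relT F x y → relT G x y) :
    ∃ F' : ℕ → X R → X R, CodedMap R F' ∧ Equivalence (relT F') ∧
      (∀ x, {y | relT F' x y}.Finite) ∧ (∀ x y, relT F x y → relT F' x y) ∧
      (∀ x y, relT F' x y → ReflTransGen (relT G) x y) ∧
      ∀ x y z, relT G x y → relT G x z → relT G y z →
        relT F' x y ∨ relT F' x z ∨ relT F' y z := by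
  have hFf : ∀ x, {y | relT F x y}.Finite := fun x => (hGf x).subset fun y hy => hFG x y hy
  -- the wall for the cube of `G`
  obtain ⟨U, hU, hwall⟩ := exists_coded_wall hR hc (coded_cubeT hR hG)
    (fun x => relT_cubeT.2 ⟨x, x, hGr x, hGr x, hGr x⟩)
    (by
      intro x i
      have h1 : relT (cubeT G) x (cubeT G i x) := ⟨i, rfl⟩
      obtain ⟨a, b, h1, h2, h3⟩ := relT_cubeT.1 h1
      exact relT_cubeT.2 ⟨b, a, hGs _ _ h3, hGs _ _ h2, hGs _ _ h1⟩)
    (by
      intro x
      have h1 : (⋃ a ∈ {a | relT G x a}, ⋃ b ∈ {b | relT G a b}, {y | relT G b y}).Finite :=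
        (hGf x).biUnion fun a _ => (hGf a).biUnion fun b _ => hGf b
      apply h1.subset
      intro y hy
      obtain ⟨a, b, h1, h2, h3⟩ := relT_cubeT.1 hy
      simp only [Set.mem_iUnion]
      exact ⟨a, h1, b, h2, h3⟩)
  set U' : X R → Prop := fun x => ∃ i, U (F i x) with hU'
  have hU'c : Coded R (fun x (_ : Unit) => U' x) := by
    have h1 : Coded R (fun x (t : ℕ × Unit) => U (F t.1 x)) := Coded.subst hR hU hF
    have h2 : Coded R (fun x (t : Unit × ℕ) => U (F t.2 x)) :=
      Coded.comp hR h1 (f := fun t : Unit × ℕ => (t.2, t.1)) (Primrec.pair v0 r1)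
    exact Coded.ex hR h2
  have hU'F : ∀ x y, relT F x y → (U' x ↔ U' y) := by
    have h1 : ∀ x y, relT F x y → U' x → U' y := by
      rintro x y hxy ⟨i, hi⟩
      obtain ⟨j, hj⟩ := hFe.trans (hFe.symm hxy) (⟨i, rfl⟩ : relT F x (F i x))
      exact ⟨j, by rw [hj]; exact hi⟩
    exact fun x y hxy => ⟨h1 x y hxy, h1 y x (hFe.symm hxy)⟩
  set S : X R → X R → Prop := fun a b => relT G a b ∧ (U' a ↔ U' b) with hS
  have hSs : ∀ a b, S a b → S b a := fun a b h => ⟨hGs _ _ h.1, h.2.symm⟩
  have hSsymm : ∀ a b, ReflTransGen S a b → ReflTransGen S b a := by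
    intro a b h
    induction h with
    | refl => exact ReflTransGen.refl
    | tail _ hbc ih => exact ReflTransGen.head (hSs _ _ hbc) ih
  -- the words staying on one side
  set stay : X R → List ℕ → Prop := fun x u => ∀ v : List ℕ, v <+: u → (U' (words G v x) ↔ U' x)
    with hstay
  have hstayc : Coded R stay := by
    have h1 : Coded R (fun x (t : List ℕ × List ℕ) => U' (words G t.2 x)) :=
      Coded.comp hR (Coded.subst hR hU'c (CodedMap.words hR hG))
        (f := fun t : List ℕ × List ℕ => (t.2, ())) (Primrec.pair v0 (Primrec.const _))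
    have h2 : Coded R (fun x (_ : List ℕ × List ℕ) => U' x) :=
      Coded.comp hR hU'c (f := fun _ : List ℕ × List ℕ => ()) (Primrec.const _)
    have h3 : Coded R (fun (_ : X R) (t : List ℕ × List ℕ) => t.2 <+: t.1) := by
      have h4 : PrimrecPred (fun pq : List ℕ × List ℕ => pq.2 = pq.1.take pq.2.length) :=
        Primrec.eq.comp Primrec.snd
          (Primrec.list_take.comp (Primrec.list_length.comp Primrec.snd) Primrec.fst)
      exact Coded.of_primrec hR (h4.of_eq fun pq => by rw [List.prefix_iff_eq_take])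
    exact Coded.all hR (h3.imp hR (h1.iff hR h2))
  have hstay_cons : ∀ x i u, stay x (i :: u) ↔ (U' x ↔ U' (G i x)) ∧ stay (G i x) u := by
    intro x i u
    constructor
    · intro h
      have h1 : U' (G i x) ↔ U' x := h [i] ⟨u, rfl⟩
      refine ⟨h1.symm, fun v hv => ?_⟩
      have h2 : U' (words G v (G i x)) ↔ U' x := h (i :: v) (by simpa using hv)
      exact h2.trans h1.symm
    · rintro ⟨h1, h2⟩ v hv
      match v, hv with
      | [], _ => exact Iff.rfl
      | j :: v, hv =>
        obtain ⟨hji, hv'⟩ := List.cons_prefix_cons.1 hv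
        subst hji
        exact (h2 v hv').trans h1.symm
  have hword : ∀ u x, stay x u → ReflTransGen S x (words G u x) := by
    intro u
    induction u with
    | nil => intro x _; exact ReflTransGen.refl
    | cons i u ih =>
      intro x hx
      rw [hstay_cons] at hx
      exact ReflTransGen.head ⟨⟨i, rfl⟩, hx.1⟩ (ih _ hx.2)
  have hword' : ∀ x y, ReflTransGen S x y → ∃ u, stay x u ∧ words G u x = y := by
    intro x y h
    induction h using ReflTransGen.head_induction_on with
    | refl => exact ⟨[], fun v hv => by rw [List.prefix_nil.1 hv]; exact Iff.rfl, rfl⟩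
    | head hab _ ih =>
      obtain ⟨u, hu1, hu2⟩ := ih
      obtain ⟨⟨i, hi⟩, hab2⟩ := hab
      subst hi
      exact ⟨i :: u, (hstay_cons _ _ _).2 ⟨hab2, hu1⟩, hu2⟩
  classical
  let W : List ℕ → X R → X R := fun u x => if stay x u then words G u x else x
  have hW : CodedMap R W := CodedMap.ite hR (CodedMap.words hR hG) (CodedMap.id hR) hstayc
  let F' : ℕ → X R → X R := fun n => W ((decode n).getD [])
  have hF' : CodedMap R F' := hW.comp_index hR
    (Primrec.option_getD.comp Primrec.decode (Primrec.const _))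
  have hrel : ∀ x y, relT F' x y ↔ ReflTransGen S x y := by
    intro x y
    constructor
    · rintro ⟨n, hn⟩
      have hn : (if stay x ((decode n).getD []) then words G ((decode n).getD []) x else x) = y :=
        hn
      by_cases h : stay x ((decode n).getD [])
      · rw [if_pos h] at hn
        rw [← hn]
        exact hword _ _ h
      · rw [if_neg h] at hn
        rw [hn]
    · intro h
      obtain ⟨u, hu1, hu2⟩ := hword' x y h
      refine ⟨encode u, ?_⟩
      change (if stay x ((decode (encode u)).getD []) then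
        words G ((decode (encode u)).getD []) x else x) = y
      simp only [encodek, Option.getD_some]
      rw [if_pos hu1, hu2]
  have hcube : ∀ x y, relT G x y → relT (cubeT G) x y := fun x y h =>
    relT_cubeT.2 ⟨x, x, hGr x, hGr x, h⟩
  refine ⟨F', hF', ?_, ?_, ?_, ?_, ?_⟩
  · refine ⟨fun x => (hrel _ _).2 ReflTransGen.refl, ?_, ?_⟩
    · intro x y h
      rw [hrel] at h ⊢
      exact hSsymm _ _ h
    · intro x y z h1 h2
      rw [hrel] at h1 h2 ⊢
      exact h1.trans h2
  · intro x
    have hside : ∀ y, ReflTransGen S x y → (U' x ↔ U' y) := by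
      intro y h
      induction h with
      | refl => exact Iff.rfl
      | tail _ hbc ih => exact ih.trans hbc.2
    by_cases hx : U' x
    · -- shadow in `U`
      have hex : ∀ a, U' a → ∃ s, relT F a s ∧ U s := fun a ⟨i, hi⟩ => ⟨F i a, ⟨i, rfl⟩, hi⟩
      choose! σ hσ1 hσ2 using hex
      obtain ⟨P, hP1, hP2, hP3⟩ := hwall (σ x)
      have hmem : ∀ y, ReflTransGen S x y → σ y ∈ P := by
        intro y h
        induction h with
        | refl => exact hP2
        | @tail b c hb hbc ih =>
          have hUb : U' b := (hside b hb).1 hx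
          have hUc : U' c := hbc.2.1 hUb
          by_contra hc
          have h1 : relT (cubeT G) (σ b) (σ c) :=
            relT_cubeT.2 ⟨b, c, hFG _ _ (hFe.symm (hσ1 b hUb)), hbc.1, hFG _ _ (hσ1 c hUc)⟩
          exact (hP3 _ ih _ hc h1).2 (hσ2 c hUc)
      have hfin : (⋃ p ∈ P, {y | relT F p y}).Finite := hP1.biUnion fun p _ => hFf p
      apply hfin.subset
      intro y hy
      have hy' : ReflTransGen S x y := (hrel _ _).1 hy
      simp only [Set.mem_iUnion]
      exact ⟨σ y, hmem y hy', hFe.symm (hσ1 y ((hside y hy').1 hx))⟩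
    · obtain ⟨P, hP1, hP2, hP3⟩ := hwall x
      have hnU : ∀ y, ReflTransGen S x y → ¬ U y := by
        intro y hy hUy
        apply hx
        rw [hside y hy]
        obtain ⟨i, hi⟩ := hFe.refl y
        exact ⟨i, by rw [hi]; exact hUy⟩
      apply hP1.subset
      intro y hy
      have hy' : ReflTransGen S x y := (hrel _ _).1 hy
      clear hy
      induction hy' with
      | refl => exact hP2
      | @tail b c hb hbc ih =>
        by_contra hc
        exact hnU b hb (hP3 _ ih _ hc (hcube _ _ hbc.1)).1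
  · intro x y h
    rw [hrel]
    exact ReflTransGen.single ⟨hFG _ _ h, hU'F _ _ h⟩
  · intro x y h
    rw [hrel] at h
    induction h with
    | refl => exact ReflTransGen.refl
    | tail _ hbc ih => exact ih.tail hbc.1
  · intro x y z hxy hxz hyz
    by_cases hx : U' x <;> by_cases hy : U' y <;> by_cases hz : U' z
    · exact Or.inl ((hrel _ _).2 (ReflTransGen.single ⟨hxy, by tauto⟩))
    · exact Or.inl ((hrel _ _).2 (ReflTransGen.single ⟨hxy, by tauto⟩))
    · exact Or.inr (Or.inl ((hrel _ _).2 (ReflTransGen.single ⟨hxz, by tauto⟩)))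
    · exact Or.inr (Or.inr ((hrel _ _).2 (ReflTransGen.single ⟨hyz, by tauto⟩)))
    · exact Or.inr (Or.inr ((hrel _ _).2 (ReflTransGen.single ⟨hyz, by tauto⟩)))
    · exact Or.inr (Or.inl ((hrel _ _).2 (ReflTransGen.single ⟨hxz, by tauto⟩)))
    · exact Or.inl ((hrel _ _).2 (ReflTransGen.single ⟨hxy, by tauto⟩))
    · exact Or.inl ((hrel _ _).2 (ReflTransGen.single ⟨hxy, by tauto⟩))

end

end Pool.Agent.Lib.MP_f12a7c_lc
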