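import Pool.Agent.Lib.MP_f12a7c_lc.Rec
import Pool.Agent.Lib.MP_f12a7c_lc.Arith

/-!
# Natural numbers in a transitive model (II.4)
-/

namespace Pool.Agent.Lib.MP_f12a7c_lc

set_option linter.unusedSectionVars false

section NoModel

lemma mem_natZ {z : ZFSet.{0}} {n : ℕ} : z ∈ natZ n ↔ ∃ k < n, z = natZ k := by
  induction n with
  | zero => simp [natZ]
  | succ n ih =>
    simp only [natZ, ZFSet.mem_insert_iff, ih]
    constructor
    · rintro (h | ⟨m, hm, h⟩)
      · exact ⟨n, by omega, h⟩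
      · exact ⟨m, by omega, h⟩
    · rintro ⟨m, hm, h⟩
      rcases Nat.lt_succ_iff_lt_or_eq.1 hm with h' | h'
      · exact Or.inr ⟨m, h', h⟩
      · subst h'
        exact Or.inl h

lemma natZ_injective : Function.Injective natZ := by
  have key : ∀ m n, m < n → natZ m ≠ natZ n := by
    intro m n h heq
    have h1 : natZ m ∈ natZ n := mem_natZ.2 ⟨m, h, rfl⟩
    rw [heq] at h1
    exact ZFSet.mem_irrefl _ h1
  intro m n h
  rcases lt_trichotomy m n with h1 | h1 | h1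
  · exact absurd h (key m n h1)
  · exact h1
  · exact absurd h.symm (key n m h1)

lemma natZ_inj {m n : ℕ} : natZ m = natZ n ↔ m = n := natZ_injective.eq_iff

lemma natZ_mem_natZ {m n : ℕ} : natZ m ∈ natZ n ↔ m < n := by
  constructor
  · intro h
    obtain ⟨k, hk, h⟩ := mem_natZ.1 h
    rw [natZ_inj] at h
    omega
  · exact fun h => mem_natZ.2 ⟨m, h, rfl⟩

/-- the `Δ₀` definition of the natural numbers -/
lemma nat_isNat_iff {x : ZFSet.{0}} :
    (∀ y ∈ insert x x, y = ∅ ∨ ∃ z ∈ y, y = insert z z) ↔ ∃ n, x = natZ n := by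
  constructor
  · refine ZFSet.inductionOn
      (p := fun x => (∀ y ∈ insert x x, y = ∅ ∨ ∃ z ∈ y, y = insert z z) → ∃ n, x = natZ n) x ?_
    intro x ih hx
    rcases hx x (ZFSet.mem_insert _ _) with h | ⟨z, hz, h⟩
    · exact ⟨0, h⟩
    · obtain ⟨n, hn⟩ := ih z hz (by
        intro y hy
        rw [← h] at hy
        exact hx y (ZFSet.mem_insert_of_mem _ hy))
      refine ⟨n + 1, ?_⟩
      rw [h, hn]
      rfl
  · rintro ⟨n, rfl⟩ y hy
    have h : ∃ m, y = natZ m := by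
      rw [ZFSet.mem_insert_iff] at hy
      rcases hy with h | h
      · exact ⟨n, h⟩
      · obtain ⟨m, _, h⟩ := mem_natZ.1 h
        exact ⟨m, h⟩
    obtain ⟨m, rfl⟩ := h
    cases m with
    | zero => exact Or.inl rfl
    | succ m => exact Or.inr ⟨natZ m, natZ_mem_natZ.2 (by omega), rfl⟩

end NoModel

variable {M : Set ZFSet.{0}} [hM : Model M] {Γ : Type 1} [Ctx M Γ]

lemma natZ_mem (n : ℕ) : natZ n ∈ M := by
  induction n with
  | zero => exact empty_mem
  | succ n ih =>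
    have h := (insertM (⟨natZ n, ih⟩ : M) ⟨natZ n, ih⟩).2
    rw [insertM_val] at h
    exact h

/-- the natural number `n` in `M` -/
noncomputable def natM (n : ℕ) : M := ⟨natZ n, natZ_mem n⟩

lemma nat_emptyM_val : (emptyM (M := M)).1 = ∅ := rfl

lemma natM_zero : (natM 0 : M) = emptyM := rfl

lemma natM_succ (n : ℕ) : (natM (n + 1) : M) = insertM (natM n) (natM n) := by
  apply Subtype.ext
  rw [insertM_val]
  rfl

lemma natM_inj {m n : ℕ} : (natM m : M) = natM n ↔ m = n := by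
  constructor
  · intro h
    exact natZ_injective (congrArg Subtype.val h)
  · rintro rfl
    rfl

lemma natM_mem_natM {m n : ℕ} : (natM m : M).1 ∈ (natM n : M).1 ↔ m < n := natZ_mem_natZ

/-- being a natural number is definable -/
lemma nat_D1_isNat : D1 (fun x : M => ∃ n, x = natM n) := by
  have h : Dfn M (fun γ : C1 M => ∀ y : M, y.1 ∈ (insertM γ.2 γ.2).1 →
      (y = emptyM ∨ ∃ z : M, z.1 ∈ y.1 ∧ y = insertM z z)) := by
    refine Dfn.allB (P := fun _ y => y = emptyM ∨ ∃ z : M, z.1 ∈ y.1 ∧ y = insertM z z)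
      (F2_insertM.app DF.snd DF.snd) ?_
    refine Dfn.or (Dfn.eq DF.snd (DF.const _)) ?_
    exact Dfn.exB (P := fun (p : C1 M × M) z => p.2 = insertM z z) DF.snd
      (Dfn.eq DF.snd.wk (F2_insertM.app DF.snd DF.snd))
  refine h.of_iff ?_
  rintro ⟨_, x⟩
  have h1 := nat_isNat_iff (x := x.1)
  constructor
  · rintro ⟨n, hn⟩ y hy
    have hx : ∃ n, x.1 = natZ n := ⟨n, congrArg Subtype.val hn⟩
    rcases h1.2 hx y.1 (by rw [insertM_val] at hy; exact hy) with h2 | ⟨z, hz, h2⟩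
    · exact Or.inl (Subtype.ext h2)
    · have hzM : z ∈ M := trans_mem y.2 hz
      refine Or.inr ⟨⟨z, hzM⟩, hz, Subtype.ext ?_⟩
      rw [insertM_val]
      exact h2
  · intro h
    obtain ⟨n, hn⟩ := h1.1 (by
      intro y hy
      have hyM : y ∈ M := by
        have hy' : y ∈ (insertM x x).1 := by rw [insertM_val]; exact hy
        exact trans_mem (insertM x x).2 hy'
      rcases h ⟨y, hyM⟩ (by rw [insertM_val]; exact hy) with h2 | ⟨z, hz, h2⟩
      · exact Or.inl (congrArg Subtype.val h2)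
      · refine Or.inr ⟨z.1, hz, ?_⟩
        have h3 := congrArg Subtype.val h2
        rw [insertM_val] at h3
        exact h3)
    exact ⟨n, Subtype.ext hn⟩

lemma exists_omega : ∃ w : M, ∀ z : M, z.1 ∈ w.1 ↔ ∃ n, z = natM n := by
  obtain ⟨a, ⟨e, he, hea⟩, hsucc⟩ := hM.out.infinity
  have h0 : e = emptyM := by
    apply extM
    intro z
    constructor
    · intro hz
      exact absurd hz (he z)
    · intro hz
      exact absurd hz (ZFSet.notMem_empty _)
  have hnat : ∀ n, (natM n : M).1 ∈ a.1 := by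
    intro n
    induction n with
    | zero => rw [natM_zero, ← h0]; exact hea
    | succ n ih =>
      obtain ⟨y, hya, hy⟩ := hsucc (natM n) ih
      have : y = natM (n + 1) := by
        apply extM
        intro z
        rw [hy z, natM_succ, insertM_val, ZFSet.mem_insert_iff]
        constructor
        · rintro (h | h)
          · exact Or.inr h
          · exact Or.inl (congrArg Subtype.val h)
        · rintro (h | h)
          · exact Or.inr (Subtype.ext h)
          · exact Or.inl h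
      rw [← this]
      exact hya
  exact isSet_of_subset (Γ := C0) (P := fun _ z => ∃ n, z = natM n) nat_D1_isNat PUnit.unit a (by
    rintro z ⟨n, rfl⟩
    exact hnat n)

/-- the set of natural numbers in `M` -/
noncomputable def omegaM : M := (exists_omega (M := M)).choose

lemma mem_omegaM {z : M} : z.1 ∈ (omegaM (M := M)).1 ↔ ∃ n, z = natM n :=
  (exists_omega (M := M)).choose_spec z

lemma natM_mem_omegaM (n : ℕ) : (natM n : M).1 ∈ (omegaM (M := M)).1 := mem_omegaM.2 ⟨n, rfl⟩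

lemma nat_sUnionM_succ (n : ℕ) : sUnionM (natM (n + 1) : M) = natM n := by
  apply Subtype.ext
  rw [sUnionM_val]
  ext z
  rw [ZFSet.mem_sUnion]
  constructor
  · rintro ⟨y, hy, hz⟩
    obtain ⟨k, hk, rfl⟩ := mem_natZ.1 hy
    obtain ⟨l, hl, rfl⟩ := mem_natZ.1 hz
    exact natZ_mem_natZ.2 (by omega)
  · intro hz
    exact ⟨natZ n, natZ_mem_natZ.2 (by omega), hz⟩

/-- recursion along the natural numbers -/
theorem exists_rec_nat {b : Γ → M} (hb : DF b) {s : Γ → M → M → M}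
    (hs : DF (fun p : (Γ × M) × M => s p.1.1 p.1.2 p.2)) :
    ∃ F : Γ → M → M, DF (fun p : Γ × M => F p.1 p.2) ∧ (∀ γ, F γ (natM 0) = b γ) ∧
      ∀ γ n, F γ (natM (n + 1)) = s γ (natM n) (F γ (natM n)) := by
  let G : Γ → M → M → M := fun γ x r => @ite _ (x = emptyM) (Classical.propDecidable _) (b γ)
    (s γ (sUnionM x) (appM r (sUnionM x)))
  have hG : DF (fun p : (Γ × M) × M => G p.1.1 p.1.2 p.2) := by
    have hs' : DF (fun p : (Γ × M) × M =>
        s p.1.1 (sUnionM p.1.2) (appM p.2 (sUnionM p.1.2))) := by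
      have h1 : DF (fun q : (((Γ × M) × M) × M) × M => s q.1.1.1.1 q.1.2 q.2) :=
        DF.reindex (f := fun p : (Γ × M) × M => s p.1.1 p.1.2 p.2) hs
          (ρ := fun q : (((Γ × M) × M) × M) × M => ((q.1.1.1.1, q.1.2), q.2))
          (by
            have h2 : IsSub M (fun p : (Γ × M) × M => p.1.1) := by
              refine ⟨fun i => .var (i + 2), ?_⟩
              intro γ i
              rfl
            exact h2.lift.lift)
      have h3 : DF (fun q : ((Γ × M) × M) × M =>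
          s q.1.1.1 q.2 (appM q.1.2 (sUnionM q.1.1.2))) :=
        DF.comp (g := fun (q : ((Γ × M) × M) × M) a => s q.1.1.1 q.2 a) h1
          (F2_appM.app DF.snd.wk (F1_sUnionM.app DF.snd.wk.wk))
      exact DF.comp (g := fun (p : (Γ × M) × M) a => s p.1.1 a (appM p.2 (sUnionM p.1.2))) h3
        (F1_sUnionM.app DF.snd.wk)
    exact DF.ite (Dfn.eq DF.snd.wk (DF.const _)) hb.wk.wk hs'
  obtain ⟨F, hF, hF2⟩ := exists_rec_mem G hG
  refine ⟨F, hF, ?_, ?_⟩
  · intro γ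
    rw [hF2]
    exact if_pos natM_zero
  · intro γ n
    rw [hF2]
    simp only [G]
    rw [if_neg, nat_sUnionM_succ, appM_graphM hF]
    · exact natM_mem_natM.2 (by omega)
    · rw [← natM_zero, natM_inj]
      omega

/-- a function on the natural numbers is represented by a definable function of `M` -/
def Rep1 (M : Set ZFSet.{0}) [Model M] (f : ℕ → ℕ) : Prop :=
  ∃ g : M → M, F1 g ∧ ∀ n, g (natM n) = natM (f n)

/-- binary version -/
def Rep2 (M : Set ZFSet.{0}) [Model M] (f : ℕ → ℕ → ℕ) : Prop :=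
  ∃ g : M → M → M, F2 g ∧ ∀ m n, g (natM m) (natM n) = natM (f m n)

/-- a recursion with one natural number parameter -/
lemma nat_rep2_rec {f : ℕ → ℕ} (hf : Rep1 M f) {h : ℕ → ℕ → ℕ → ℕ} {k : M → M → M → M}
    (hk : F3 k) (hk2 : ∀ a m n, k (natM a) (natM m) (natM n) = natM (h a m n)) :
    Rep2 M (fun a n => Nat.rec (f a) (fun m u => h a m u) n) := by
  obtain ⟨g, hg, hg2⟩ := hf
  obtain ⟨F, hF, hF0, hF1⟩ := exists_rec_nat (Γ := C1 M) (b := fun γ => g γ.2) hg
    (s := fun γ m u => k γ.2 m u) hk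
  refine ⟨fun a n => F (PUnit.unit, a) n, hF, ?_⟩
  intro a n
  change F (PUnit.unit, natM a) (natM n) = natM (Nat.rec (f a) (fun m u => h a m u) n)
  induction n with
  | zero =>
    rw [hF0]
    exact hg2 a
  | succ n ih => rw [hF1, ih, hk2]

lemma nat_rep1_id : Rep1 M (fun n => n) := ⟨fun x => x, DF.snd, fun _ => rfl⟩

lemma nat_rep1_const (c : ℕ) : Rep1 M (fun _ => c) := ⟨fun _ => natM c, DF.const _, fun _ => rfl⟩

lemma nat_rep1_succ : Rep1 M Nat.succ :=
  ⟨fun x => insertM x x, F2_insertM.app DF.snd DF.snd, fun n => (natM_succ n).symm⟩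

lemma Rep1.comp {f g : ℕ → ℕ} (hf : Rep1 M f) (hg : Rep1 M g) : Rep1 M (fun n => f (g n)) := by
  obtain ⟨u, hu, hu2⟩ := hf
  obtain ⟨v, hv, hv2⟩ := hg
  exact ⟨fun x => u (v x), hu.app hv, fun n => by simp only [hv2, hu2]⟩

lemma Rep2.comp {f : ℕ → ℕ → ℕ} {g h : ℕ → ℕ} (hf : Rep2 M f) (hg : Rep1 M g) (hh : Rep1 M h) :
    Rep1 M (fun n => f (g n) (h n)) := by
  obtain ⟨u, hu, hu2⟩ := hf
  obtain ⟨v, hv, hv2⟩ := hg
  obtain ⟨w, hw, hw2⟩ := hh
  exact ⟨fun x => u (v x) (w x), hu.app hv hw, fun n => by simp only [hv2, hw2, hu2]⟩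

lemma Rep2.comp₂ {f g h : ℕ → ℕ → ℕ} (hf : Rep2 M f) (hg : Rep2 M g) (hh : Rep2 M h) :
    Rep2 M (fun m n => f (g m n) (h m n)) := by
  obtain ⟨u, hu, hu2⟩ := hf
  obtain ⟨v, hv, hv2⟩ := hg
  obtain ⟨w, hw, hw2⟩ := hh
  exact ⟨fun x y => u (v x y) (w x y), hu.app hv hw, fun m n => by simp only [hv2, hw2, hu2]⟩

lemma nat_rep2_fst : Rep2 M (fun m _ => m) := ⟨fun x _ => x, DF.snd.wk, fun _ _ => rfl⟩

lemma nat_rep2_snd : Rep2 M (fun _ n => n) := ⟨fun _ y => y, DF.snd, fun _ _ => rfl⟩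

lemma nat_rep2_add : Rep2 M (fun m n => m + n) := by
  have h := nat_rep2_rec (M := M) nat_rep1_id (h := fun _ _ u => u + 1)
    (k := fun _ _ u => insertM u u) (F2_insertM.app DF.snd DF.snd)
    (fun a m n => (natM_succ n).symm)
  convert h using 3 with m n
  induction n with
  | zero => rfl
  | succ n ih =>
    simp only at ih ⊢
    rw [← ih]
    rfl

lemma nat_rep2_mul : Rep2 M (fun m n => m * n) := by
  obtain ⟨g, hg, hg2⟩ := nat_rep2_add (M := M)
  have h := nat_rep2_rec (M := M) (nat_rep1_const 0) (h := fun a _ u => u + a)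
    (k := fun a _ u => g u a) (hg.app DF.snd DF.snd.wk.wk) (fun a m n => hg2 n a)
  convert h using 3 with m n
  induction n with
  | zero => rfl
  | succ n ih =>
    simp only at ih ⊢
    rw [← ih]
    rfl

theorem rep2_pair : Rep2 M Nat.pair := by
  classical
  obtain ⟨g, hg, hg2⟩ := Rep2.comp₂ (nat_rep2_add (M := M))
    (Rep2.comp₂ nat_rep2_mul nat_rep2_snd nat_rep2_snd) nat_rep2_fst
  obtain ⟨h, hh, hh2⟩ := Rep2.comp₂ (nat_rep2_add (M := M))
    (Rep2.comp₂ (nat_rep2_add (M := M)) (Rep2.comp₂ nat_rep2_mul nat_rep2_fst nat_rep2_fst)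
      nat_rep2_fst) nat_rep2_snd
  refine ⟨fun x y => if x.1 ∈ y.1 then g x y else h x y,
    DF.ite (Dfn.mem DF.snd.wk DF.snd) hg hh, ?_⟩
  intro m n
  simp only [natM_mem_natM]
  unfold Nat.pair
  split_ifs with h1
  · exact hg2 m n
  · exact hh2 m n

/-- inverse functions -/
lemma nat_rep1_unpair {u v : ℕ → ℕ} {p : ℕ → ℕ → ℕ} (hp : Rep2 M p)
    (h1 : ∀ n, p (u n) (v n) = n) (h2 : ∀ a b, u (p a b) = a) : Rep1 M u := by
  classical
  obtain ⟨g, hg, hg2⟩ := hp
  let f : M → M := fun z => if h : ∃ n, z = natM n then natM (u h.choose) else emptyM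
  have hf : ∀ n, f (natM n) = natM (u n) := by
    intro n
    have h : ∃ m, (natM n : M) = natM m := ⟨n, rfl⟩
    have h3 : h.choose = n := (natM_inj.1 h.choose_spec).symm
    simp only [f]
    rw [dif_pos h, h3]
  have hf' : ∀ z, (¬ ∃ n, z = natM n) → f z = emptyM := by
    intro z hz
    simp only [f]
    rw [dif_neg hz]
  refine ⟨f, ?_, hf⟩
  have hN : ∀ {Δ : Type 1} [Ctx M Δ] {k : Δ → M}, DF k →
      Dfn M (fun γ => ∃ n, k γ = natM n) := fun hk => nat_D1_isNat.app hk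
  refine DF.of_graph (fun (γ : C1 M) y => ((∃ n, γ.2 = natM n) ∧ (∃ n, y = natM n) ∧
    ∃ b : M, (∃ n, b = natM n) ∧ g y b = γ.2) ∨ ((¬ ∃ n, γ.2 = natM n) ∧ y = emptyM)) ?_ ?_
  · refine Dfn.or ((hN DF.snd.wk).and ((hN DF.snd).and ?_))
      ((hN DF.snd.wk).not.and (Dfn.eq DF.snd (DF.const _)))
    exact Dfn.ex (P := fun (p : C1 M × M) b => (∃ n, b = natM n) ∧ g p.2 b = p.1.2)
      ((hN DF.snd).and (Dfn.eq (hg.app DF.snd.wk DF.snd) DF.snd.wk.wk))
  · rintro ⟨_, z⟩ y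
    simp only
    constructor
    · rintro rfl
      by_cases h : ∃ n, z = natM n
      · obtain ⟨n, rfl⟩ := h
        refine Or.inl ⟨⟨n, rfl⟩, ⟨u n, hf n⟩, natM (v n), ⟨v n, rfl⟩, ?_⟩
        rw [hf, hg2, h1]
      · exact Or.inr ⟨h, hf' z h⟩
    · rintro (⟨⟨n, rfl⟩, ⟨a, rfl⟩, b, ⟨b, rfl⟩, h⟩ | ⟨h, rfl⟩)
      · rw [hg2, natM_inj] at h
        rw [hf, ← h, h2]
      · exact (hf' z h).symm

lemma nat_rep1_left : Rep1 M (fun n => (Nat.unpair n).1) :=
  nat_rep1_unpair (v := fun n => (Nat.unpair n).2) rep2_pair (fun n => Nat.pair_unpair n)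
    (fun a b => by rw [Nat.unpair_pair])

lemma nat_rep1_right : Rep1 M (fun n => (Nat.unpair n).2) := by
  have h : Rep2 M (fun a b => Nat.pair b a) :=
    Rep2.comp₂ rep2_pair nat_rep2_snd nat_rep2_fst
  exact nat_rep1_unpair (v := fun n => (Nat.unpair n).1) h (fun n => Nat.pair_unpair n)
    (fun a b => by rw [Nat.unpair_pair])

theorem rep_primrec {f : ℕ → ℕ} (hf : Nat.Primrec f) : Rep1 M f := by
  induction hf with
  | zero => exact nat_rep1_const 0
  | succ => exact nat_rep1_succ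
  | left => exact nat_rep1_left
  | right => exact nat_rep1_right
  | pair _ _ ih1 ih2 => exact Rep2.comp rep2_pair ih1 ih2
  | comp _ _ ih1 ih2 => exact Rep1.comp ih1 ih2
  | @prec f g _ _ ih1 ih2 =>
    obtain ⟨k, hk, hk2⟩ := ih2
    obtain ⟨p, hp, hp2⟩ := rep2_pair (M := M)
    have h := nat_rep2_rec (M := M) ih1 (h := fun a m u => g (Nat.pair a (Nat.pair m u)))
      (k := fun a m u => k (p a (p m u)))
      (hk.app (hp.app DF.snd.wk.wk (hp.app DF.snd.wk DF.snd)))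
      (fun a m n => by rw [hp2, hp2, hk2])
    exact Rep2.comp h nat_rep1_left nat_rep1_right

/-- the sets of natural numbers belonging to `M` -/
def RM (M : Set ZFSet.{0}) : Set (Set ℕ) := {A | ∃ a ∈ M, ∀ z, z ∈ a ↔ ∃ n ∈ A, z = natZ n}

lemma mem_RM_of_dfn {Q : M → Prop} (hQ : D1 Q) {A : Set ℕ} (h : ∀ n, Q (natM n) ↔ n ∈ A) :
    A ∈ RM M := by
  obtain ⟨b, hb⟩ := isSet_sep (Γ := C0) (P := fun _ z => Q z) hQ PUnit.unit (omegaM (M := M))
  refine ⟨b.1, b.2, fun z => ?_⟩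
  constructor
  · intro hz
    have hzM : z ∈ M := trans_mem b.2 hz
    obtain ⟨h1, h2⟩ := (hb ⟨z, hzM⟩).1 hz
    obtain ⟨n, hn⟩ := mem_omegaM.1 h1
    rw [hn] at h2
    exact ⟨n, (h n).1 h2, congrArg Subtype.val hn⟩
  · rintro ⟨n, hn, rfl⟩
    exact (hb (natM n)).2 ⟨natM_mem_omegaM n, (h n).2 hn⟩

/-- the element of `M` given by a set in `RM M` -/
lemma mem_RM_iff {A : Set ℕ} : A ∈ RM M ↔ ∃ a : M, ∀ z : M, z.1 ∈ a.1 ↔ ∃ n ∈ A, z = natM n := by
  constructor
  · rintro ⟨a, ha, h⟩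
    refine ⟨⟨a, ha⟩, fun z => (h z.1).trans ?_⟩
    constructor
    · rintro ⟨n, hn, h⟩
      exact ⟨n, hn, Subtype.ext h⟩
    · rintro ⟨n, hn, h⟩
      exact ⟨n, hn, congrArg Subtype.val h⟩
  · rintro ⟨a, h⟩
    refine ⟨a.1, a.2, fun z => ?_⟩
    constructor
    · intro hz
      obtain ⟨n, hn, h1⟩ := (h ⟨z, trans_mem a.2 hz⟩).1 hz
      exact ⟨n, hn, congrArg Subtype.val h1⟩
    · rintro ⟨n, hn, rfl⟩
      exact (h (natM n)).2 ⟨n, hn, rfl⟩

lemma exists_of_mem_RM {A : Set ℕ} (h : A ∈ RM M) :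
    ∃ a : M, ∀ n, (natM n : M).1 ∈ a.1 ↔ n ∈ A := by
  obtain ⟨a, ha⟩ := mem_RM_iff.1 h
  refine ⟨a, fun n => (ha _).trans ?_⟩
  constructor
  · rintro ⟨m, hm, h⟩
    rw [natM_inj] at h
    rwa [h]
  · intro hn
    exact ⟨n, hn, rfl⟩

theorem arithClosed_RM : ArithClosed (RM M) where
  compl := by
    intro A hA
    obtain ⟨a, ha⟩ := exists_of_mem_RM hA
    exact mem_RM_of_dfn (Q := fun z => ¬ z.1 ∈ a.1) (Dfn.mem DF.snd (DF.const a)).not
      (fun n => not_congr (ha n))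
  inter := by
    intro A hA B hB
    obtain ⟨a, ha⟩ := exists_of_mem_RM hA
    obtain ⟨b, hb⟩ := exists_of_mem_RM hB
    exact mem_RM_of_dfn (Q := fun z => z.1 ∈ a.1 ∧ z.1 ∈ b.1)
      ((Dfn.mem DF.snd (DF.const a)).and (Dfn.mem DF.snd (DF.const b)))
      (fun n => and_congr (ha n) (hb n))
  comap := by
    intro f hf A hA
    obtain ⟨a, ha⟩ := exists_of_mem_RM hA
    obtain ⟨g, hg, hg2⟩ := rep_primrec (M := M) hf
    exact mem_RM_of_dfn (Q := fun z => (g z).1 ∈ a.1) (Dfn.mem hg (DF.const a))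
      (fun n => by rw [hg2]; exact ha _)
  proj := by
    intro A hA
    obtain ⟨a, ha⟩ := exists_of_mem_RM hA
    obtain ⟨p, hp, hp2⟩ := rep2_pair (M := M)
    refine mem_RM_of_dfn (Q := fun z => ∃ w : M, w.1 ∈ (omegaM (M := M)).1 ∧ (p z w).1 ∈ a.1)
      (Dfn.exB (P := fun (γ : C1 M) w => (p γ.2 w).1 ∈ a.1) (DF.const _)
        (Dfn.mem (hp.app DF.snd.wk DF.snd) (DF.const a))) ?_
    intro n
    constructor
    · rintro ⟨w, hw, h⟩
      obtain ⟨m, rfl⟩ := mem_omegaM.1 hw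
      rw [hp2] at h
      exact ⟨m, (ha _).1 h⟩
    · rintro ⟨m, hm⟩
      refine ⟨natM m, natM_mem_omegaM m, ?_⟩
      rw [hp2]
      exact (ha _).2 hm
  zero := by
    refine mem_RM_of_dfn (Q := fun z => z = natM 0) (Dfn.eq DF.snd (DF.const _)) ?_
    intro n
    rw [natM_inj]
    rfl

theorem countable_RM (hc : M.Countable) : (RM M).Countable := by
  classical
  have h : ∀ A ∈ RM M, ∃ a : ZFSet.{0}, a ∈ M ∧ ∀ z, z ∈ a ↔ ∃ n ∈ A, z = natZ n := by
    intro A hA
    obtain ⟨a, ha, h⟩ := hA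
    exact ⟨a, ha, h⟩
  let g : Set ℕ → ZFSet.{0} := fun A =>
    if hA : ∃ a : ZFSet.{0}, a ∈ M ∧ ∀ z, z ∈ a ↔ ∃ n ∈ A, z = natZ n then hA.choose else ∅
  apply Set.MapsTo.countable_of_injOn (f := g) (t := M) _ _ hc
  · intro A hA
    have h1 := h A hA
    simp only [g]
    rw [dif_pos h1]
    exact h1.choose_spec.1
  · intro A hA B hB hAB
    have h1 := h A hA
    have h2 := h B hB
    simp only [g] at hAB
    rw [dif_pos h1, dif_pos h2] at hAB
    ext n
    have k1 := h1.choose_spec.2 (natZ n)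
    have k2 := h2.choose_spec.2 (natZ n)
    rw [hAB] at k1
    have k3 := k1.symm.trans k2
    constructor
    · intro hn
      obtain ⟨m, hm, h⟩ := k3.1 ⟨n, hn, rfl⟩
      rw [natZ_inj] at h
      rwa [h]
    · intro hn
      obtain ⟨m, hm, h⟩ := k3.2 ⟨n, hn, rfl⟩
      rw [natZ_inj] at h
      rwa [h]

end Pool.Agent.Lib.MP_f12a7c_lc
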