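import Pool.Agent.Lib.MP_f12a7c_lc.SetFun

/-!
# Recursion in a transitive model (II.3)
-/

namespace Pool.Agent.Lib.MP_f12a7c_lc

set_option linter.unusedSectionVars false

variable {M : Set ZFSet.{0}} [hM : Model M] {Γ : Type 1} [Ctx M Γ]

/-! ### Attempts -/

section Rec

variable (d : M → M) (G : Γ → M → M → M)

/-- attempts at a recursive definition -/
def RecAtt (γ : Γ) (f : M) : Prop :=
  (∀ x y y' : M, (opairM x y).1 ∈ f.1 → (opairM x y').1 ∈ f.1 → y = y') ∧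
  (∀ p : M, p.1 ∈ f.1 → ∃ x y : M, p = opairM x y) ∧
  ∀ x y : M, (opairM x y).1 ∈ f.1 → (∀ z : M, z.1 ∈ (d x).1 → ∃ w : M, (opairM z w).1 ∈ f.1) ∧
    y = G γ x (graphM (appM f) (d x))

/-- graph of the application of `f` -/
lemma recApp_DF : DF (fun p : C2 M => appM p.1.2 p.2) := F2_appM

lemma mem_graph_app (f a y : M) : y.1 ∈ (graphM (appM f) a).1 ↔ ∃ x : M, x.1 ∈ a.1 ∧ y = opairM x (appM f x) :=
  mem_graphM (F := fun (p : C1 M) (x : M) => appM p.2 x) recApp_DF ((PUnit.unit, f) : C1 M) a y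

lemma graph_app_DF {Δ : Type 1} [Ctx M Δ] {f a : Δ → M} (hf : DF f) (ha : DF a) :
    DF (fun δ => graphM (appM (f δ)) (a δ)) :=
  DF.graph (F := fun δ x => appM (f δ) x) (F2_appM.app hf.wk DF.snd) ha

lemma graph_app_congr {f f' a : M} (h : ∀ z : M, z.1 ∈ a.1 → appM f z = appM f' z) :
    graphM (appM f) a = graphM (appM f') a := by
  apply extM
  intro z
  rw [mem_graph_app, mem_graph_app]
  constructor
  · rintro ⟨x, hx, rfl⟩
    exact ⟨x, hx, by rw [h x hx]⟩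
  · rintro ⟨x, hx, rfl⟩
    exact ⟨x, hx, by rw [h x hx]⟩

variable {d G}

lemma RecAtt.app {γ : Γ} {f : M} (h : RecAtt d G γ f) {x y : M} (hxy : (opairM x y).1 ∈ f.1) : appM f x = y :=
  appM_eq hxy fun _ hy' => h.1 x _ _ hy' hxy

lemma recAtt_unique (hlt : ∀ x z : M, z.1 ∈ (d x).1 → z.1.rank < x.1.rank) {γ : Γ} {f f' : M}
    (h : RecAtt d G γ f) (h' : RecAtt d G γ f') :
    ∀ (o : Ordinal) (x y y' : M), x.1.rank = o → (opairM x y).1 ∈ f.1 → (opairM x y').1 ∈ f'.1 → y = y' := by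
  intro o
  induction o using WellFoundedLT.induction with
  | ind o ih =>
    intro x y y' ho hy hy'
    obtain ⟨h1, h2⟩ := h.2.2 x y hy
    obtain ⟨h1', h2'⟩ := h'.2.2 x y' hy'
    rw [h2, h2']
    congr 1
    apply graph_app_congr
    intro z hz
    obtain ⟨w, hw⟩ := h1 z hz
    obtain ⟨w', hw'⟩ := h1' z hz
    rw [h.app hw, h'.app hw']
    exact ih _ (ho ▸ hlt x z hz) z w w' rfl hw hw'

lemma recAtt_Dfn (hd : F1 d) (hG : DF (fun p : (Γ × M) × M => G p.1.1 p.1.2 p.2)) :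
    Dfn M (fun p : Γ × M => RecAtt d G p.1 p.2) := by
  unfold RecAtt
  refine Dfn.and ?_ (Dfn.and ?_ ?_)
  · refine Dfn.all (P := fun (p : Γ × M) (x : M) => ∀ y y' : M, (opairM x y).1 ∈ p.2.1 →
      (opairM x y').1 ∈ p.2.1 → y = y') ?_
    refine Dfn.all (P := fun (p : (Γ × M) × M) (y : M) => ∀ y' : M, (opairM p.2 y).1 ∈ p.1.2.1 →
      (opairM p.2 y').1 ∈ p.1.2.1 → y = y') ?_
    refine Dfn.all (P := fun (p : ((Γ × M) × M) × M) (y' : M) => (opairM p.1.2 p.2).1 ∈ p.1.1.2.1 →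
      (opairM p.1.2 y').1 ∈ p.1.1.2.1 → p.2 = y') ?_
    refine Dfn.imp ?_ (Dfn.imp ?_ ?_)
    · exact Dfn.mem (F2_opairM.app DF.snd.wk.wk DF.snd.wk) DF.snd.wk.wk.wk
    · exact Dfn.mem (F2_opairM.app DF.snd.wk.wk DF.snd) DF.snd.wk.wk.wk
    · exact Dfn.eq DF.snd.wk DF.snd
  · refine Dfn.all (P := fun (p : Γ × M) (q : M) => q.1 ∈ p.2.1 → ∃ x y : M, q = opairM x y) ?_
    refine Dfn.imp (Dfn.mem DF.snd DF.snd.wk) ?_
    refine Dfn.ex (P := fun (p : (Γ × M) × M) (x : M) => ∃ y : M, p.2 = opairM x y) ?_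
    refine Dfn.ex (P := fun (p : ((Γ × M) × M) × M) (y : M) => p.1.2 = opairM p.2 y) ?_
    exact Dfn.eq DF.snd.wk.wk (F2_opairM.app DF.snd.wk DF.snd)
  · refine Dfn.all (P := fun (p : Γ × M) (x : M) => ∀ y : M, (opairM x y).1 ∈ p.2.1 →
      (∀ z : M, z.1 ∈ (d x).1 → ∃ w : M, (opairM z w).1 ∈ p.2.1) ∧
      y = G p.1 x (graphM (appM p.2) (d x))) ?_
    refine Dfn.all (P := fun (p : (Γ × M) × M) (y : M) => (opairM p.2 y).1 ∈ p.1.2.1 →
      (∀ z : M, z.1 ∈ (d p.2).1 → ∃ w : M, (opairM z w).1 ∈ p.1.2.1) ∧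
      y = G p.1.1 p.2 (graphM (appM p.1.2) (d p.2))) ?_
    refine Dfn.imp ?_ (Dfn.and ?_ ?_)
    · exact Dfn.mem (F2_opairM.app DF.snd.wk DF.snd) DF.snd.wk.wk
    · refine Dfn.allB (P := fun (p : ((Γ × M) × M) × M) (z : M) => ∃ w : M, (opairM z w).1 ∈ p.1.1.2.1)
        (f := fun p => d p.1.2) (hd.app DF.snd.wk) ?_
      refine Dfn.ex (P := fun (p : (((Γ × M) × M) × M) × M) (w : M) => (opairM p.2 w).1 ∈ p.1.1.1.2.1) ?_
      exact Dfn.mem (F2_opairM.app DF.snd.wk DF.snd) DF.snd.wk.wk.wk.wk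
    · refine Dfn.eq DF.snd ?_
      have h1 : DF (fun p : ((Γ × M) × M) × M => graphM (appM p.1.1.2) (d p.1.2)) :=
        graph_app_DF DF.snd.wk.wk (hd.app DF.snd.wk)
      have h2 : DF (fun q : (((Γ × M) × M) × M) × M => G q.1.1.1.1 q.1.1.2 q.2) :=
        DF.reindex (f := fun p : (Γ × M) × M => G p.1.1 p.1.2 p.2) hG
          (ρ := fun q : (((Γ × M) × M) × M) × M => ((q.1.1.1.1, q.1.1.2), q.2)) (by
            refine ⟨fun i => match i with | 0 => .var 0 | 1 => .var 2 | n + 2 => .var (n + 4), ?_⟩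
            rintro q i
            match i with
            | 0 => rfl
            | 1 => rfl
            | n + 2 => rfl)
      exact DF.comp (g := fun (p : ((Γ × M) × M) × M) (a : M) => G p.1.1.1 p.1.2 a) h2 h1

/-- the canonical attempt at `z` -/
noncomputable def recK (d : M → M) (G : Γ → M → M → M) (γ : Γ) (z : M) : M :=
  mkM (fun p => (∃ f : M, RecAtt d G γ f ∧ ∃ w : M, (opairM z w).1 ∈ f.1) ∧
    ∀ f : M, RecAtt d G γ f → (∃ w : M, (opairM z w).1 ∈ f.1) → p.1 ∈ f.1)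

lemma recK_Dfn (hd : F1 d) (hG : DF (fun p : (Γ × M) × M => G p.1.1 p.1.2 p.2)) :
    Dfn M (fun p : (Γ × M) × M => (∃ f : M, RecAtt d G p.1.1 f ∧ ∃ w : M, (opairM p.1.2 w).1 ∈ f.1) ∧
      ∀ f : M, RecAtt d G p.1.1 f → (∃ w : M, (opairM p.1.2 w).1 ∈ f.1) → p.2.1 ∈ f.1) := by
  have hA : Dfn M (fun p : ((Γ × M) × M) × M => RecAtt d G p.1.1.1 p.2) :=
    Dfn.reindex (P := fun p : Γ × M => RecAtt d G p.1 p.2) (recAtt_Dfn hd hG)
      (ρ := fun p : ((Γ × M) × M) × M => (p.1.1.1, p.2)) (by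
        refine ⟨fun i => match i with | 0 => .var 0 | n + 1 => .var (n + 3), ?_⟩
        rintro q i
        match i with
        | 0 => rfl
        | n + 1 => rfl)
  have hB : Dfn M (fun p : ((Γ × M) × M) × M => ∃ w : M, (opairM p.1.1.2 w).1 ∈ p.2.1) := by
    refine Dfn.ex (P := fun (p : ((Γ × M) × M) × M) (w : M) => (opairM p.1.1.2 w).1 ∈ p.2.1) ?_
    exact Dfn.mem (F2_opairM.app DF.snd.wk.wk.wk DF.snd) DF.snd.wk
  refine Dfn.and ?_ ?_
  · exact Dfn.ex (P := fun (p : (Γ × M) × M) (f : M) => RecAtt d G p.1.1 f ∧ ∃ w : M, (opairM p.1.2 w).1 ∈ f.1)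
      (Dfn.and hA hB)
  · refine Dfn.all (P := fun (p : (Γ × M) × M) (f : M) => RecAtt d G p.1.1 f →
      (∃ w : M, (opairM p.1.2 w).1 ∈ f.1) → p.2.1 ∈ f.1) (Dfn.imp hA (Dfn.imp hB ?_))
    exact Dfn.mem DF.snd.wk DF.snd

lemma recK_isSet (hd : F1 d) (hG : DF (fun p : (Γ × M) × M => G p.1.1 p.1.2 p.2)) (γ : Γ) (z : M) :
    IsSet (fun p : M => (∃ f : M, RecAtt d G γ f ∧ ∃ w : M, (opairM z w).1 ∈ f.1) ∧
      ∀ f : M, RecAtt d G γ f → (∃ w : M, (opairM z w).1 ∈ f.1) → p.1 ∈ f.1) := by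
  by_cases h : ∃ f : M, RecAtt d G γ f ∧ ∃ w : M, (opairM z w).1 ∈ f.1
  · obtain ⟨f, hf, hw⟩ := h
    exact isSet_of_subset (P := fun (p : Γ × M) (q : M) => (∃ f : M, RecAtt d G p.1 f ∧ ∃ w : M, (opairM p.2 w).1 ∈ f.1) ∧
      ∀ f : M, RecAtt d G p.1 f → (∃ w : M, (opairM p.2 w).1 ∈ f.1) → q.1 ∈ f.1) (recK_Dfn hd hG) (γ, z) f
      (fun q hq => hq.2 f hf hw)
  · refine ⟨emptyM, fun q => ?_⟩
    constructor
    · intro hq
      exact absurd hq (ZFSet.notMem_empty _)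
    · intro hq
      exact absurd hq.1 h

lemma mem_recK (hd : F1 d) (hG : DF (fun p : (Γ × M) × M => G p.1.1 p.1.2 p.2)) (γ : Γ) (z p : M) :
    p.1 ∈ (recK d G γ z).1 ↔ (∃ f : M, RecAtt d G γ f ∧ ∃ w : M, (opairM z w).1 ∈ f.1) ∧
      ∀ f : M, RecAtt d G γ f → (∃ w : M, (opairM z w).1 ∈ f.1) → p.1 ∈ f.1 :=
  mem_mkM (recK_isSet hd hG γ z)

lemma recK_DF (hd : F1 d) (hG : DF (fun p : (Γ × M) × M => G p.1.1 p.1.2 p.2)) :
    DF (fun p : Γ × M => recK d G p.1 p.2) :=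
  DF.mk (P := fun (p : Γ × M) (q : M) => (∃ f : M, RecAtt d G p.1 f ∧ ∃ w : M, (opairM p.2 w).1 ∈ f.1) ∧
      ∀ f : M, RecAtt d G p.1 f → (∃ w : M, (opairM p.2 w).1 ∈ f.1) → q.1 ∈ f.1) (recK_Dfn hd hG)
    (fun p => recK_isSet hd hG p.1 p.2)

/-- if there is an attempt at `z`, the canonical one is an attempt -/
lemma recK_att (hlt : ∀ x z : M, z.1 ∈ (d x).1 → z.1.rank < x.1.rank) (hd : F1 d)
    (hG : DF (fun p : (Γ × M) × M => G p.1.1 p.1.2 p.2)) (γ : Γ) (z : M)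
    (h : ∃ f : M, RecAtt d G γ f ∧ ∃ w : M, (opairM z w).1 ∈ f.1) :
    RecAtt d G γ (recK d G γ z) ∧ ∃ w : M, (opairM z w).1 ∈ (recK d G γ z).1 := by
  obtain ⟨f, hf, w, hw⟩ := h
  have hne : ∃ f : M, RecAtt d G γ f ∧ ∃ w : M, (opairM z w).1 ∈ f.1 := ⟨f, hf, w, hw⟩
  have hsub : ∀ p : M, p.1 ∈ (recK d G γ z).1 → p.1 ∈ f.1 := fun p hp =>
    ((mem_recK hd hG γ z p).1 hp).2 f hf ⟨w, hw⟩
  have hin : ∀ x y : M, (opairM x y).1 ∈ f.1 →
      (∀ g : M, RecAtt d G γ g → (∃ w : M, (opairM z w).1 ∈ g.1) → ∃ y', (opairM x y').1 ∈ g.1) →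
      (opairM x y).1 ∈ (recK d G γ z).1 := by
    intro x y hxy hg
    rw [mem_recK hd hG]
    refine ⟨hne, fun g hgA hgz => ?_⟩
    obtain ⟨y', hy'⟩ := hg g hgA hgz
    rwa [recAtt_unique hlt hf hgA _ x y y' rfl hxy hy']
  have hdom : ∀ x y v : M, (opairM x y).1 ∈ (recK d G γ z).1 → v.1 ∈ (d x).1 →
      ∃ w : M, (opairM v w).1 ∈ (recK d G γ z).1 := by
    intro x y v hxy hv
    have h1 := (hf.2.2 x y (hsub _ hxy)).1 v hv
    obtain ⟨w', hw'⟩ := h1
    refine ⟨w', hin v w' hw' fun g hgA hgz => ?_⟩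
    have h2 := ((mem_recK hd hG γ z _).1 hxy).2 g hgA hgz
    exact (hgA.2.2 x y h2).1 v hv
  have hfun : ∀ x y y' : M, (opairM x y).1 ∈ (recK d G γ z).1 → (opairM x y').1 ∈ (recK d G γ z).1 → y = y' :=
    fun x y y' h1 h2 => hf.1 x y y' (hsub _ h1) (hsub _ h2)
  refine ⟨⟨hfun, fun p hp => hf.2.1 p (hsub p hp), fun x y hxy => ⟨fun v hv => hdom x y v hxy hv, ?_⟩⟩,
    w, hin z w hw fun g _ hgz => hgz⟩
  have h1 := (hf.2.2 x y (hsub _ hxy)).2
  rw [h1]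
  congr 1
  apply graph_app_congr
  intro v hv
  obtain ⟨w', hw'⟩ := hdom x y v hxy hv
  rw [hf.app (hsub _ hw'), appM_eq hw' fun y' hy' => hfun v y' w' hy' hw']

/-- there is an attempt at every `x` -/
lemma exists_recAtt (hlt : ∀ x z : M, z.1 ∈ (d x).1 → z.1.rank < x.1.rank) (hd : F1 d)
    (hG : DF (fun p : (Γ × M) × M => G p.1.1 p.1.2 p.2)) (γ : Γ) :
    ∀ (o : Ordinal) (x : M), x.1.rank = o → ∃ f : M, RecAtt d G γ f ∧ ∃ w : M, (opairM x w).1 ∈ f.1 := by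
  intro o
  induction o using WellFoundedLT.induction with
  | ind o ih =>
    intro x ho
    have ih' : ∀ z : M, z.1 ∈ (d x).1 → RecAtt d G γ (recK d G γ z) ∧ ∃ w : M, (opairM z w).1 ∈ (recK d G γ z).1 :=
      fun z hz => recK_att hlt hd hG γ z (ih _ (ho ▸ hlt x z hz) z rfl)
    let U : M := sUnionM (imageM (recK d G γ) (d x))
    have hU : ∀ p : M, p.1 ∈ U.1 ↔ ∃ z : M, z.1 ∈ (d x).1 ∧ p.1 ∈ (recK d G γ z).1 := by
      intro p
      show p.1 ∈ (sUnionM _).1 ↔ _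
      rw [sUnionM_val, ZFSet.mem_sUnion]
      constructor
      · rintro ⟨y, hy, hp⟩
        have hyM : y ∈ M := trans_mem (Subtype.property _) hy
        obtain ⟨z, hz, hyz⟩ := (mem_imageM (F := recK d G) (recK_DF hd hG) γ (d x) ⟨y, hyM⟩).1 hy
        refine ⟨z, hz, ?_⟩
        rw [← hyz]
        exact hp
      · rintro ⟨z, hz, hp⟩
        exact ⟨(recK d G γ z).1, (mem_imageM (F := recK d G) (recK_DF hd hG) γ (d x) _).2 ⟨z, hz, rfl⟩, hp⟩
    have hUatt : RecAtt d G γ U := by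
      have hfun : ∀ a y y' : M, (opairM a y).1 ∈ U.1 → (opairM a y').1 ∈ U.1 → y = y' := by
        intro a y y' hy hy'
        obtain ⟨z, hz, h1⟩ := (hU _).1 hy
        obtain ⟨z', hz', h2⟩ := (hU _).1 hy'
        exact recAtt_unique hlt (ih' z hz).1 (ih' z' hz').1 _ a y y' rfl h1 h2
      refine ⟨hfun, ?_, ?_⟩
      · intro p hp
        obtain ⟨z, hz, h1⟩ := (hU _).1 hp
        exact (ih' z hz).1.2.1 p h1
      · intro a y hy
        obtain ⟨z, hz, h1⟩ := (hU _).1 hy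
        obtain ⟨h2, h3⟩ := (ih' z hz).1.2.2 a y h1
        refine ⟨fun v hv => ?_, ?_⟩
        · obtain ⟨w, hw⟩ := h2 v hv
          exact ⟨w, (hU _).2 ⟨z, hz, hw⟩⟩
        · rw [h3]
          congr 1
          apply graph_app_congr
          intro v hv
          obtain ⟨w, hw⟩ := h2 v hv
          rw [(ih' z hz).1.app hw]
          exact (appM_eq ((hU _).2 ⟨z, hz, hw⟩) fun y' hy' => hfun v y' w hy' ((hU _).2 ⟨z, hz, hw⟩)).symm
    have hUd : ∀ z : M, z.1 ∈ (d x).1 → ∃ w : M, (opairM z w).1 ∈ U.1 := by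
      intro z hz
      obtain ⟨w, hw⟩ := (ih' z hz).2
      exact ⟨w, (hU _).2 ⟨z, hz, hw⟩⟩
    by_cases hx : ∃ w : M, (opairM x w).1 ∈ U.1
    · exact ⟨U, hUatt, hx⟩
    · let w0 : M := G γ x (graphM (appM U) (d x))
      let f : M := insertM (opairM x w0) U
      have hf : ∀ p : M, p.1 ∈ f.1 ↔ p = opairM x w0 ∨ p.1 ∈ U.1 := by
        intro p
        show p.1 ∈ (insertM _ _).1 ↔ _
        rw [insertM_val, ZFSet.mem_insert_iff]
        constructor
        · rintro (h | h)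
          · exact Or.inl (Subtype.ext h)
          · exact Or.inr h
        · rintro (h | h)
          · exact Or.inl (congrArg Subtype.val h)
          · exact Or.inr h
      have hfx : ∀ a y : M, (opairM a y).1 ∈ f.1 ↔ (a = x ∧ y = w0) ∨ (opairM a y).1 ∈ U.1 := by
        intro a y
        rw [hf, opairM_inj]
      have happ : ∀ a w : M, (opairM a w).1 ∈ U.1 → appM f a = w := by
        intro a w hw
        refine appM_eq ((hfx _ _).2 (Or.inr hw)) fun y' hy' => ?_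
        rcases (hfx _ _).1 hy' with ⟨rfl, rfl⟩ | h
        · exact absurd ⟨w, hw⟩ hx
        · exact hUatt.1 a y' w h hw
      refine ⟨f, ⟨?_, ?_, ?_⟩, w0, (hfx _ _).2 (Or.inl ⟨rfl, rfl⟩)⟩
      · intro a y y' hy hy'
        rcases (hfx _ _).1 hy with ⟨rfl, rfl⟩ | h
        · rcases (hfx _ _).1 hy' with ⟨-, rfl⟩ | h'
          · rfl
          · exact absurd ⟨y', h'⟩ hx
        · rcases (hfx _ _).1 hy' with ⟨rfl, rfl⟩ | h'
          · exact absurd ⟨y, h⟩ hx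
          · exact hUatt.1 a y y' h h'
      · intro p hp
        rcases (hf p).1 hp with h | h
        · exact ⟨x, w0, h⟩
        · exact hUatt.2.1 p h
      · intro a y hy
        rcases (hfx _ _).1 hy with ⟨rfl, rfl⟩ | h
        · refine ⟨fun v hv => ?_, ?_⟩
          · obtain ⟨w, hw⟩ := hUd v hv
            exact ⟨w, (hfx _ _).2 (Or.inr hw)⟩
          · show G γ a (graphM (appM U) (d a)) = _
            congr 1
            apply graph_app_congr
            intro v hv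
            obtain ⟨w, hw⟩ := hUd v hv
            rw [happ v w hw, hUatt.app hw]
        · obtain ⟨h1, h2⟩ := hUatt.2.2 a y h
          refine ⟨fun v hv => ?_, ?_⟩
          · obtain ⟨w, hw⟩ := h1 v hv
            exact ⟨w, (hfx _ _).2 (Or.inr hw)⟩
          · rw [h2]
            congr 1
            apply graph_app_congr
            intro v hv
            obtain ⟨w, hw⟩ := h1 v hv
            rw [happ v w hw, hUatt.app hw]

end Rec

/-- Definition by recursion: `F γ x` is given in terms of the restriction of `F γ` to a set `d x`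
whose elements have smaller rank than `x`. -/
theorem exists_rec (d : M → M) (hd : F1 d)
    (hlt : ∀ x z : M, z.1 ∈ (d x).1 → z.1.rank < x.1.rank)
    (G : Γ → M → M → M) (hG : DF (fun p : (Γ × M) × M => G p.1.1 p.1.2 p.2)) :
    ∃ F : Γ → M → M, DF (fun p : Γ × M => F p.1 p.2) ∧
      ∀ γ x, F γ x = G γ x (graphM (F γ) (d x)) := by
  have hDF : DF (fun p : Γ × M => appM (recK d G p.1 p.2) p.2) :=
    F2_appM.app (recK_DF hd hG) DF.snd
  refine ⟨fun γ x => appM (recK d G γ x) x, hDF, fun γ x => ?_⟩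
  obtain ⟨hK, w, hw⟩ := recK_att hlt hd hG γ x (exists_recAtt hlt hd hG γ _ x rfl)
  obtain ⟨h1, h2⟩ := hK.2.2 x w hw
  show appM (recK d G γ x) x = _
  rw [hK.app hw, h2]
  congr 1
  apply extM
  intro z
  rw [mem_graph_app, mem_graphM (F := fun (γ : Γ) (x : M) => appM (recK d G γ x) x) hDF γ (d x) z]
  have key : ∀ v : M, v.1 ∈ (d x).1 → appM (recK d G γ x) v = appM (recK d G γ v) v := by
    intro v hv
    obtain ⟨u, hu⟩ := h1 v hv
    obtain ⟨hK', u', hu'⟩ := recK_att hlt hd hG γ v (exists_recAtt hlt hd hG γ _ v rfl)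
    rw [hK.app hu, hK'.app hu']
    exact recAtt_unique hlt hK hK' _ v u u' rfl hu hu'
  constructor
  · rintro ⟨v, hv, rfl⟩
    exact ⟨v, hv, by rw [key v hv]⟩
  · rintro ⟨v, hv, rfl⟩
    exact ⟨v, hv, by rw [key v hv]⟩

/-- recursion on the names occurring in a name -/
theorem exists_rec_dom (G : Γ → M → M → M)
    (hG : DF (fun p : (Γ × M) × M => G p.1.1 p.1.2 p.2)) :
    ∃ F : Γ → M → M, DF (fun p : Γ × M => F p.1 p.2) ∧
      ∀ γ x, F γ x = G γ x (graphM (F γ) (domM x)) := by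
  refine exists_rec domM F1_domM ?_ G hG
  intro x z hz
  rw [mem_domM] at hz
  obtain ⟨y, hy⟩ := hz
  rw [opairM_val] at hy
  exact rank_fst_lt hy

/-- `∈`-recursion -/
theorem exists_rec_mem (G : Γ → M → M → M)
    (hG : DF (fun p : (Γ × M) × M => G p.1.1 p.1.2 p.2)) :
    ∃ F : Γ → M → M, DF (fun p : Γ × M => F p.1 p.2) ∧
      ∀ γ x, F γ x = G γ x (graphM (F γ) x) :=
  exists_rec (fun x => x) DF.snd (fun _ _ h => ZFSet.rank_lt_of_mem h) G hG

/-- every set of `M` is contained in a transitive set of `M` -/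
theorem exists_transitive (a : M) : ∃ t : M, a.1 ⊆ t.1 ∧ ∀ x ∈ t.1, ∀ y ∈ x, y ∈ t.1 := by
  have hG : DF (fun p : (C0 × M) × M => unionM p.1.2 (sUnionM (imageM (appM p.2) p.1.2))) := by
    refine F2_unionM.app DF.snd.wk (F1_sUnionM.app ?_)
    exact DF.image (F := fun (p : (C0 × M) × M) (z : M) => appM p.2 z) (F2_appM.app DF.snd.wk DF.snd) DF.snd.wk
  obtain ⟨F, hFD, hF⟩ := exists_rec_mem (M := M) (Γ := C0)
    (fun _ x f => unionM x (sUnionM (imageM (appM f) x))) hG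
  let t : M → M := F PUnit.unit
  have ht : ∀ x y : M, y.1 ∈ (t x).1 ↔ y.1 ∈ x.1 ∨ ∃ z : M, z.1 ∈ x.1 ∧ y.1 ∈ (t z).1 := by
    intro x y
    have h1 : t x = unionM x (sUnionM (imageM (appM (graphM (F PUnit.unit) x)) x)) := hF PUnit.unit x
    have h2 : ∀ u : M, u.1 ∈ (imageM (appM (graphM (F PUnit.unit) x)) x).1 ↔
        ∃ z : M, z.1 ∈ x.1 ∧ u = appM (graphM (F PUnit.unit) x) z := fun u =>
      mem_imageM (F := fun (p : C1 M) (z : M) => appM p.2 z) recApp_DF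
        ((PUnit.unit, graphM (F PUnit.unit) x) : C1 M) x u
    rw [h1, unionM_val, ZFSet.mem_union, sUnionM_val, ZFSet.mem_sUnion]
    apply or_congr Iff.rfl
    constructor
    · rintro ⟨u, hu, hyu⟩
      have huM : u ∈ M := trans_mem (Subtype.property _) hu
      obtain ⟨z, hz, huz⟩ := (h2 ⟨u, huM⟩).1 hu
      refine ⟨z, hz, ?_⟩
      rw [appM_graphM hFD PUnit.unit hz] at huz
      have h3 : u = (t z).1 := congrArg Subtype.val huz
      rw [← h3]
      exact hyu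
    · rintro ⟨z, hz, hyz⟩
      refine ⟨(t z).1, (h2 _).2 ⟨z, hz, ?_⟩, hyz⟩
      rw [appM_graphM hFD PUnit.unit hz]
  refine ⟨t a, ?_, ?_⟩
  · intro y hy
    have hyM : y ∈ M := trans_mem a.2 hy
    exact (ht a ⟨y, hyM⟩).2 (Or.inl hy)
  · have key : ∀ (o : Ordinal) (b : M), b.1.rank = o → ∀ x ∈ (t b).1, ∀ y ∈ x, y ∈ (t b).1 := by
      intro o
      induction o using WellFoundedLT.induction with
      | ind o ih =>
        intro b ho x hx y hy
        have hxM : x ∈ M := trans_mem (t b).2 hx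
        have hyM : y ∈ M := trans_mem hxM hy
        rcases (ht b ⟨x, hxM⟩).1 hx with h | ⟨z, hz, h⟩
        · exact (ht b ⟨y, hyM⟩).2 (Or.inr ⟨⟨x, hxM⟩, h, (ht ⟨x, hxM⟩ ⟨y, hyM⟩).2 (Or.inl hy)⟩)
        · exact (ht b ⟨y, hyM⟩).2 (Or.inr ⟨z, hz, ih _ (ho ▸ ZFSet.rank_lt_of_mem hz) z rfl x h y hy⟩)
    exact key _ a rfl

end Pool.Agent.Lib.MP_f12a7c_lc
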