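import Pool.Agent.Lib.MP_f12a7c_lc.Dfn

/-!
# Basic set functions in a transitive model (II.2)
-/

namespace Pool.Agent.Lib.MP_f12a7c_lc

set_option linter.unusedSectionVars false

/-! ### context maps all of whose coordinates are definable functions -/

section

variable {M : Set ZFSet.{0}} [hM : Model M] {Γ : Type 1} [Ctx M Γ]

/-- pullback of a definable function along a substitution -/
lemma DF.reindex {Δ : Type 1} [Ctx M Δ] {f : Δ → M} (h : DF f) {ρ : Γ → Δ} (hρ : IsSub M ρ) :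
    DF (fun γ => f (ρ γ)) :=
  Dfn.reindex (P := fun p : Δ × M => p.2 = f p.1) h (ρ := fun p : Γ × M => (ρ p.1, p.2)) hρ.lift

omit hM in
lemma Dfn.congr {P Q : Γ → Prop} (h : Dfn M P) (hPQ : ∀ γ, P γ ↔ Q γ) : Dfn M Q :=
  h.of_iff fun γ => (hPQ γ).symm

lemma DF.congr {f g : Γ → M} (h : DF f) (hfg : ∀ γ, f γ = g γ) : DF g := by
  have : f = g := funext hfg
  rwa [← this]

omit hM in
lemma IsSub.comp {Δ Ξ : Type 1} [Ctx M Δ] [Ctx M Ξ] {τ : Δ → Ξ} (hτ : IsSub M τ) {ρ : Γ → Δ}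
    (hρ : IsSub M ρ) : IsSub M (fun γ => τ (ρ γ)) := by
  obtain ⟨σ, hσ⟩ := hρ
  obtain ⟨θ, hθ⟩ := hτ
  refine ⟨fun i => (θ i).subst σ, fun γ i => ?_⟩
  rw [hθ, Tm.val_subst]
  congr 1
  funext j
  exact hσ γ j

/-- A map of contexts whose coordinates are definable functions: it factors as a substitution
after adding finitely many values of definable functions to the context. -/
inductive DMap (M : Set ZFSet.{0}) [Model M] : {Γ Δ : Type 1} → [Ctx M Γ] → [Ctx M Δ] →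
    (Γ → Δ) → Prop
  | sub {Γ Δ : Type 1} [Ctx M Γ] [Ctx M Δ] {ρ : Γ → Δ} (h : IsSub M ρ) : DMap M ρ
  | add {Γ Δ : Type 1} [Ctx M Γ] [Ctx M Δ] {f : Γ → M} (hf : DF f) {ρ : Γ × M → Δ}
      (h : DMap M ρ) : DMap M (fun γ => ρ (γ, f γ))

/-- substitution of definable functions -/
lemma Dfn.compMap {Δ : Type 1} [Ctx M Δ] {ρ : Γ → Δ} {P : Δ → Prop}
    (hP : Dfn M P) (hρ : DMap M ρ) : Dfn M (fun γ => P (ρ γ)) := by
  induction hρ with
  | sub h => exact hP.reindex h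
  | @add Γ Δ _ _ f hf ρ h ih => exact Dfn.comp (P := fun γ a => P (ρ (γ, a))) (ih hP) hf

namespace DMap

lemma id : DMap M (fun γ : Γ => γ) := .sub .id

lemma unit : DMap M (fun _ : Γ => (PUnit.unit : C0)) := .sub .unit

/-- add a value of a definable function -/
lemma pair {Δ : Type 1} [Ctx M Δ] {ρ : Γ → Δ} (hρ : DMap M ρ) {f : Γ → M}
    (hf : DF f) : DMap M (fun γ => (ρ γ, f γ)) := by
  induction hρ with
  | @sub Γ Δ _ _ ρ h => exact .add hf (ρ := fun p : Γ × M => (ρ p.1, p.2)) (.sub h.lift)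
  | @add Γ Δ _ _ g hg ρ h ih =>
    exact .add hg (ρ := fun p : Γ × M => (ρ p, f p.1)) (ih hf.wk)

lemma of_DF {f : Γ → M} (hf : DF f) : DMap M (fun γ => ((PUnit.unit, f γ) : C1 M)) :=
  (unit (Γ := Γ)).pair hf

lemma compSub {Δ : Type 1} [Ctx M Δ] {ρ : Γ → Δ} (hρ : DMap M ρ) {Γ' : Type 1}
    [Ctx M Γ'] {θ : Γ' → Γ} (hθ : IsSub M θ) : DMap M (fun γ => ρ (θ γ)) := by
  induction hρ generalizing Γ' with
  | @sub Γ Δ _ _ ρ h => exact .sub (h.comp hθ)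
  | @add Γ Δ _ _ f hf ρ h ih =>
    exact .add (hf.reindex hθ) (ρ := fun p => ρ (θ p.1, p.2)) (ih hθ.lift)

lemma comp {Δ Ξ : Type 1} [Ctx M Δ] [Ctx M Ξ] {τ : Δ → Ξ} (hτ : DMap M τ) {ρ : Γ → Δ}
    (hρ : DMap M ρ) : DMap M (fun γ => τ (ρ γ)) := by
  induction hρ with
  | @sub Γ Δ _ _ ρ h => exact hτ.compSub h
  | @add Γ Δ _ _ f hf ρ h ih => exact .add hf (ρ := fun p => τ (ρ p)) (ih hτ)

lemma wk {Δ : Type 1} [Ctx M Δ] {ρ : Γ → Δ} (hρ : DMap M ρ) :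
    DMap M (fun p : Γ × M => ρ p.1) := hρ.compSub .fst

lemma fst {Δ : Type 1} [Ctx M Δ] {ρ : Γ → Δ × M} (hρ : DMap M ρ) :
    DMap M (fun γ => (ρ γ).1) := comp (τ := fun p : Δ × M => p.1) (.sub .fst) hρ

end DMap

/-- composition with a context map -/
lemma DF.compMap {Δ : Type 1} [Ctx M Δ] {ρ : Γ → Δ} {f : Δ → M}
    (hf : DF f) (hρ : DMap M ρ) : DF (fun γ => f (ρ γ)) :=
  Dfn.compMap (P := fun p : Δ × M => p.2 = f p.1) hf
    (ρ := fun p : Γ × M => (ρ p.1, p.2)) (hρ.wk.pair DF.snd)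

lemma DMap.snd {Δ : Type 1} [Ctx M Δ] {ρ : Γ → Δ × M} (hρ : DMap M ρ) :
    DF (fun γ => (ρ γ).2) := DF.compMap (f := fun p : Δ × M => p.2) DF.snd hρ

/-- the variables -/
lemma DF.v0 : DF (fun p : Γ × M => p.2) := DF.snd
lemma DF.v1 : DF (fun p : (Γ × M) × M => p.1.2) := DF.snd.wk
lemma DF.v2 : DF (fun p : ((Γ × M) × M) × M => p.1.1.2) := DF.snd.wk.wk
lemma DF.v3 : DF (fun p : (((Γ × M) × M) × M) × M => p.1.1.1.2) := DF.snd.wk.wk.wk
lemma DF.v4 : DF (fun p : ((((Γ × M) × M) × M) × M) × M => p.1.1.1.1.2) := DF.snd.wk.wk.wk.wk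

/-- application of a function of a context and one more argument -/
lemma DF.app₁ {Δ : Type 1} [Ctx M Δ] {ρ : Γ → Δ} (hρ : DMap M ρ) {g : Δ → M → M}
    (hg : DF (fun p : Δ × M => g p.1 p.2)) {f : Γ → M} (hf : DF f) :
    DF (fun γ => g (ρ γ) (f γ)) :=
  DF.compMap (f := fun p : Δ × M => g p.1 p.2) hg (hρ.pair hf)

lemma Dfn.app₁ {Δ : Type 1} [Ctx M Δ] {ρ : Γ → Δ} (hρ : DMap M ρ) {P : Δ → M → Prop}
    (hP : Dfn M (fun p : Δ × M => P p.1 p.2)) {f : Γ → M} (hf : DF f) :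
    Dfn M (fun γ => P (ρ γ) (f γ)) :=
  Dfn.compMap (P := fun p : Δ × M => P p.1 p.2) hP (hρ.pair hf)

lemma F3.app {u : M → M → M → M} (h : F3 u) {f g k : Γ → M} (hf : DF f) (hg : DF g)
    (hk : DF k) : DF (fun γ => u (f γ) (g γ) (k γ)) :=
  DF.compMap (f := fun γ : C3 M => u γ.1.1.2 γ.1.2 γ.2) h
    (((DMap.unit.pair hf).pair hg).pair hk)

/-- definable predicate of four variables -/
def D4 (P : M → M → M → M → Prop) : Prop :=
  Dfn M (fun γ : C3 M × M => P γ.1.1.1.2 γ.1.1.2 γ.1.2 γ.2)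

lemma D4.app {P : M → M → M → M → Prop} (h : D4 P) {f g k l : Γ → M} (hf : DF f) (hg : DF g)
    (hk : DF k) (hl : DF l) : Dfn M (fun γ => P (f γ) (g γ) (k γ) (l γ)) :=
  Dfn.compMap (P := fun γ : C3 M × M => P γ.1.1.1.2 γ.1.1.2 γ.1.2 γ.2) h
    ((((DMap.unit.pair hf).pair hg).pair hk).pair hl)

end

/-! ### set functions -/

variable {M : Set ZFSet.{0}} [hM : Model M] {Γ : Type 1} [Ctx M Γ]

/-- unordered pair -/
noncomputable def upairM (a b : M) : M := mkM (fun z => z = a ∨ z = b)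

lemma mem_upairM {a b z : M} : z.1 ∈ (upairM a b).1 ↔ z = a ∨ z = b := mem_mkM (isSet_pair a b)

lemma upairM_val (a b : M) : (upairM a b).1 = {a.1, b.1} := by
  ext z
  rw [ZFSet.mem_pair]
  constructor
  · intro hz
    have hz' : z ∈ M := trans_mem (upairM a b).2 hz
    rcases (mem_upairM (z := ⟨z, hz'⟩)).1 hz with h | h
    · left; rw [← h]
    · right; rw [← h]
  · rintro (rfl | rfl)
    · exact mem_upairM.2 (Or.inl rfl)
    · exact mem_upairM.2 (Or.inr rfl)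

lemma DF.upair {f g : Γ → M} (hf : DF f) (hg : DF g) : DF (fun γ => upairM (f γ) (g γ)) :=
  DF.mk (P := fun γ z => z = f γ ∨ z = g γ)
    ((Dfn.eq DF.snd hf.wk).or (Dfn.eq DF.snd hg.wk)) (fun _ => isSet_pair _ _)

lemma F2_upairM : F2 (M := M) upairM := DF.upair DF.v1 DF.v0

/-- ordered pair -/
noncomputable def opairM (a b : M) : M := upairM (upairM a a) (upairM a b)

lemma opairM_val (a b : M) : (opairM a b).1 = ZFSet.pair a.1 b.1 := by
  rw [opairM, upairM_val, upairM_val, upairM_val, ZFSet.pair_eq_singleton]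
  rfl

lemma opairM_inj {a b c d : M} : opairM a b = opairM c d ↔ a = c ∧ b = d := by
  rw [Subtype.ext_iff, opairM_val, opairM_val, ZFSet.pair_inj, ← Subtype.ext_iff,
    ← Subtype.ext_iff]

lemma DF.opair {f g : Γ → M} (hf : DF f) (hg : DF g) : DF (fun γ => opairM (f γ) (g γ)) :=
  DF.upair (DF.upair hf hf) (DF.upair hf hg)

lemma F2_opairM : F2 (M := M) opairM := DF.opair DF.v1 DF.v0

/-- the components of a pair in `M` are in `M` -/
lemma mem_of_pair_mem {a b : ZFSet.{0}} (h : ZFSet.pair a b ∈ M) : a ∈ M ∧ b ∈ M := by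
  have h1 : ({a, b} : ZFSet.{0}) ∈ M := trans_mem h (by rw [ZFSet.pair]; simp)
  exact ⟨trans_mem h1 (by simp), trans_mem h1 (by simp)⟩

/-- union of a set -/
noncomputable def sUnionM (a : M) : M := mkM (fun z => ∃ y : M, y.1 ∈ a.1 ∧ z.1 ∈ y.1)

lemma mem_sUnionM {a z : M} : z.1 ∈ (sUnionM a).1 ↔ ∃ y : M, y.1 ∈ a.1 ∧ z.1 ∈ y.1 :=
  mem_mkM (isSet_sUnion a)

lemma sUnionM_val (a : M) : (sUnionM a).1 = ZFSet.sUnion a.1 := by
  ext z
  rw [ZFSet.mem_sUnion]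
  constructor
  · intro hz
    have hz' : z ∈ M := trans_mem (sUnionM a).2 hz
    obtain ⟨y, h1, h2⟩ := (mem_sUnionM (z := ⟨z, hz'⟩)).1 hz
    exact ⟨y.1, h1, h2⟩
  · rintro ⟨y, h1, h2⟩
    have hy : y ∈ M := trans_mem a.2 h1
    exact (mem_sUnionM (z := ⟨z, trans_mem hy h2⟩)).2 ⟨⟨y, hy⟩, h1, h2⟩

lemma DF.sUnion {f : Γ → M} (hf : DF f) : DF (fun γ => sUnionM (f γ)) :=
  DF.mk (P := fun γ z => ∃ y : M, y.1 ∈ (f γ).1 ∧ z.1 ∈ y.1)
    (Dfn.exB (P := fun (p : Γ × M) y => p.2.1 ∈ y.1) hf.wk (Dfn.mem DF.v1 DF.v0))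
    (fun _ => isSet_sUnion _)

lemma F1_sUnionM : F1 (M := M) sUnionM := DF.sUnion DF.v0

/-- binary union -/
noncomputable def unionM (a b : M) : M := sUnionM (upairM a b)

lemma unionM_val (a b : M) : (unionM a b).1 = a.1 ∪ b.1 := by
  rw [unionM, sUnionM_val, upairM_val]
  rfl

lemma DF.union {f g : Γ → M} (hf : DF f) (hg : DF g) : DF (fun γ => unionM (f γ) (g γ)) :=
  DF.sUnion (DF.upair hf hg)

lemma F2_unionM : F2 (M := M) unionM := DF.union DF.v1 DF.v0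

/-- insertion -/
noncomputable def insertM (a b : M) : M := unionM (upairM a a) b

lemma insertM_val (a b : M) : (insertM a b).1 = insert a.1 b.1 := by
  rw [insertM, unionM_val, upairM_val]
  ext z
  simp

lemma mem_insertM {a b z : M} : z.1 ∈ (insertM a b).1 ↔ z = a ∨ z.1 ∈ b.1 := by
  rw [insertM_val, ZFSet.mem_insert_iff, Subtype.ext_iff]

lemma DF.insert {f g : Γ → M} (hf : DF f) (hg : DF g) : DF (fun γ => insertM (f γ) (g γ)) :=
  DF.union (DF.upair hf hf) hg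

lemma F2_insertM : F2 (M := M) insertM := DF.insert DF.v1 DF.v0

lemma subset_iffM {a b : M} : a.1 ⊆ b.1 ↔ ∀ z : M, z.1 ∈ a.1 → z.1 ∈ b.1 :=
  ⟨fun h _ hz => h hz, fun h z hz => h ⟨z, trans_mem a.2 hz⟩ hz⟩

lemma Dfn.subset {f g : Γ → M} (hf : DF f) (hg : DF g) : Dfn M (fun γ => (f γ).1 ⊆ (g γ).1) :=
  (Dfn.allB (P := fun γ z => z.1 ∈ (g γ).1) hf (Dfn.mem DF.v0 hg.wk)).of_iff
    fun _ => subset_iffM

lemma D2_subset : D2 (fun a b : M => a.1 ⊆ b.1) := Dfn.subset DF.v1 DF.v0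

/-- separation as a function -/
noncomputable def sepM (P : M → Prop) (a : M) : M := mkM (fun z => z.1 ∈ a.1 ∧ P z)

lemma mem_sepM {P : Γ → M → Prop} (hP : Dfn M (fun p : Γ × M => P p.1 p.2)) (γ : Γ) (a z : M) :
    z.1 ∈ (sepM (P γ) a).1 ↔ z.1 ∈ a.1 ∧ P γ z := mem_mkM (isSet_sep hP γ a)

lemma DF.sep {P : Γ → M → Prop} (hP : Dfn M (fun p : Γ × M => P p.1 p.2)) {a : Γ → M}
    (ha : DF a) : DF (fun γ => sepM (P γ) (a γ)) :=
  DF.mk (P := fun γ z => z.1 ∈ (a γ).1 ∧ P γ z) ((Dfn.mem DF.snd ha.wk).and hP)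
    (fun γ => isSet_sep hP γ (a γ))

/-- image as a function -/
noncomputable def imageM (F : M → M) (a : M) : M := mkM (fun y => ∃ x : M, x.1 ∈ a.1 ∧ y = F x)

lemma mem_imageM {F : Γ → M → M} (hF : DF (fun p : Γ × M => F p.1 p.2)) (γ : Γ) (a y : M) :
    y.1 ∈ (imageM (F γ) a).1 ↔ ∃ x : M, x.1 ∈ a.1 ∧ y = F γ x := mem_mkM (isSet_image hF γ a)

lemma DF.image {F : Γ → M → M} (hF : DF (fun p : Γ × M => F p.1 p.2)) {a : Γ → M}
    (ha : DF a) : DF (fun γ => imageM (F γ) (a γ)) := by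
  refine DF.mk (P := fun γ y => ∃ x : M, x.1 ∈ (a γ).1 ∧ y = F γ x) ?_
    (fun γ => isSet_image hF γ (a γ))
  refine Dfn.exB (P := fun (p : Γ × M) x => p.2 = F p.1 x) ha.wk ?_
  exact Dfn.eq DF.v1 (DF.app₁ (ρ := fun q : (Γ × M) × M => q.1.1) DMap.id.fst.fst hF DF.v0)

/-- the graph of `F` restricted to `a` -/
noncomputable def graphM (F : M → M) (a : M) : M := imageM (fun x => opairM x (F x)) a

lemma mem_graphM {F : Γ → M → M} (hF : DF (fun p : Γ × M => F p.1 p.2)) (γ : Γ) (a y : M) :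
    y.1 ∈ (graphM (F γ) a).1 ↔ ∃ x : M, x.1 ∈ a.1 ∧ y = opairM x (F γ x) :=
  mem_imageM (F := fun γ x => opairM x (F γ x)) (DF.opair DF.snd hF) γ a y

lemma DF.graph {F : Γ → M → M} (hF : DF (fun p : Γ × M => F p.1 p.2)) {a : Γ → M}
    (ha : DF a) : DF (fun γ => graphM (F γ) (a γ)) :=
  DF.image (F := fun γ x => opairM x (F γ x)) (DF.opair DF.snd hF) ha

open Classical in
/-- application of a function (a set of pairs) -/
noncomputable def appM (f x : M) : M :=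
  if h : ∃ y : M, (opairM x y).1 ∈ f.1 ∧ ∀ y' : M, (opairM x y').1 ∈ f.1 → y' = y then h.choose
  else emptyM

lemma appM_eq {f x y : M} (h1 : (opairM x y).1 ∈ f.1)
    (h2 : ∀ y' : M, (opairM x y').1 ∈ f.1 → y' = y) : appM f x = y := by
  have h : ∃ y : M, (opairM x y).1 ∈ f.1 ∧ ∀ y' : M, (opairM x y').1 ∈ f.1 → y' = y :=
    ⟨y, h1, h2⟩
  unfold appM
  rw [dif_pos h]
  exact h2 _ h.choose_spec.1

lemma appM_iff {f x y : M} : y = appM f x ↔
    ((opairM x y).1 ∈ f.1 ∧ ∀ y' : M, (opairM x y').1 ∈ f.1 → y' = y) ∨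
    ((¬ ∃ y : M, (opairM x y).1 ∈ f.1 ∧ ∀ y' : M, (opairM x y').1 ∈ f.1 → y' = y) ∧
      y = emptyM) := by
  by_cases h : ∃ y : M, (opairM x y).1 ∈ f.1 ∧ ∀ y' : M, (opairM x y').1 ∈ f.1 → y' = y
  · obtain ⟨y0, h1, h2⟩ := h
    rw [appM_eq h1 h2]
    constructor
    · rintro rfl
      exact Or.inl ⟨h1, h2⟩
    · rintro (⟨h3, _⟩ | ⟨h3, _⟩)
      · exact h2 _ h3
      · exact absurd ⟨y0, h1, h2⟩ h3
  · have : appM f x = emptyM := by
      unfold appM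
      rw [dif_neg h]
    rw [this]
    constructor
    · intro hy
      exact Or.inr ⟨h, hy⟩
    · rintro (⟨h3, h4⟩ | ⟨_, h4⟩)
      · exact absurd ⟨y, h3, h4⟩ h
      · exact h4

lemma Dfn.isVal {f x y : Γ → M} (hf : DF f) (hx : DF x) (hy : DF y) :
    Dfn M (fun γ => (opairM (x γ) (y γ)).1 ∈ (f γ).1 ∧
      ∀ y' : M, (opairM (x γ) y').1 ∈ (f γ).1 → y' = y γ) :=
  (Dfn.mem (DF.opair hx hy) hf).and
    (Dfn.all (P := fun γ y' => (opairM (x γ) y').1 ∈ (f γ).1 → y' = y γ)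
      ((Dfn.mem (DF.opair hx.wk DF.v0) hf.wk).imp (Dfn.eq DF.v0 hy.wk)))

lemma DF.app {f x : Γ → M} (hf : DF f) (hx : DF x) : DF (fun γ => appM (f γ) (x γ)) := by
  refine DF.of_graph (P := fun γ y =>
    ((opairM (x γ) y).1 ∈ (f γ).1 ∧ ∀ y' : M, (opairM (x γ) y').1 ∈ (f γ).1 → y' = y) ∨
    ((¬ ∃ y : M, (opairM (x γ) y).1 ∈ (f γ).1 ∧
      ∀ y' : M, (opairM (x γ) y').1 ∈ (f γ).1 → y' = y) ∧ y = emptyM)) ?_
    (fun _ _ => appM_iff)
  refine (Dfn.isVal hf.wk hx.wk DF.v0).or (Dfn.and (Dfn.not ?_) (Dfn.eq DF.v0 (DF.const _)))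
  exact Dfn.ex (P := fun (p : Γ × M) y => (opairM (x p.1) y).1 ∈ (f p.1).1 ∧
      ∀ y' : M, (opairM (x p.1) y').1 ∈ (f p.1).1 → y' = y)
      (Dfn.isVal hf.wk.wk hx.wk.wk DF.v0)

lemma F2_appM : F2 (M := M) appM := DF.app DF.v1 DF.v0

lemma appM_graphM {F : Γ → M → M} (hF : DF (fun p : Γ × M => F p.1 p.2)) (γ : Γ) {a x : M}
    (hx : x.1 ∈ a.1) : appM (graphM (F γ) a) x = F γ x := by
  apply appM_eq
  · rw [mem_graphM hF]
    exact ⟨x, hx, rfl⟩
  · intro y' hy'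
    rw [mem_graphM hF] at hy'
    obtain ⟨x', _, h⟩ := hy'
    rw [opairM_inj] at h
    rw [h.2, h.1]

open Classical in
/-- first component of a pair -/
noncomputable def fstM (z : M) : M := if h : ∃ a b : M, z = opairM a b then h.choose else emptyM

open Classical in
/-- second component of a pair -/
noncomputable def sndM (z : M) : M :=
  if h : ∃ b a : M, z = opairM a b then h.choose else emptyM

lemma fstM_opairM (a b : M) : fstM (opairM a b) = a := by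
  have h : ∃ a' b' : M, opairM a b = opairM a' b' := ⟨a, b, rfl⟩
  unfold fstM
  rw [dif_pos h]
  obtain ⟨b', hb'⟩ := h.choose_spec
  exact (opairM_inj.1 hb').1.symm

lemma sndM_opairM (a b : M) : sndM (opairM a b) = b := by
  have h : ∃ b' a' : M, opairM a b = opairM a' b' := ⟨b, a, rfl⟩
  unfold sndM
  rw [dif_pos h]
  obtain ⟨a', ha'⟩ := h.choose_spec
  exact (opairM_inj.1 ha').2.symm

lemma fstM_iff {z y : M} : y = fstM z ↔
    (∃ b : M, z = opairM y b) ∨ ((¬ ∃ a b : M, z = opairM a b) ∧ y = emptyM) := by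
  by_cases h : ∃ a b : M, z = opairM a b
  · obtain ⟨a, b, rfl⟩ := h
    rw [fstM_opairM]
    constructor
    · rintro rfl
      exact Or.inl ⟨b, rfl⟩
    · rintro (⟨b', hb'⟩ | ⟨h, _⟩)
      · exact (opairM_inj.1 hb').1.symm
      · exact absurd ⟨a, b, rfl⟩ h
  · have h1 : fstM z = emptyM := by
      unfold fstM
      rw [dif_neg h]
    rw [h1]
    constructor
    · intro hy
      exact Or.inr ⟨h, hy⟩
    · rintro (⟨b, hb⟩ | ⟨_, hy⟩)
      · exact absurd ⟨y, b, hb⟩ h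
      · exact hy

lemma sndM_iff {z y : M} : y = sndM z ↔
    (∃ a : M, z = opairM a y) ∨ ((¬ ∃ b a : M, z = opairM a b) ∧ y = emptyM) := by
  by_cases h : ∃ b a : M, z = opairM a b
  · obtain ⟨b, a, rfl⟩ := h
    rw [sndM_opairM]
    constructor
    · rintro rfl
      exact Or.inl ⟨a, rfl⟩
    · rintro (⟨b', hb'⟩ | ⟨h, _⟩)
      · exact (opairM_inj.1 hb').2.symm
      · exact absurd ⟨b, a, rfl⟩ h
  · have h1 : sndM z = emptyM := by
      unfold sndM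
      rw [dif_neg h]
    rw [h1]
    constructor
    · intro hy
      exact Or.inr ⟨h, hy⟩
    · rintro (⟨b, hb⟩ | ⟨_, hy⟩)
      · exact absurd ⟨y, b, hb⟩ h
      · exact hy

lemma DF.fst {f : Γ → M} (hf : DF f) : DF (fun γ => fstM (f γ)) := by
  refine DF.of_graph (P := fun γ y =>
    (∃ b : M, f γ = opairM y b) ∨ ((¬ ∃ a b : M, f γ = opairM a b) ∧ y = emptyM)) ?_
    (fun _ _ => fstM_iff)
  refine Dfn.or ?_ (Dfn.and (Dfn.not ?_) (Dfn.eq DF.v0 (DF.const _)))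
  · exact Dfn.ex (P := fun (p : Γ × M) b => f p.1 = opairM p.2 b)
      (Dfn.eq hf.wk.wk (DF.opair DF.v1 DF.v0))
  · exact Dfn.ex (P := fun (p : Γ × M) a => ∃ b : M, f p.1 = opairM a b)
      (Dfn.ex (P := fun (p : (Γ × M) × M) b => f p.1.1 = opairM p.2 b)
        (Dfn.eq hf.wk.wk.wk (DF.opair DF.v1 DF.v0)))

lemma DF.sndM {f : Γ → M} (hf : DF f) : DF (fun γ => sndM (f γ)) := by
  refine DF.of_graph (P := fun γ y =>
    (∃ a : M, f γ = opairM a y) ∨ ((¬ ∃ b a : M, f γ = opairM a b) ∧ y = emptyM)) ?_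
    (fun _ _ => sndM_iff)
  refine Dfn.or ?_ (Dfn.and (Dfn.not ?_) (Dfn.eq DF.v0 (DF.const _)))
  · exact Dfn.ex (P := fun (p : Γ × M) a => f p.1 = opairM a p.2)
      (Dfn.eq hf.wk.wk (DF.opair DF.v0 DF.v1))
  · exact Dfn.ex (P := fun (p : Γ × M) b => ∃ a : M, f p.1 = opairM a b)
      (Dfn.ex (P := fun (p : (Γ × M) × M) a => f p.1.1 = opairM a p.2)
        (Dfn.eq hf.wk.wk.wk (DF.opair DF.v0 DF.v1)))

lemma F1_fstM : F1 (M := M) fstM := DF.fst DF.v0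

lemma F1_sndM : F1 (M := M) sndM := DF.sndM DF.v0

open Classical in
lemma DF.ite {P : Γ → Prop} (hP : Dfn M P) {f g : Γ → M} (hf : DF f) (hg : DF g) :
    DF (fun γ => if P γ then f γ else g γ) := by
  refine DF.of_graph (P := fun γ y => (P γ ∧ y = f γ) ∨ (¬ P γ ∧ y = g γ)) ?_ ?_
  · exact ((hP.wk.and (Dfn.eq DF.v0 hf.wk))).or (hP.wk.not.and (Dfn.eq DF.v0 hg.wk))
  · intro γ y
    by_cases h : P γ <;> simp [h]

/-- the set of first components of the pairs in a set (the names occurring in a name) -/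
noncomputable def domM (a : M) : M := imageM fstM (sepM (fun z => ∃ x y : M, z = opairM x y) a)

lemma Dfn.isPair {f : Γ → M} (hf : DF f) : Dfn M (fun γ => ∃ x y : M, f γ = opairM x y) :=
  Dfn.ex (P := fun γ x => ∃ y : M, f γ = opairM x y)
    (Dfn.ex (P := fun (p : Γ × M) y => f p.1 = opairM p.2 y)
      (Dfn.eq hf.wk.wk (DF.opair DF.v1 DF.v0)))

lemma mem_domM (a x : M) : x.1 ∈ (domM a).1 ↔ ∃ y : M, (opairM x y).1 ∈ a.1 := by
  have h1 := mem_imageM (F := fun (_ : C0) (z : M) => fstM z) (DF.fst DF.v0) PUnit.unit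
    (sepM (fun z => ∃ x y : M, z = opairM x y) a) x
  have h2 := fun z : M => mem_sepM (P := fun (_ : C0) (z : M) => ∃ x y : M, z = opairM x y)
    (Dfn.isPair DF.v0) PUnit.unit a z
  unfold domM
  rw [h1]
  constructor
  · rintro ⟨z, hz, rfl⟩
    rw [h2] at hz
    obtain ⟨hz, x, y, rfl⟩ := hz
    rw [fstM_opairM]
    exact ⟨y, hz⟩
  · rintro ⟨y, hy⟩
    exact ⟨opairM x y, (h2 _).2 ⟨hy, x, y, rfl⟩, (fstM_opairM x y).symm⟩

lemma DF.dom {f : Γ → M} (hf : DF f) : DF (fun γ => domM (f γ)) :=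
  DF.image (F := fun (_ : Γ) (z : M) => fstM z) (DF.fst DF.v0)
    (DF.sep (P := fun (_ : Γ) (z : M) => ∃ x y : M, z = opairM x y) (Dfn.isPair DF.v0) hf)

lemma F1_domM : F1 (M := M) domM := DF.dom DF.v0

end Pool.Agent.Lib.MP_f12a7c_lc
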