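import Pool.Agent.Lib.MP_f12a7c_lc.Nat
import Pool.Agent.Lib.MP_f12a7c_lc.Coded

/-!
# Finite binary strings in a transitive model (II.5)
-/

namespace Pool.Agent.Lib.MP_f12a7c_lc

set_option linter.unusedSectionVars false

open Encodable

variable {M : Set ZFSet.{0}} [hM : Model M] {Γ : Type 1} [Ctx M Γ]

/-- the set coding a string -/
noncomputable def strL (p : List Bool) : ZFSet.{0} := strZ (fun i => p.getD i false) p.length

lemma bitZ_eq_natZ (b : Bool) : bitZ b = natZ b.toNat := by cases b <;> rfl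

lemma bitZ_injective : Function.Injective bitZ := by
  intro a b h
  rw [bitZ_eq_natZ, bitZ_eq_natZ, natZ_inj] at h
  cases a <;> cases b <;> simp_all

lemma mem_strZ {x : ℕ → Bool} {n : ℕ} {z : ZFSet.{0}} :
    z ∈ strZ x n ↔ ∃ i < n, z = ZFSet.pair (natZ i) (bitZ (x i)) := by
  induction n with
  | zero => simp [strZ]
  | succ n ih =>
    simp only [strZ, ZFSet.mem_insert_iff, ih]
    constructor
    · rintro (h | ⟨i, hi, h⟩)
      · exact ⟨n, by omega, h⟩
      · exact ⟨i, by omega, h⟩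
    · rintro ⟨i, hi, h⟩
      rcases Nat.lt_succ_iff_lt_or_eq.1 hi with h' | h'
      · exact Or.inr ⟨i, h', h⟩
      · subst h'
        exact Or.inl h

lemma mem_strL {l : List Bool} {z : ZFSet.{0}} :
    z ∈ strL l ↔ ∃ (i : ℕ) (h : i < l.length), z = ZFSet.pair (natZ i) (bitZ l[i]) := by
  unfold strL
  rw [mem_strZ]
  constructor
  · rintro ⟨i, hi, h⟩
    refine ⟨i, hi, ?_⟩
    rw [h, List.getD_eq_getElem _ _ hi]
  · rintro ⟨i, hi, h⟩
    refine ⟨i, hi, ?_⟩
    rw [h, List.getD_eq_getElem _ _ hi]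

lemma pair_mem_strL {l : List Bool} {i : ℕ} {b : Bool} :
    ZFSet.pair (natZ i) (bitZ b) ∈ strL l ↔ l[i]? = some b := by
  rw [mem_strL]
  constructor
  · rintro ⟨j, hj, h⟩
    rw [ZFSet.pair_inj, natZ_inj, bitZ_injective.eq_iff] at h
    obtain ⟨rfl, rfl⟩ := h
    exact List.getElem?_eq_getElem hj
  · intro h
    obtain ⟨hi, h⟩ := List.getElem?_eq_some_iff.1 h
    exact ⟨i, hi, by rw [h]⟩

lemma strL_pre (x : ℕ → Bool) (n : ℕ) : strL (pre x n) = strZ x n := by
  ext z
  rw [mem_strZ, mem_strL]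
  constructor
  · rintro ⟨i, hi, h⟩
    refine ⟨i, by simpa using hi, ?_⟩
    rw [h]
    simp [pre]
  · rintro ⟨i, hi, h⟩
    refine ⟨i, by simpa using hi, ?_⟩
    rw [h]
    simp [pre]

lemma mem_CohenP {z : ZFSet.{0}} : z ∈ CohenP ↔ ∃ p, z = strL p := by
  constructor
  · rintro ⟨x, n, rfl⟩
    exact ⟨_, (strL_pre x n).symm⟩
  · rintro ⟨l, rfl⟩
    exact ⟨_, _, rfl⟩

lemma mem_filt {x : ℕ → Bool} {z : ZFSet.{0}} : z ∈ filt x ↔ ∃ p, Init p x ∧ z = strL p := by
  constructor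
  · rintro ⟨n, rfl⟩
    exact ⟨pre x n, init_pre x n, (strL_pre x n).symm⟩
  · rintro ⟨l, hl, rfl⟩
    refine ⟨l.length, ?_⟩
    rw [← strL_pre, hl]

lemma strL_subset {p q : List Bool} : strL p ⊆ strL q ↔ p <+: q := by
  rw [List.prefix_iff_getElem?]
  constructor
  · intro h i hi
    apply pair_mem_strL.1
    apply h
    apply pair_mem_strL.2
    exact List.getElem?_eq_getElem hi
  · intro h z hz
    obtain ⟨i, hi, rfl⟩ := mem_strL.1 hz
    exact pair_mem_strL.2 (h i hi)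

lemma strL_injective : Function.Injective strL := by
  intro l l' h
  have h1 : l <+: l' := strL_subset.1 (by rw [h])
  have h2 : l' <+: l := strL_subset.1 (by rw [h])
  exact h1.eq_of_length (le_antisymm h1.length_le h2.length_le)

lemma strL_mem_filt {x : ℕ → Bool} {p : List Bool} : strL p ∈ filt x ↔ Init p x := by
  rw [mem_filt]
  constructor
  · rintro ⟨l', h, h'⟩
    rw [strL_injective h']
    exact h
  · intro h
    exact ⟨p, h, rfl⟩

lemma strL_nil : strL [] = ∅ := rfl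

lemma strZ_mem (x : ℕ → Bool) (n : ℕ) : strZ x n ∈ M := by
  induction n with
  | zero => exact empty_mem
  | succ n ih =>
    have hb : bitZ (x n) ∈ M := by
      rw [bitZ_eq_natZ]
      exact natZ_mem _
    have h := (insertM (opairM (natM n) ⟨bitZ (x n), hb⟩ : M) ⟨strZ x n, ih⟩).2
    rw [insertM_val, opairM_val] at h
    exact h

lemma strL_mem (p : List Bool) : strL p ∈ M := strZ_mem _ _

/-- the string as an element of `M` -/
noncomputable def strM (p : List Bool) : M := ⟨strL p, strL_mem p⟩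

lemma strM_injective : Function.Injective (strM (M := M)) := by
  intro p q h
  exact strL_injective (congrArg Subtype.val h)

lemma rep2_of_primrec {f : ℕ → ℕ → ℕ} (hf : Primrec₂ f) : Rep2 M f := by
  obtain ⟨u, hu, hu2⟩ := rep_primrec (M := M) (Primrec₂.unpaired'.2 hf)
  obtain ⟨p, hp, hp2⟩ := rep2_pair (M := M)
  refine ⟨fun a b => u (p a b), hu.app hp, ?_⟩
  intro m n
  simp only [hp2, hu2]
  simp [Nat.unpaired]

lemma rep1_of_primrec {f : ℕ → ℕ} (hf : Primrec f) : Rep1 M f :=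
  rep_primrec (Primrec.nat_iff.1 hf)

/-- the string coded by a natural number -/
def strOf (n : ℕ) : List Bool := (decode n : Option (List Bool)).getD []

lemma strOf_encode (p : List Bool) : strOf (encode p) = p := by simp [strOf]

lemma strOf_of_decode {n : ℕ} {p : List Bool} (h : decode n = some p) : strOf n = p := by
  simp [strOf, h]

lemma primrec_strOf : Primrec strOf :=
  Primrec.option_getD.comp Primrec.decode (Primrec.const [])

/-- decoding of strings is definable in `M` -/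
theorem exists_decode' : ∃ S : M → M, F1 S ∧ ∀ n : ℕ, S (natM n) = strM (strOf n) := by
  obtain ⟨len, hlen, hlen2⟩ := rep1_of_primrec (M := M)
    (f := fun n => (strOf n).length) (Primrec.list_length.comp primrec_strOf)
  obtain ⟨bit, hbit, hbit2⟩ := rep2_of_primrec (M := M)
    (f := fun n i => ((strOf n).getD i false).toNat) (by
      refine (Primrec.dom_bool Bool.toNat).comp ?_
      exact (Primrec.list_getD false).comp (primrec_strOf.comp Primrec.fst) Primrec.snd)
  obtain ⟨F, hF, hF0, hF1⟩ := exists_rec_nat (Γ := C1 M) (b := fun _ => natM 0) (DF.const _)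
    (s := fun γ i u => insertM (opairM i (bit γ.2 i)) u)
    (F2_insertM.app (F2_opairM.app DF.snd.wk (hbit.app DF.snd.wk.wk DF.snd.wk)) DF.snd)
  have hF' : F2 (fun a b => F (PUnit.unit, a) b) := hF
  refine ⟨fun x => F (PUnit.unit, x) (len x), hF'.app DF.snd (hlen.app DF.snd), ?_⟩
  intro n
  have key : ∀ k, F (PUnit.unit, natM n) (natM k) =
      ⟨strZ (fun i => (strOf n).getD i false) k, strZ_mem _ _⟩ := by
    intro k
    induction k with
    | zero => rw [hF0]; rfl
    | succ k ih =>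
      rw [hF1, ih]
      apply Subtype.ext
      rw [insertM_val, opairM_val]
      simp only [hbit2]
      change Insert.insert (ZFSet.pair (natZ k) (natZ _)) _ =
        Insert.insert (ZFSet.pair (natZ k) (bitZ _)) _
      rw [bitZ_eq_natZ]
  change F (PUnit.unit, natM n) (len (natM n)) = _
  rw [hlen2, key]
  rfl

/-- decoding of strings is definable in `M` -/
theorem exists_decode : ∃ S : M → M, F1 S ∧ ∀ p : List Bool, S (natM (encode p)) = strM p := by
  obtain ⟨S, hS, hS2⟩ := exists_decode' (M := M)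
  exact ⟨S, hS, fun p => by rw [hS2, strOf_encode]⟩

theorem rp_iff {C : List Bool → Prop} :
    RP (RM M) C ↔ ∃ c : M, ∀ z : M, z.1 ∈ c.1 ↔ ∃ p, C p ∧ z = strM p := by
  obtain ⟨S, hS, hS2⟩ := exists_decode' (M := M)
  constructor
  · intro h
    obtain ⟨a, ha⟩ := mem_RM_iff.1 h
    obtain ⟨c, hc⟩ := isSet_image (Γ := C0) (g := fun _ x => S x) hS PUnit.unit a
    refine ⟨c, fun z => (hc z).trans ?_⟩
    constructor
    · rintro ⟨x, hx, rfl⟩
      obtain ⟨n, ⟨p, hp, hC⟩, rfl⟩ := (ha x).1 hx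
      exact ⟨p, hC, by rw [hS2, strOf_of_decode hp]⟩
    · rintro ⟨p, hC, rfl⟩
      refine ⟨natM (encode p), (ha _).2 ⟨encode p, ⟨p, encodek p, hC⟩, rfl⟩, ?_⟩
      rw [hS2, strOf_encode]
  · rintro ⟨c, hc⟩
    have h1 : {n : ℕ | (S (natM n)).1 ∈ c.1} ∈ RM M :=
      mem_RM_of_dfn (Q := fun z => (S z).1 ∈ c.1) (Dfn.mem hS (DF.const c)) (fun n => Iff.rfl)
    have h2 := arithClosed_RM.inter _ h1 _ (arithClosed_RM.isSome (List Bool))
    unfold RP
    convert h2 using 1
    ext n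
    simp only [Set.mem_ofPred_eq, Set.mem_inter_iff]
    constructor
    · rintro ⟨p, hp, hC⟩
      refine ⟨?_, p, hp⟩
      rw [hS2, strOf_of_decode hp]
      exact (hc _).2 ⟨p, hC, rfl⟩
    · rintro ⟨h3, p, hp⟩
      rw [hS2, strOf_of_decode hp] at h3
      obtain ⟨q, hq, hpq⟩ := (hc _).1 h3
      exact ⟨p, hp, (strM_injective hpq) ▸ hq⟩

theorem rp_iff₂ {C : List Bool × List Bool → Prop} :
    RP (RM M) C ↔
      ∃ c : M, ∀ z : M, z.1 ∈ c.1 ↔ ∃ p q, C (p, q) ∧ z = opairM (strM p) (strM q) := by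
  obtain ⟨S, hS, hS2⟩ := exists_decode' (M := M)
  obtain ⟨l, hl, hl2⟩ := nat_rep1_left (M := M)
  obtain ⟨r, hr, hr2⟩ := nat_rep1_right (M := M)
  have hT : F1 (fun x => opairM (S (l x)) (S (r x))) :=
    F2_opairM.app (hS.app (hl.app DF.snd)) (hS.app (hr.app DF.snd))
  have hT2 : ∀ (n : ℕ) (p q : List Bool), decode n = some (p, q) →
      opairM (S (l (natM n))) (S (r (natM n))) = opairM (strM p) (strM q) := by
    intro n p q h
    rw [Encodable.decode_prod_val] at h
    simp only [Option.bind_eq_some_iff, Option.map_eq_some_iff, Prod.mk.injEq] at h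
    obtain ⟨a', ha', b', hb', rfl, rfl⟩ := h
    rw [hl2, hr2, hS2, hS2, strOf_of_decode ha', strOf_of_decode hb']
  constructor
  · intro h
    obtain ⟨a, ha⟩ := mem_RM_iff.1 h
    obtain ⟨c, hc⟩ := isSet_image (Γ := C0) (g := fun _ x => opairM (S (l x)) (S (r x))) hT
      PUnit.unit a
    refine ⟨c, fun z => (hc z).trans ?_⟩
    constructor
    · rintro ⟨x, hx, rfl⟩
      obtain ⟨n, ⟨⟨p, q⟩, hp, hC⟩, rfl⟩ := (ha x).1 hx
      exact ⟨p, q, hC, hT2 n p q hp⟩
    · rintro ⟨p, q, hC, rfl⟩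
      refine ⟨natM (encode (p, q)), (ha _).2 ⟨encode (p, q), ⟨(p, q), encodek _, hC⟩, rfl⟩, ?_⟩
      exact (hT2 _ p q (encodek _)).symm
  · rintro ⟨c, hc⟩
    have h1 : {n : ℕ | (opairM (S (l (natM n))) (S (r (natM n)))).1 ∈ c.1} ∈ RM M :=
      mem_RM_of_dfn (Q := fun z => (opairM (S (l z)) (S (r z))).1 ∈ c.1)
        (Dfn.mem hT (DF.const c)) (fun n => Iff.rfl)
    have h2 := arithClosed_RM.inter _ h1 _ (arithClosed_RM.isSome (List Bool × List Bool))
    unfold RP
    convert h2 using 1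
    ext n
    simp only [Set.mem_ofPred_eq, Set.mem_inter_iff]
    constructor
    · rintro ⟨⟨p, q⟩, hp, hC⟩
      refine ⟨?_, (p, q), hp⟩
      rw [hT2 n p q hp]
      exact (hc _).2 ⟨p, q, hC, rfl⟩
    · rintro ⟨h3, ⟨p, q⟩, hp⟩
      rw [hT2 n p q hp] at h3
      obtain ⟨p', q', hq, hpq⟩ := (hc _).1 h3
      rw [opairM_inj] at hpq
      obtain ⟨h4, h5⟩ := hpq
      refine ⟨(p, q), hp, ?_⟩
      rw [strM_injective h4, strM_injective h5]
      exact hq

theorem exists_conds : ∃ c : M, ∀ z : M, z.1 ∈ c.1 ↔ ∃ p, z = strM p := by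
  obtain ⟨c, hc⟩ := rp_iff.1 (RP.const (arithClosed_RM (M := M)) (α := List Bool) True)
  exact ⟨c, fun z => (hc z).trans (by simp)⟩

theorem gen_iff {x : ℕ → Bool} : Gen (RM M) x ↔ CohenGeneric M x := by
  constructor
  · intro h d hd hdP hdd
    have hRP : RP (RM M) (fun p => strL p ∈ d) := by
      rw [rp_iff]
      refine ⟨⟨d, hd⟩, fun z => ?_⟩
      constructor
      · intro hz
        obtain ⟨p, hp⟩ := mem_CohenP.1 (hdP z.1 hz)
        exact ⟨p, by rw [← hp]; exact hz, Subtype.ext hp⟩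
      · rintro ⟨p, hp, rfl⟩
        exact hp
    obtain ⟨p, hp, hpd⟩ := h _ hRP (by
      intro p
      obtain ⟨q, hq, hpq⟩ := hdd (strL p) (mem_CohenP.2 ⟨p, rfl⟩)
      obtain ⟨l, rfl⟩ := mem_CohenP.1 (hdP q hq)
      exact ⟨l, strL_subset.1 hpq, hq⟩)
    exact ⟨strL p, hpd, strL_mem_filt.2 hp⟩
  · intro h D hD hd
    obtain ⟨c, hc⟩ := rp_iff.1 hD
    obtain ⟨p, hp, hpx⟩ := h c.1 c.2 (by
      intro p hp
      obtain ⟨q, _, hq⟩ := (hc ⟨p, trans_mem c.2 hp⟩).1 hp
      exact mem_CohenP.2 ⟨q, congrArg Subtype.val hq⟩) (by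
      intro p hp
      obtain ⟨l, rfl⟩ := mem_CohenP.1 hp
      obtain ⟨q, hq, hDq⟩ := hd l
      exact ⟨strL q, (hc (strM q)).2 ⟨q, hDq, rfl⟩, strL_subset.2 hq⟩)
    obtain ⟨q, hq, hqp⟩ := (hc ⟨p, trans_mem c.2 hp⟩).1 hp
    refine ⟨q, ?_, hq⟩
    apply strL_mem_filt.1
    have h6 : p = strL q := congrArg Subtype.val hqp
    rw [← h6]
    exact hpx

end Pool.Agent.Lib.MP_f12a7c_lc
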